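import Pool.Agent.V7H97.Tent

set_option autoImplicit false

namespace Pool.Agent.V7H97.Chain

open Finset

theorem summable_exp_sq (κ : ℝ) (hκ : 0 < κ) : Summable fun z : ℤ => Real.exp (-κ * (z : ℝ) ^ 2) := by
  have h1 : Summable fun n : ℕ => Real.exp (-κ * (n : ℝ)) := by
    have := summable_geometric_of_lt_one (Real.exp_pos (-κ)).le
      (by rw [Real.exp_lt_one_iff]; linarith)
    refine this.congr fun n => ?_
    rw [← Real.exp_nat_mul]
    congr 1; ring
  have h2 : Summable fun n : ℕ => Real.exp (-κ * (n : ℝ) ^ 2) := by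
    refine h1.of_nonneg_of_le (fun _ => (Real.exp_pos _).le) fun n => ?_
    rw [Real.exp_le_exp]
    have : (n : ℝ) ≤ (n : ℝ) ^ 2 := by
      rcases Nat.eq_zero_or_pos n with h | h
      · subst h; simp
      · have : (1 : ℝ) ≤ n := by exact_mod_cast h
        nlinarith
    nlinarith
  refine Summable.of_nat_of_neg (by simpa using h2) (by simpa using h2)

/-- product sums -/
theorem summable_pi {ι : Type*} [Fintype ι] [DecidableEq ι] (f : ℤ → ℝ) (hf : ∀ z, 0 ≤ f z)
    (hs : Summable f) : Summable fun x : ι → ℤ => ∏ i, f (x i) := by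
  refine summable_of_sum_le (c := (∑' z, f z) ^ Fintype.card ι)
    (fun x => Finset.prod_nonneg fun i _ => hf _) fun u => ?_
  calc ∑ x ∈ u, ∏ i, f (x i) ≤
      ∑ x ∈ Fintype.piFinset (fun i : ι => u.image (fun x => x i)), ∏ i, f (x i) := by
        refine Finset.sum_le_sum_of_subset_of_nonneg ?_ fun x _ _ =>
          Finset.prod_nonneg fun i _ => hf _
        intro x hx
        rw [Fintype.mem_piFinset]
        intro i
        exact Finset.mem_image_of_mem _ hx
    _ = ∏ i : ι, ∑ z ∈ u.image (fun x => x i), f z := by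
        rw [Finset.prod_univ_sum]
    _ ≤ ∏ i : ι, ∑' z, f z := by
        refine Finset.prod_le_prod (fun i _ => Finset.sum_nonneg fun z _ => hf z) fun i _ => ?_
        exact hs.sum_le_tsum _ fun z _ => hf z
    _ = _ := by rw [Finset.prod_const, Finset.card_univ]

/-- lower bound for the energy -/
theorem energy_lower (α : ℝ) (hα : 1 < α) (N : ℕ) (φ : ℤ → ℝ)
    (hφ : ∀ x : ℤ, (N : ℤ) < |x| → φ x = 0) :
    ((2 * N + 1 : ℕ) : ℝ) ^ (-α) * ∑ x ∈ Finset.Icc (-(N : ℤ)) N, φ x ^ 2 ≤ Bil α φ φ := by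
  have hs := summable_bil α hα N φ φ hφ hφ
  have hinj : Function.Injective fun x : ℤ => ((x, (N : ℤ) + 1) : ℤ × ℤ) := by
    intro a b hab
    simpa using hab
  have h1 : ∑ p ∈ (Finset.Icc (-(N : ℤ)) N).image (fun x : ℤ => ((x, (N : ℤ) + 1) : ℤ × ℤ)),
      g α (p.1 - p.2) * ((φ p.1 - φ p.2) * (φ p.1 - φ p.2)) ≤ Bil α φ φ := by
    refine hs.sum_le_tsum _ fun p _ => ?_
    exact mul_nonneg (g_nonneg _ _) (mul_self_nonneg _)
  refine le_trans ?_ h1
  rw [Finset.sum_image (fun a _ b _ h => hinj h), Finset.mul_sum]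
  refine Finset.sum_le_sum fun x hx => ?_
  have hx1 := Finset.mem_Icc.1 hx
  have h0 : φ ((N : ℤ) + 1) = 0 := hφ _ (by rw [lt_abs]; left; linarith)
  simp only [h0, sub_zero]
  rw [← sq]
  refine mul_le_mul_of_nonneg_right ?_ (sq_nonneg _)
  unfold g
  have h2 : x - ((N : ℤ) + 1) ≠ 0 := by omega
  rw [if_neg h2]
  have h3 : ((|x - ((N : ℤ) + 1)| : ℤ) : ℝ) ≤ ((2 * N + 1 : ℕ) : ℝ) := by
    have : |x - ((N : ℤ) + 1)| ≤ ((2 * N + 1 : ℕ) : ℤ) := by
      rw [abs_le]; push_cast; constructor <;> linarith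
    exact_mod_cast this
  have h4 : (0 : ℝ) < ((|x - ((N : ℤ) + 1)| : ℤ) : ℝ) := by
    have : 0 < |x - ((N : ℤ) + 1)| := abs_pos.2 h2
    exact_mod_cast this
  exact Real.rpow_le_rpow_of_nonpos h4 h3 (by linarith)

/-- the height functions as real functions -/
def re (φ : ℤ → ℤ) (x : ℤ) : ℝ := (φ x : ℝ)

theorem re_supp (N : ℕ) (φ : S N) (x : ℤ) (hx : (N : ℤ) < |x|) : re φ.1 x = 0 := by
  unfold re
  rw [φ.2 x hx]; simp

theorem summable_W (α β : ℝ) (hα : 1 < α) (hβ : 0 < β) (N : ℕ) :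
    (Summable fun φ : S N => Real.exp (-(β * Bil α (re φ.1) (re φ.1)))) ∧
    (Summable fun φ : S N => (φ.1 0 : ℝ) ^ 2 * Real.exp (-(β * Bil α (re φ.1) (re φ.1)))) := by
  classical
  set κ : ℝ := β * ((2 * N + 1 : ℕ) : ℝ) ^ (-α) with hκ
  have hκ0 : 0 < κ := by
    refine mul_pos hβ (Real.rpow_pos_of_pos ?_ _)
    positivity
  set ι := {x : ℤ // x ∈ Finset.Icc (-(N : ℤ)) N}
  set r : S N → (ι → ℤ) := fun φ i => φ.1 i.1 with hr
  have hrinj : Function.Injective r := by
    intro φ ψ h
    ext x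
    by_cases hx : x ∈ Finset.Icc (-(N : ℤ)) N
    · exact congrFun h ⟨x, hx⟩
    · have : (N : ℤ) < |x| := by
        rw [Finset.mem_Icc, not_and_or] at hx
        rcases hx with hx | hx
        · rw [lt_abs]; right; linarith
        · rw [lt_abs]; left; linarith
      rw [φ.2 x this, ψ.2 x this]
  have hE : ∀ φ : S N, κ * ∑ i : ι, (r φ i : ℝ) ^ 2 ≤ β * Bil α (re φ.1) (re φ.1) := by
    intro φ
    have := energy_lower α hα N (re φ.1) (re_supp N φ)
    have h2 : ∑ i : ι, (r φ i : ℝ) ^ 2 = ∑ x ∈ Finset.Icc (-(N : ℤ)) N, re φ.1 x ^ 2 := by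
      rw [← Finset.sum_attach (Finset.Icc (-(N : ℤ)) N)]
      rfl
    rw [h2, hκ, mul_assoc]
    exact mul_le_mul_of_nonneg_left this hβ.le
  have hprod : ∀ (c : ℝ) (x : ι → ℤ), ∏ i, Real.exp (-c * (x i : ℝ) ^ 2) =
      Real.exp (-(c * ∑ i, (x i : ℝ) ^ 2)) := by
    intro c x
    rw [← Real.exp_sum]
    congr 1
    rw [Finset.mul_sum, ← Finset.sum_neg_distrib]
    refine Finset.sum_congr rfl fun i _ => ?_
    ring
  constructor
  · have h1 := (summable_pi (ι := ι) (fun z : ℤ => Real.exp (-κ * (z : ℝ) ^ 2))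
      (fun z => (Real.exp_pos _).le) (summable_exp_sq κ hκ0)).comp_injective hrinj
    refine h1.of_nonneg_of_le (fun _ => (Real.exp_pos _).le) fun φ => ?_
    simp only [Function.comp]
    rw [hprod, Real.exp_le_exp, neg_le_neg_iff]
    exact hE φ
  · have h1 := ((summable_pi (ι := ι) (fun z : ℤ => Real.exp (-(κ / 2) * (z : ℝ) ^ 2))
      (fun z => (Real.exp_pos _).le) (summable_exp_sq (κ / 2) (by positivity))).comp_injective
        hrinj).mul_left (2 / κ)
    refine h1.of_nonneg_of_le (fun _ => by positivity) fun φ => ?_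
    simp only [Function.comp]
    rw [hprod]
    set q : ℝ := ∑ i : ι, (r φ i : ℝ) ^ 2 with hq
    have h0 : (φ.1 0 : ℝ) ^ 2 ≤ q := by
      have h00 : (0 : ℤ) ∈ Finset.Icc (-(N : ℤ)) N := by
        rw [Finset.mem_Icc]; constructor <;> omega
      exact Finset.single_le_sum (f := fun i : ι => (r φ i : ℝ) ^ 2)
        (fun i _ => sq_nonneg _) (Finset.mem_univ (⟨0, h00⟩ : ι))
    have hq0 : 0 ≤ q := (sq_nonneg _).trans h0
    have h2 : (φ.1 0 : ℝ) ^ 2 ≤ 2 / κ * Real.exp (κ / 2 * q) := by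
      have := Real.add_one_le_exp (κ / 2 * q)
      have h3 : q = 2 / κ * (κ / 2 * q) := by field_simp
      calc (φ.1 0 : ℝ) ^ 2 ≤ q := h0
        _ = 2 / κ * (κ / 2 * q) := h3
        _ ≤ 2 / κ * Real.exp (κ / 2 * q) := by
          refine mul_le_mul_of_nonneg_left ?_ (by positivity)
          linarith
    have h4 : Real.exp (-(β * Bil α (re φ.1) (re φ.1))) ≤ Real.exp (-(κ * q)) := by
      rw [Real.exp_le_exp, neg_le_neg_iff]
      exact hE φ
    calc (φ.1 0 : ℝ) ^ 2 * Real.exp (-(β * Bil α (re φ.1) (re φ.1)))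
        ≤ (2 / κ * Real.exp (κ / 2 * q)) * Real.exp (-(κ * q)) := by
          refine mul_le_mul h2 h4 (Real.exp_pos _).le (by positivity)
      _ = 2 / κ * Real.exp (-(κ / 2 * q)) := by
          rw [mul_assoc, ← Real.exp_add]
          congr 2
          ring

/-- the indicator of `[-m, m]` as an element of the lattice -/
noncomputable def tauS (N : ℕ) (m : ℕ) : S N :=
  if h : m ≤ N then ⟨tau m, fun x hx => tau_supp m N h x hx⟩ else 0

theorem Bil_tau_nonneg (α : ℝ) (i j : ℕ) :
    0 ≤ Bil α (re (tau i)) (re (tau j)) := by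
  unfold Bil
  refine tsum_nonneg fun p => mul_nonneg (g_nonneg _ _) ?_
  unfold re tau
  rcases le_total i j with h | h
  · have : (i : ℤ) ≤ j := by exact_mod_cast h
    split_ifs <;> first | omega | norm_num
  · have : (j : ℤ) ≤ i := by exact_mod_cast h
    split_ifs <;> first | omega | norm_num

theorem Bil_le (α : ℝ) (hα : 1 < α) (N : ℕ) (φ ψ : ℤ → ℝ)
    (hφ : ∀ x : ℤ, (N : ℤ) < |x| → φ x = 0) (hψ : ∀ x : ℤ, (N : ℤ) < |x| → ψ x = 0) :
    Bil α φ ψ ≤ (Bil α φ φ + Bil α ψ ψ) / 2 := by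
  have h1 := (summable_bil α hα N φ φ hφ hφ).hasSum.add (summable_bil α hα N ψ ψ hψ hψ).hasSum
  have h2 := h1.div_const 2
  refine hasSum_le (fun p => ?_) (summable_bil α hα N φ ψ hφ hψ).hasSum h2
  rw [← mul_add, mul_div_assoc]
  refine mul_le_mul_of_nonneg_left ?_ (g_nonneg _ _)
  nlinarith [sq_nonneg ((φ p.1 - φ p.2) - (ψ p.1 - ψ p.2))]

/-- the main estimate -/
theorem main (α β : ℝ) (h2 : 2 < α) (h3 : α < 3) (hβ : 0 < β) :
    ∃ c : ℝ, 0 < c ∧ ∀ N : ℕ, c * ((N : ℝ) + 1) ^ (α - 2) *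
      ∑' φ : S N, Real.exp (-(β * Bil α (re φ.1) (re φ.1))) ≤
      ∑' φ : S N, (φ.1 0 : ℝ) ^ 2 * Real.exp (-(β * Bil α (re φ.1) (re φ.1))) := by
  have h1 : 1 < α := by linarith
  set b : ℝ := 2 * ∑' d : ℤ, g α d * ((|d| : ℤ) : ℝ) with hb
  set C : ℝ := 2 * (1 / (3 - α) + 1 / (α - 1)) with hC
  have hC0 : 0 < C := by
    have : 0 < 3 - α := by linarith
    have : 0 < α - 1 := by linarith
    positivity
  set D : ℝ := Real.exp (2 * (β * b)) * 2 * (β * (2 * (2 * C))) with hD
  have hD0 : 0 < D := by positivity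
  refine ⟨1 / D, by positivity, fun N => ?_⟩
  obtain ⟨hW, hU⟩ := summable_W α β h1 hβ N
  have hN0 : (0 : ℝ) < (N : ℝ) + 1 := by positivity
  set R : ℝ := D * ((N : ℝ) + 1) ^ (4 - α) with hR
  have hRpos : 0 < R := mul_pos hD0 (Real.rpow_pos_of_pos hN0 _)
  have key := HCR.hcr (A := S N) (fun φ ψ => β * Bil α (re φ.1) (re ψ.1))
    (fun φ ψ => by rw [Bil_symm])
    (fun φ φ' ψ => by
      have := Bil_add α h1 N (re φ.1) (re φ'.1) (re ψ.1) (re_supp N φ) (re_supp N φ')
        (re_supp N ψ)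
      rw [← mul_add, ← this]
      congr 2
      funext x
      simp [re])
    (fun φ => (φ.1 0 : ℝ)) (fun φ ψ => by simp) hW hU (Finset.range (N + 1)) (tauS N) R hRpos ?_
  · have hsum : ∑ i ∈ Finset.range (N + 1), ((tauS N i).1 0 : ℝ) = (N : ℝ) + 1 := by
      have : ∀ i ∈ Finset.range (N + 1), ((tauS N i).1 0 : ℝ) = 1 := by
        intro i hi
        have hi' : i ≤ N := Nat.lt_succ_iff.1 (Finset.mem_range.1 hi)
        unfold tauS
        rw [dif_pos hi']
        simp [tau]
      rw [Finset.sum_congr rfl this]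
      simp
    rw [hsum] at key
    refine le_trans (le_of_eq ?_) key
    congr 1
    rw [hR]
    have : ((N : ℝ) + 1) ^ 2 = ((N : ℝ) + 1) ^ (α - 2) * ((N : ℝ) + 1) ^ (4 - α) := by
      rw [← Real.rpow_natCast, ← Real.rpow_add hN0]
      congr 1
      push_cast; ring
    rw [this]
    have h4 : 0 < ((N : ℝ) + 1) ^ (4 - α) := Real.rpow_pos_of_pos hN0 _
    field_simp
  · -- the bound for the double sum
    have hval : ∀ i ∈ Finset.range (N + 1), re (tauS N i).1 = re (tau i) := by
      intro i hi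
      have hi' : i ≤ N := Nat.lt_succ_iff.1 (Finset.mem_range.1 hi)
      unfold tauS
      rw [dif_pos hi']
    have hsupp : ∀ i ∈ Finset.range (N + 1), ∀ x : ℤ, (N : ℤ) < |x| → re (tau i) x = 0 := by
      intro i hi x hx
      have hi' : i ≤ N := Nat.lt_succ_iff.1 (Finset.mem_range.1 hi)
      unfold re
      rw [tau_supp i N hi' x hx]; simp
    have hBb : ∀ i ∈ Finset.range (N + 1), ∀ j ∈ Finset.range (N + 1),
        Bil α (re (tau i)) (re (tau j)) ≤ b := by
      intro i hi j hj
      have e1 := energy_tau α h2 i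
      have e2 := energy_tau α h2 j
      have e3 := Bil_le α h1 N (re (tau i)) (re (tau j)) (hsupp i hi) (hsupp j hj)
      have e1' : Bil α (re (tau i)) (re (tau i)) ≤ b := e1
      have e2' : Bil α (re (tau j)) (re (tau j)) ≤ b := e2
      linarith
    have hterm : ∀ i ∈ Finset.range (N + 1), ∀ j ∈ Finset.range (N + 1),
        Real.exp (2 * (β * Bil α (re (tauS N i).1) (re (tauS N j).1))) - 1 ≤
          Real.exp (2 * (β * b)) * 2 * β * Bil α (re (tau i)) (re (tau j)) := by
      intro i hi j hj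
      rw [hval i hi, hval j hj]
      set t := Bil α (re (tau i)) (re (tau j)) with ht
      have ht0 : 0 ≤ t := Bil_tau_nonneg α i j
      have htb : t ≤ b := hBb i hi j hj
      have e1 : Real.exp (2 * (β * t)) ≤ Real.exp (2 * (β * b)) := by
        rw [Real.exp_le_exp]
        gcongr
      -- exp y - 1 ≤ y exp y
      have e2 : Real.exp (2 * (β * t)) - 1 ≤ (2 * (β * t)) * Real.exp (2 * (β * t)) := by
        have h5 := Real.add_one_le_exp (-(2 * (β * t)))
        have h6 : Real.exp (-(2 * (β * t))) * Real.exp (2 * (β * t)) = 1 := by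
          rw [← Real.exp_add]; simp
        have h7 := Real.exp_pos (2 * (β * t))
        nlinarith
      calc _ ≤ (2 * (β * t)) * Real.exp (2 * (β * t)) := e2
        _ ≤ (2 * (β * t)) * Real.exp (2 * (β * b)) := by gcongr
        _ = _ := by ring
    calc ∑ i ∈ Finset.range (N + 1), ∑ j ∈ Finset.range (N + 1),
          (Real.exp (2 * (β * Bil α (re (tauS N i).1) (re (tauS N j).1))) - 1)
        ≤ ∑ i ∈ Finset.range (N + 1), ∑ j ∈ Finset.range (N + 1),
          Real.exp (2 * (β * b)) * 2 * β * Bil α (re (tau i)) (re (tau j)) :=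
          Finset.sum_le_sum fun i hi => Finset.sum_le_sum fun j hj => hterm i hi j hj
      _ = Real.exp (2 * (β * b)) * 2 * β * Bil α (T N) (T N) := by
          have hlin : ∑ i ∈ Finset.range (N + 1), ∑ j ∈ Finset.range (N + 1),
              Bil α (re (tau i)) (re (tau j)) = Bil α (T N) (T N) := by
            have := Bil_sum α h1 N (Finset.range (N + 1))
              (fun i => if i ≤ N then re (tau i) else 0) (fun i x hx => ?_)
            · have e3 : ∀ i ∈ Finset.range (N + 1),
                  (if i ≤ N then re (tau i) else (0 : ℤ → ℝ)) = re (tau i) := by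
                intro i hi
                rw [if_pos (Nat.lt_succ_iff.1 (Finset.mem_range.1 hi))]
              have e4 : (fun x : ℤ => ∑ i ∈ Finset.range (N + 1),
                  (if i ≤ N then re (tau i) else (0 : ℤ → ℝ)) x) = T N := by
                funext x
                unfold T
                refine Finset.sum_congr rfl fun i hi => ?_
                rw [e3 i hi]; rfl
              rw [e4] at this
              rw [← this]
              refine Finset.sum_congr rfl fun i hi => Finset.sum_congr rfl fun j hj => ?_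
              rw [e3 i hi, e3 j hj]
            · split_ifs with hiN
              · unfold re
                rw [tau_supp i N hiN x hx]; simp
              · rfl
          rw [← hlin]
          simp only [Finset.mul_sum]
      _ ≤ Real.exp (2 * (β * b)) * 2 * β * (2 * ((2 * N + 1) * ∑' d, h α (N + 1) d)) := by
          refine mul_le_mul_of_nonneg_left (energy_tent α h1 N) (by positivity)
      _ ≤ Real.exp (2 * (β * b)) * 2 * β * (2 * ((2 * (N + 1)) *
            (C * ((N : ℝ) + 1) ^ (3 - α)))) := by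
          have e5 := tsum_h α h2 h3 (N + 1) (by omega)
          push_cast at e5
          have e6 : 0 ≤ ∑' d, h α (N + 1) d := tsum_nonneg fun d => h_nonneg _ _ _
          gcongr
          linarith
      _ = R := by
          rw [hR, hD]
          have : ((N : ℝ) + 1) ^ (4 - α) = ((N : ℝ) + 1) * ((N : ℝ) + 1) ^ (3 - α) := by
            rw [show (4 - α) = 1 + (3 - α) by ring, Real.rpow_add hN0, Real.rpow_one]
          rw [this]; ring

end Pool.Agent.V7H97.Chain
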