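import Pool.Agent.V7H97.HCR

set_option autoImplicit false

namespace Pool.Agent.V7H97.Chain

open Finset

/-- coupling constants -/
noncomputable def g (α : ℝ) (d : ℤ) : ℝ := if d = 0 then 0 else ((|d| : ℤ) : ℝ) ^ (-α)

theorem g_nonneg (α : ℝ) (d : ℤ) : 0 ≤ g α d := by
  unfold g; split_ifs
  · exact le_rfl
  · positivity

theorem g_neg (α : ℝ) (d : ℤ) : g α (-d) = g α d := by
  unfold g; simp

theorem g_pow (α s : ℝ) (d : ℤ) (hα : α - s ≠ 0) (hd : d ≠ 0 ∨ s ≠ 0) :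
    g α d * ((|d| : ℤ) : ℝ) ^ s = |(d : ℝ)| ^ (-(α - s)) := by
  unfold g
  split_ifs with h
  · subst h
    simp only [Int.cast_zero, abs_zero, zero_mul]
    rw [Real.zero_rpow]
    intro h; apply hα; linarith
  · have h1 : 0 < |(d : ℝ)| := by positivity
    push_cast
    rw [← Real.rpow_add h1]
    congr 1; ring

theorem summable_g (α : ℝ) (hα : 1 < α) : Summable (g α) := by
  refine (Real.summable_abs_int_rpow hα).of_nonneg_of_le (g_nonneg α) fun d => ?_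
  unfold g
  split_ifs
  · positivity
  · push_cast; rfl

theorem summable_g_abs (α : ℝ) (hα : 2 < α) : Summable fun d : ℤ => g α d * ((|d| : ℤ) : ℝ) := by
  refine (Real.summable_abs_int_rpow (b := α - 1) (by linarith)).congr fun d => ?_
  have := g_pow α 1 d (by linarith) (Or.inr one_ne_zero)
  rw [← this, Real.rpow_one]

/-- change of variables `(x, d) ↦ (x, x - d)` -/
def shear : ℤ × ℤ ≃ ℤ × ℤ where
  toFun p := (p.1, p.1 - p.2)
  invFun p := (p.1, p.1 - p.2)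
  left_inv p := by ext <;> simp
  right_inv p := by ext <;> simp

theorem summable_left (α : ℝ) (hα : 1 < α) (f : ℤ → ℝ) (hf : ∀ x, 0 ≤ f x) (hs : Summable f) :
    Summable fun p : ℤ × ℤ => g α (p.1 - p.2) * f p.1 := by
  rw [← shear.summable_iff]
  have := (hs.mul_of_nonneg (summable_g α hα) hf (g_nonneg α))
  refine this.congr fun p => ?_
  simp only [Function.comp, shear, Equiv.coe_fn_mk, sub_sub_cancel]
  ring

theorem summable_right (α : ℝ) (hα : 1 < α) (f : ℤ → ℝ) (hf : ∀ x, 0 ≤ f x) (hs : Summable f) :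
    Summable fun p : ℤ × ℤ => g α (p.1 - p.2) * f p.2 := by
  rw [← (Equiv.prodComm ℤ ℤ).summable_iff]
  refine (summable_left α hα f hf hs).congr fun p => ?_
  simp only [Function.comp, Equiv.prodComm_apply, Prod.fst_swap, Prod.snd_swap]
  rw [← g_neg]; ring_nf

/-- the height functions on `[-N, N]` -/
def S (N : ℕ) : AddSubgroup (ℤ → ℤ) where
  carrier := {φ | ∀ x : ℤ, (N : ℤ) < |x| → φ x = 0}
  add_mem' := by
    intro a b ha hb x hx
    simp [ha x hx, hb x hx]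
  zero_mem' := by intro x _; rfl
  neg_mem' := by
    intro a ha x hx
    simp [ha x hx]

theorem summable_form (α : ℝ) (hα : 1 < α) (N : ℕ) (φ : ℤ → ℝ)
    (hφ : ∀ x : ℤ, (N : ℤ) < |x| → φ x = 0) :
    Summable fun p : ℤ × ℤ => g α (p.1 - p.2) * (φ p.1 - φ p.2) ^ 2 := by
  have hfs : Summable fun x => 2 * φ x ^ 2 := by
    refine summable_of_ne_finset_zero (s := Finset.Icc (-(N : ℤ)) N) fun x hx => ?_
    rw [hφ x]
    · simp
    · rw [Finset.mem_Icc, not_and_or] at hx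
      rcases hx with hx | hx
      · rw [lt_abs]; right; linarith
      · rw [lt_abs]; left; linarith
  refine ((summable_left α hα _ (fun x => by positivity) hfs).add
    (summable_right α hα _ (fun x => by positivity) hfs)).of_nonneg_of_le
    (fun p => mul_nonneg (g_nonneg _ _) (sq_nonneg _)) fun p => ?_
  have := g_nonneg α (p.1 - p.2)
  rw [← mul_add]
  refine mul_le_mul_of_nonneg_left ?_ this
  nlinarith [sq_nonneg (φ p.1 + φ p.2)]

theorem summable_bil (α : ℝ) (hα : 1 < α) (N : ℕ) (φ ψ : ℤ → ℝ)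
    (hφ : ∀ x : ℤ, (N : ℤ) < |x| → φ x = 0) (hψ : ∀ x : ℤ, (N : ℤ) < |x| → ψ x = 0) :
    Summable fun p : ℤ × ℤ => g α (p.1 - p.2) * ((φ p.1 - φ p.2) * (ψ p.1 - ψ p.2)) := by
  refine Summable.of_norm_bounded
    ((summable_form α hα N φ hφ).add (summable_form α hα N ψ hψ)) fun p => ?_
  rw [Real.norm_eq_abs, abs_mul, abs_of_nonneg (g_nonneg _ _), ← mul_add]
  refine mul_le_mul_of_nonneg_left ?_ (g_nonneg _ _)
  rw [abs_mul]
  nlinarith [sq_abs (φ p.1 - φ p.2), sq_abs (ψ p.1 - ψ p.2),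
    sq_nonneg (|φ p.1 - φ p.2| - |ψ p.1 - ψ p.2|), abs_nonneg (φ p.1 - φ p.2),
    abs_nonneg (ψ p.1 - ψ p.2), sq_nonneg (φ p.1 - φ p.2), sq_nonneg (ψ p.1 - ψ p.2)]

/-- the bilinear form of the Hamiltonian -/
noncomputable def Bil (α : ℝ) (φ ψ : ℤ → ℝ) : ℝ :=
  ∑' p : ℤ × ℤ, g α (p.1 - p.2) * ((φ p.1 - φ p.2) * (ψ p.1 - ψ p.2))

theorem Bil_symm (α : ℝ) (φ ψ : ℤ → ℝ) : Bil α φ ψ = Bil α ψ φ := by
  unfold Bil
  refine tsum_congr fun p => ?_
  ring

theorem Bil_add (α : ℝ) (hα : 1 < α) (N : ℕ) (φ φ' ψ : ℤ → ℝ)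
    (hφ : ∀ x : ℤ, (N : ℤ) < |x| → φ x = 0) (hφ' : ∀ x : ℤ, (N : ℤ) < |x| → φ' x = 0)
    (hψ : ∀ x : ℤ, (N : ℤ) < |x| → ψ x = 0) :
    Bil α (fun x => φ x + φ' x) ψ = Bil α φ ψ + Bil α φ' ψ := by
  unfold Bil
  rw [← (summable_bil α hα N φ ψ hφ hψ).tsum_add (summable_bil α hα N φ' ψ hφ' hψ)]
  refine tsum_congr fun p => ?_
  ring

theorem Bil_sum (α : ℝ) (hα : 1 < α) (N : ℕ) {ι : Type*} (s : Finset ι) (f : ι → ℤ → ℝ)
    (hf : ∀ i, ∀ x : ℤ, (N : ℤ) < |x| → f i x = 0) :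
    ∑ i ∈ s, ∑ j ∈ s, Bil α (f i) (f j) =
      Bil α (fun x => ∑ i ∈ s, f i x) (fun x => ∑ i ∈ s, f i x) := by
  have h : HasSum (fun p : ℤ × ℤ => ∑ i ∈ s, ∑ j ∈ s,
      g α (p.1 - p.2) * ((f i p.1 - f i p.2) * (f j p.1 - f j p.2)))
      (∑ i ∈ s, ∑ j ∈ s, Bil α (f i) (f j)) :=
    hasSum_sum fun i _ => hasSum_sum fun j _ =>
      (summable_bil α hα N (f i) (f j) (hf i) (hf j)).hasSum
  rw [← h.tsum_eq]
  unfold Bil
  refine tsum_congr fun p => ?_
  simp only [← Finset.sum_sub_distrib]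
  rw [Finset.sum_mul_sum, Finset.mul_sum]
  refine Finset.sum_congr rfl fun i _ => ?_
  rw [Finset.mul_sum]

/-- a sum over `ℤ × ℤ` of a function supported on finitely many first coordinates -/
theorem tsum_shear (F : ℤ × ℤ → ℝ) (hF : Summable F) (s : Finset ℤ)
    (hs : ∀ x y, x ∉ s → F (x, y) = 0) :
    ∑' p, F p = ∑' d : ℤ, ∑ x ∈ s, F (x, x - d) := by
  have h1 : Summable fun p : ℤ × ℤ => F (shear p) := shear.summable_iff.2 hF
  rw [← shear.tsum_eq F, h1.tsum_prod' fun x => h1.prod_factor x]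
  rw [tsum_eq_sum (s := s) (fun x hx => ?_)]
  · have h2 : HasSum (fun d => ∑ x ∈ s, F (shear (x, d))) (∑ x ∈ s, ∑' d, F (shear (x, d))) :=
      hasSum_sum fun x _ => (h1.prod_factor x).hasSum
    rw [← h2.tsum_eq]
    rfl
  · simp only [shear, Equiv.coe_fn_mk]
    simp [hs x _ hx]

/-- indicator of the interval `[-m, m]` -/
noncomputable def tau (m : ℕ) (x : ℤ) : ℤ := if |x| ≤ m then 1 else 0

theorem count (m : ℕ) (d : ℤ) :
    ((Finset.Icc (-(m : ℤ)) m).filter fun x => (m : ℤ) < |x - d|).card ≤ d.natAbs := by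
  rcases le_total 0 d with hd | hd
  · have : ((Finset.Icc (-(m : ℤ)) m).filter fun x => (m : ℤ) < |x - d|) ⊆
        Finset.Ico (-(m : ℤ)) (-(m : ℤ) + d) := by
      intro x hx
      rw [Finset.mem_filter, Finset.mem_Icc] at hx
      rw [Finset.mem_Ico]
      obtain ⟨⟨h1, h2⟩, h3⟩ := hx
      rcases lt_abs.1 h3 with h | h <;> constructor <;> linarith
    refine (Finset.card_le_card this).trans ?_
    rw [Int.card_Ico]
    omega
  · have : ((Finset.Icc (-(m : ℤ)) m).filter fun x => (m : ℤ) < |x - d|) ⊆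
        Finset.Ioc ((m : ℤ) + d) m := by
      intro x hx
      rw [Finset.mem_filter, Finset.mem_Icc] at hx
      rw [Finset.mem_Ioc]
      obtain ⟨⟨h1, h2⟩, h3⟩ := hx
      rcases lt_abs.1 h3 with h | h <;> constructor <;> linarith
    refine (Finset.card_le_card this).trans ?_
    rw [Int.card_Ioc]
    omega

theorem tau_supp (m N : ℕ) (h : m ≤ N) (x : ℤ) (hx : (N : ℤ) < |x|) : tau m x = 0 := by
  unfold tau
  rw [if_neg]
  have : (m : ℤ) ≤ N := by exact_mod_cast h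
  omega

theorem tau_sq (m : ℕ) (x y : ℤ) : ((tau m x : ℝ) - (tau m y : ℝ)) ^ 2 =
    (if |x| ≤ m ∧ (m : ℤ) < |y| then 1 else 0) + (if |y| ≤ m ∧ (m : ℤ) < |x| then 1 else 0) := by
  unfold tau
  by_cases hx : |x| ≤ m <;> by_cases hy : |y| ≤ m
  · simp [hx, hy, not_lt.2 hx, not_lt.2 hy]
  · simp [hx, hy, not_lt.2 hx, not_le.1 hy]
  · simp [hx, hy, not_le.1 hx, not_lt.2 hy]
  · simp [hx, hy]

/-- one half of the energy density of an interval -/
noncomputable def F (α : ℝ) (m : ℕ) (p : ℤ × ℤ) : ℝ :=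
  g α (p.1 - p.2) * (if |p.1| ≤ m ∧ (m : ℤ) < |p.2| then 1 else 0)

theorem ite_nonneg' (P : Prop) [Decidable P] : (0 : ℝ) ≤ if P then 1 else 0 := by
  split_ifs <;> norm_num

theorem F_nonneg (α : ℝ) (m : ℕ) (p : ℤ × ℤ) : 0 ≤ F α m p :=
  mul_nonneg (g_nonneg _ _) (ite_nonneg' _)

theorem F_swap (α : ℝ) (m : ℕ) (p : ℤ × ℤ) :
    g α (p.1 - p.2) * (((tau m p.1 : ℝ) - (tau m p.2 : ℝ)) * ((tau m p.1 : ℝ) - (tau m p.2 : ℝ))) =
      F α m p + F α m p.swap := by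
  have h3 : g α (p.2 - p.1) = g α (p.1 - p.2) := by rw [← g_neg]; ring_nf
  unfold F
  rw [Prod.fst_swap, Prod.snd_swap, h3, ← mul_add, ← sq, tau_sq]

theorem F_summable (α : ℝ) (hα : 1 < α) (m : ℕ) : Summable (F α m) := by
  refine (summable_form α hα m (fun x => (tau m x : ℝ)) fun x hx => ?_).of_nonneg_of_le
    (F_nonneg α m) fun p => ?_
  · rw [tau_supp m m le_rfl x hx]; simp
  · have := F_swap α m p
    have h2 := F_nonneg α m p.swap
    rw [sq]
    linarith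

theorem F_fiber (α : ℝ) (m : ℕ) (d : ℤ) :
    ∑ x ∈ Finset.Icc (-(m : ℤ)) m, F α m (x, x - d) ≤ g α d * ((|d| : ℤ) : ℝ) := by
  have : ∑ x ∈ Finset.Icc (-(m : ℤ)) m, F α m (x, x - d) =
      g α d * (((Finset.Icc (-(m : ℤ)) m).filter fun x => (m : ℤ) < |x - d|).card : ℝ) := by
    rw [Finset.card_filter]
    push_cast
    rw [Finset.mul_sum]
    refine Finset.sum_congr rfl fun x hx => ?_
    have hx' : |x| ≤ m := by rw [abs_le]; exact Finset.mem_Icc.1 hx
    unfold F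
    simp only [hx', sub_sub_cancel, true_and]
  rw [this]
  refine mul_le_mul_of_nonneg_left ?_ (g_nonneg _ _)
  have := count m d
  rw [Int.abs_eq_natAbs]
  exact_mod_cast this

/-- the energy of an interval is bounded -/
theorem energy_tau (α : ℝ) (hα : 2 < α) (m : ℕ) :
    Bil α (fun x => (tau m x : ℝ)) (fun x => (tau m x : ℝ)) ≤
      2 * ∑' d : ℤ, g α d * ((|d| : ℤ) : ℝ) := by
  have hFs := F_summable α (by linarith) m
  have hsw : Summable fun p : ℤ × ℤ => F α m p.swap := hFs.prod_symm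
  have h1 : Bil α (fun x => (tau m x : ℝ)) (fun x => (tau m x : ℝ)) =
      ∑' p, F α m p + ∑' p, F α m p := by
    have h2 : ∑' p : ℤ × ℤ, F α m p = ∑' p : ℤ × ℤ, F α m p.swap :=
      ((Equiv.prodComm ℤ ℤ).tsum_eq (F α m)).symm
    nth_rewrite 2 [h2]
    rw [← hFs.tsum_add hsw]
    unfold Bil
    exact tsum_congr fun p => F_swap α m p
  rw [h1, ← two_mul]
  refine mul_le_mul_of_nonneg_left ?_ (by norm_num)
  rw [tsum_shear (F α m) hFs (Finset.Icc (-(m : ℤ)) m)]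
  · refine Summable.tsum_le_tsum (F_fiber α m) ?_ (summable_g_abs α hα)
    exact (summable_g_abs α hα).of_nonneg_of_le
      (fun d => Finset.sum_nonneg fun x _ => F_nonneg _ _ _) (F_fiber α m)
  · intro x y hx
    unfold F
    rw [if_neg, mul_zero]
    rintro ⟨h, _⟩
    exact hx (Finset.mem_Icc.2 (abs_le.1 h))

end Pool.Agent.V7H97.Chain
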