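import Pool.Agent.V7H97.ConeMom

set_option autoImplicit false

open MeasureTheory ENNReal Matrix Set Filter Topology

namespace Pool.Agent.V7H97.Cone

theorem lint_scale (c : ℝ) (hc : 0 < c) (F : ℝ → ℝ≥0∞) (hF : Measurable F) :
    ENNReal.ofReal c * ∫⁻ x in Ioi (0 : ℝ), F (c * x) = ∫⁻ x in Ioi (0 : ℝ), F x := by
  have h := Real.smul_map_volume_mul_left hc.ne'
  rw [abs_of_pos hc] at h
  have hm : Measurable fun x : ℝ => (Ioi (0 : ℝ)).indicator F x := hF.indicator measurableSet_Ioi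
  rw [← lintegral_indicator measurableSet_Ioi, ← lintegral_indicator measurableSet_Ioi]
  have e : ∀ x : ℝ, (Ioi (0 : ℝ)).indicator (fun x => F (c * x)) x =
      (Ioi (0 : ℝ)).indicator F (c * x) := by
    intro x
    by_cases hx : 0 < x
    · rw [indicator_of_mem (show x ∈ Ioi (0 : ℝ) from hx),
        indicator_of_mem (show c * x ∈ Ioi (0 : ℝ) from mul_pos hc hx)]
    · rw [indicator_of_notMem (show x ∉ Ioi (0 : ℝ) from hx), indicator_of_notMem]
      intro h'
      exact hx (by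
        have : 0 < c * x := h'
        exact (mul_pos_iff_of_pos_left hc).1 this)
  simp only [e]
  conv_rhs => rw [← h]
  rw [lintegral_smul_measure, lintegral_map hm (measurable_const_mul c), smul_eq_mul]

theorem lint_exp (a : ℝ) (ha : 0 < a) :
    ∫⁻ x in Ioi (0 : ℝ), ENNReal.ofReal (Real.exp (-(a * x))) = ENNReal.ofReal (1 / a) := by
  rw [← ofReal_integral_eq_lintegral_ofReal]
  · have := integral_exp_mul_Ioi (a := -a) (by linarith) 0
    simp only [neg_mul] at this
    rw [this]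
    congr 1
    simp
  · have := integrableOn_exp_mul_Ioi (a := -a) (by linarith) 0
    simp only [neg_mul] at this
    exact this
  · exact Eventually.of_forall fun x => (Real.exp_pos _).le

theorem w1_le_one (x : ℝ) : w1 x ≤ 1 := by
  unfold w1
  rw [← ENNReal.ofReal_one]
  refine ENNReal.ofReal_le_ofReal ?_
  rw [← Real.exp_zero]
  exact Real.exp_le_exp.2 (by nlinarith [Real.pi_pos, sq_nonneg x, mul_nonneg Real.pi_pos.le (sq_nonneg x)])

theorem w1_pos (x : ℝ) : 0 < w1 x := by
  unfold w1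
  exact ENNReal.ofReal_pos.2 (Real.exp_pos _)

theorem w1_neg (x : ℝ) : w1 (-x) = w1 x := by
  unfold w1
  rw [neg_sq]

theorem w1_anti {x y : ℝ} (h0 : 0 ≤ x) (h : x ≤ y) : w1 y ≤ w1 x := by
  unfold w1
  refine ENNReal.ofReal_le_ofReal (Real.exp_le_exp.2 ?_)
  have : x ^ 2 ≤ y ^ 2 := by nlinarith
  have := mul_le_mul_of_nonneg_left this Real.pi_pos.le
  linarith

theorem continuous_w1 : Continuous w1 := by
  unfold w1
  exact ENNReal.continuous_ofReal.comp (by fun_prop)

theorem w1_zero : w1 0 = 1 := by simp [w1]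

/-- reflection -/
theorem lint_reflect (F : ℝ → ℝ≥0∞) :
    ∫⁻ x in Iio (0 : ℝ), F x = ∫⁻ x in Ioi (0 : ℝ), F (-x) := by
  rw [← lintegral_indicator measurableSet_Ioi, ← lintegral_indicator measurableSet_Iio,
    ← lintegral_neg_eq_self]
  refine lintegral_congr fun x => ?_
  by_cases hx : 0 < x
  · rw [indicator_of_mem (show x ∈ Ioi (0 : ℝ) from hx),
      indicator_of_mem (show -x ∈ Iio (0 : ℝ) from (by simpa using hx))]
  · rw [indicator_of_notMem (show x ∉ Ioi (0 : ℝ) from hx),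
      indicator_of_notMem (show -x ∉ Iio (0 : ℝ) from (by simpa using hx))]

theorem lint_split (F : ℝ → ℝ≥0∞) :
    ∫⁻ x, F x = (∫⁻ x in Ioi (0 : ℝ), F (-x)) + ∫⁻ x in Ioi (0 : ℝ), F x := by
  rw [← lint_reflect, ← lintegral_add_compl F measurableSet_Iio, compl_Iio,
    setLIntegral_congr (Ioi_ae_eq_Ici (μ := (volume : Measure ℝ)) (a := (0 : ℝ)))]

theorem lint_w1_half : 2 * ∫⁻ x in Ioi (0 : ℝ), w1 x = 1 := by
  have := lint_split w1
  simp only [w1_neg] at this
  rw [two_mul, ← this, lintegral_w1]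

/-- tail -/
noncomputable def qq (y : ℝ) : ℝ≥0∞ := ∫⁻ t in Ioi y, w1 t

theorem qq_anti {x y : ℝ} (h : x ≤ y) : qq y ≤ qq x :=
  lintegral_mono_set (Ioi_subset_Ioi h)

theorem qq_pos (y : ℝ) : 0 < qq y := by
  unfold qq
  rw [setLIntegral_pos_iff measurable_w1]
  have : Function.support w1 = univ := by
    ext x
    simp [(w1_pos x).ne']
  rw [this, univ_inter]
  simp

theorem qq_measurable : Measurable qq := by
  exact (show Antitone qq from fun _ _ h => qq_anti h).measurable

/-- the constant -/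
noncomputable def be : ℝ≥0∞ := 2 * ∫⁻ t in Ioi (0 : ℝ), w1 t * qq t

theorem be_pos : 0 < be := by
  unfold be
  refine ENNReal.mul_pos two_ne_zero ?_
  rw [← pos_iff_ne_zero, setLIntegral_pos_iff (f := fun t => w1 t * qq t)
    (measurable_w1.mul qq_measurable)]
  have : Function.support (fun x => w1 x * qq x) = univ := by
    ext x
    simp [(w1_pos x).ne', (qq_pos x).ne']
  rw [this, univ_inter]
  simp

theorem qq_le_one (y : ℝ) : qq y ≤ 1 := by
  unfold qq
  rw [← lintegral_w1]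
  exact setLIntegral_le_lintegral _ _

theorem be_le_one : be ≤ 1 := by
  unfold be
  rw [← lint_w1_half]
  gcongr with x
  exact (mul_le_mul' le_rfl (qq_le_one x)).trans (mul_one _).le

/-- `B` -/
noncomputable def BB (m : ℝ → ℝ≥0∞) (s : ℝ) : ℝ≥0∞ := 2 * ∫⁻ t in Ioi (0 : ℝ), w1 t * m (t / s)

theorem BB_le_one (m : ℝ → ℝ≥0∞) (hm1 : ∀ r, m r ≤ 1) (s : ℝ) : BB m s ≤ 1 := by
  unfold BB
  rw [← lint_w1_half]
  gcongr with x
  exact (mul_le_mul' le_rfl (hm1 _)).trans (mul_one _).le

theorem BB_eq (m : ℝ → ℝ≥0∞) (hm : Measurable m) {s : ℝ} (hs : 0 < s) :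
    BB m s = ENNReal.ofReal s * (2 * ∫⁻ r in Ioi (0 : ℝ), w1 (s * r) * m r) := by
  unfold BB
  have h := lint_scale s hs (fun t => w1 t * m (t / s))
    (measurable_w1.mul (hm.comp (measurable_id.div_const s)))
  have e : ∀ r, s * r / s = r := fun r => by field_simp
  simp only [e] at h
  rw [← h, mul_left_comm]

theorem BB_lower (m : ℝ → ℝ≥0∞) (hm : Measurable m) (x : ℝ) (hx : 0 < x)
    (hq : ∀ r, 0 ≤ r → qq (x * r) ≤ m r) {s : ℝ} (hs : 0 < s) :
    ENNReal.ofReal (min (s / x) 1) * be ≤ BB m s := by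
  rcases le_total s x with h | h
  · -- s ≤ x
    rw [min_eq_left ((div_le_one hx).2 h), BB_eq m hm hs]
    have h1 : be = ENNReal.ofReal x * (2 * ∫⁻ r in Ioi (0 : ℝ), w1 (x * r) * qq (x * r)) := by
      unfold be
      rw [← lint_scale x hx (fun t => w1 t * qq t) (measurable_w1.mul qq_measurable),
        mul_left_comm]
    rw [h1, ← mul_assoc, ← ENNReal.ofReal_mul (by positivity), div_mul_cancel₀ _ hx.ne']
    refine mul_le_mul' le_rfl (mul_le_mul' le_rfl ?_)
    refine setLIntegral_mono (((measurable_w1.comp (measurable_const_mul s))).mul hm) fun r hr => ?_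
    have hr' : 0 < r := hr
    refine mul_le_mul' (w1_anti (by positivity) (by gcongr)) (hq r hr'.le)
  · rw [min_eq_right ((one_le_div hx).2 h), ENNReal.ofReal_one, one_mul]
    unfold be BB
    refine mul_le_mul' le_rfl ?_
    refine setLIntegral_mono (measurable_w1.mul (hm.comp (measurable_id.div_const s)))
      fun r hr => ?_
    have hr' : 0 < r := hr
    refine mul_le_mul' le_rfl ((qq_anti ?_).trans (hq (r / s) (by positivity)))
    rw [mul_div_assoc', div_le_iff₀ (by linarith)]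
    nlinarith

theorem BB_lim (m : ℝ → ℝ≥0∞) (hm : Measurable m) (hfin : ∫⁻ r in Ioi (0 : ℝ), m r ≠ ∞)
    {u : ℝ} (hu : 0 < u) :
    Tendsto (fun d : ℕ => (d : ℝ≥0∞) * BB m (u / d)) atTop
      (𝓝 (ENNReal.ofReal u * (2 * ∫⁻ r in Ioi (0 : ℝ), m r))) := by
  have h1 : Tendsto (fun d : ℕ => ∫⁻ r in Ioi (0 : ℝ), w1 (u / d * r) * m r) atTop
      (𝓝 (∫⁻ r in Ioi (0 : ℝ), m r)) := by
    refine tendsto_lintegral_of_dominated_convergence m ?_ ?_ hfin ?_
    · intro d
      exact (measurable_w1.comp (measurable_const_mul _)).mul hm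
    · intro d
      exact Eventually.of_forall fun r => (mul_le_mul' (w1_le_one _) le_rfl).trans (one_mul _).le
    · refine Eventually.of_forall fun r => ?_
      have h2 : Tendsto (fun d : ℕ => w1 (u / d * r)) atTop (𝓝 1) := by
        rw [← w1_zero]
        refine (continuous_w1.tendsto 0).comp ?_
        have := (tendsto_const_div_atTop_nhds_zero_nat u).mul_const r
        rwa [zero_mul] at this
      have h3 := ENNReal.Tendsto.mul_const (b := m r) h2 (Or.inl one_ne_zero)
      rwa [one_mul] at h3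
  have h4 : Tendsto (fun d : ℕ => ENNReal.ofReal u *
      (2 * ∫⁻ r in Ioi (0 : ℝ), w1 (u / d * r) * m r)) atTop
      (𝓝 (ENNReal.ofReal u * (2 * ∫⁻ r in Ioi (0 : ℝ), m r))) := by
    refine ENNReal.Tendsto.const_mul (ENNReal.Tendsto.const_mul h1 (Or.inr (by simp))) (Or.inr (by simp))
  refine h4.congr' ?_
  filter_upwards [eventually_gt_atTop 0] with d hd
  have hd' : (0 : ℝ) < d := by exact_mod_cast hd
  rw [BB_eq m hm (div_pos hu hd'), ← mul_assoc (d : ℝ≥0∞)]
  congr 1
  rw [← ENNReal.ofReal_natCast, ← ENNReal.ofReal_mul hd'.le]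
  congr 1
  field_simp

end Pool.Agent.V7H97.Cone
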