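import Pool.Agent.V7H97.ConeAs1

set_option autoImplicit false

open MeasureTheory ENNReal Matrix Set Filter Topology

namespace Pool.Agent.V7H97.Cone

theorem pow_le_exp (p : ℝ≥0∞) (c : ℝ) (hc : 0 ≤ c) (hp : ENNReal.ofReal c ≤ p) (d : ℕ) :
    (1 - p) ^ d ≤ ENNReal.ofReal (Real.exp (-(d * c))) := by
  have h1 : 1 - p ≤ ENNReal.ofReal (Real.exp (-c)) := by
    refine (tsub_le_tsub_left hp 1).trans ?_
    rw [← ENNReal.ofReal_one, ← ENNReal.ofReal_sub _ hc]
    refine ENNReal.ofReal_le_ofReal ?_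
    have := Real.add_one_le_exp (-c)
    linarith
  refine (pow_le_pow_left' h1 d).trans ?_
  rw [← ENNReal.ofReal_pow (Real.exp_pos _).le, ← Real.exp_nat_mul]
  refine ENNReal.ofReal_le_ofReal (Real.exp_le_exp.2 (by linarith))

theorem tendsto_mul_pow (r : ℝ≥0∞) (hr : r < 1) :
    Tendsto (fun d : ℕ => (d : ℝ≥0∞) * r ^ d) atTop (𝓝 0) := by
  have hr' : r.toReal < 1 := by
    have := (ENNReal.toReal_lt_toReal hr.ne_top ENNReal.one_ne_top).2 hr
    simpa using this
  have h := tendsto_self_mul_const_pow_of_lt_one (r := r.toReal) ENNReal.toReal_nonneg hr'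
  have h2 := ENNReal.tendsto_ofReal h
  rw [ENNReal.ofReal_zero] at h2
  refine h2.congr fun d => ?_
  rw [ENNReal.ofReal_mul (by positivity), ENNReal.ofReal_natCast, ENNReal.ofReal_pow
    ENNReal.toReal_nonneg, ENNReal.ofReal_toReal hr.ne_top]

theorem be_ne_top : be ≠ ∞ := (be_le_one.trans_lt ENNReal.one_lt_top).ne

theorem be_real_pos : 0 < be.toReal := ENNReal.toReal_pos be_pos.ne' be_ne_top

theorem BB_lower' (m : ℝ → ℝ≥0∞) (hm : Measurable m) (x : ℝ) (hx : 0 < x)
    (hq : ∀ r, 0 ≤ r → qq (x * r) ≤ m r) {s : ℝ} (hs : 0 < s) :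
    ENNReal.ofReal (min (s / x) 1 * be.toReal) ≤ BB m s := by
  rw [ENNReal.ofReal_mul (by positivity), ENNReal.ofReal_toReal be_ne_top]
  exact BB_lower m hm x hx hq hs

/-- the uniform bound -/
theorem L_bound (m : ℝ → ℝ≥0∞) (hm : Measurable m) (x : ℝ) (hx : 0 < x)
    (hq : ∀ r, 0 ≤ r → qq (x * r) ≤ m r) (d : ℕ) :
    (d : ℝ≥0∞) * ∫⁻ s in Ioi (0 : ℝ), w1 s * (1 - BB m s) ^ d ≤
      ENNReal.ofReal (x / be.toReal) + ENNReal.ofReal (1 / be.toReal) := by
  set β := be.toReal with hβ
  have hβ0 : 0 < β := be_real_pos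
  rcases Nat.eq_zero_or_pos d with hd | hd
  · simp [hd]
  have hd' : (0 : ℝ) < d := by exact_mod_cast hd
  have h1 : ∀ s ∈ Ioi (0 : ℝ), w1 s * (1 - BB m s) ^ d ≤
      ENNReal.ofReal (Real.exp (-((d * β / x) * s))) +
        w1 s * ENNReal.ofReal (Real.exp (-(d * β))) := by
    intro s hs
    have hs' : 0 < s := hs
    have h2 := pow_le_exp _ _ (by positivity) (BB_lower' m hm x hx hq hs') d
    rcases le_total (s / x) 1 with h | h
    · rw [min_eq_left h] at h2
      refine le_add_right ?_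
      refine (mul_le_mul' (w1_le_one s) h2).trans ?_
      rw [one_mul]
      refine ENNReal.ofReal_le_ofReal (Real.exp_le_exp.2 (le_of_eq ?_))
      rw [← hβ]; ring
    · rw [min_eq_right h, one_mul] at h2
      refine le_add_left ?_
      exact mul_le_mul' le_rfl h2
  calc (d : ℝ≥0∞) * ∫⁻ s in Ioi (0 : ℝ), w1 s * (1 - BB m s) ^ d
      ≤ (d : ℝ≥0∞) * ∫⁻ s in Ioi (0 : ℝ), (ENNReal.ofReal (Real.exp (-((d * β / x) * s))) +
        w1 s * ENNReal.ofReal (Real.exp (-(d * β)))) := by
        refine mul_le_mul' le_rfl (setLIntegral_mono ?_ h1)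
        exact (Measurable.add (by fun_prop) (measurable_w1.mul_const _))
    _ = (d : ℝ≥0∞) * (ENNReal.ofReal (1 / (d * β / x)) +
        (∫⁻ s in Ioi (0 : ℝ), w1 s) * ENNReal.ofReal (Real.exp (-(d * β)))) := by
        rw [lintegral_add_left (by fun_prop), lint_exp _ (by positivity),
          lintegral_mul_const _ measurable_w1]
    _ ≤ _ := by
        rw [mul_add]
        refine add_le_add ?_ ?_
        · rw [← ENNReal.ofReal_natCast, ← ENNReal.ofReal_mul hd'.le]
          refine ENNReal.ofReal_le_ofReal (le_of_eq ?_)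
          field_simp
        · have h3 : (∫⁻ s in Ioi (0 : ℝ), w1 s) ≤ 1 := by
            rw [← lintegral_w1]
            exact setLIntegral_le_lintegral _ _
          refine (mul_le_mul' le_rfl (mul_le_mul' h3 le_rfl)).trans ?_
          rw [one_mul, ← ENNReal.ofReal_natCast, ← ENNReal.ofReal_mul hd'.le]
          refine ENNReal.ofReal_le_ofReal ?_
          rw [Real.exp_neg, le_div_iff₀ hβ0]
          have h4 := Real.add_one_le_exp (d * β)
          have h5 := Real.exp_pos (d * β)
          rw [mul_assoc, mul_comm _ β, ← mul_assoc, ← div_eq_mul_inv, div_le_one h5]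
          linarith

theorem pow_lim (p : ℕ → ℝ≥0∞) (hp : ∀ d, p d ≤ 1) (c : ℝ≥0∞) (hc : c ≠ ∞)
    (h : Tendsto (fun d : ℕ => (d : ℝ≥0∞) * p d) atTop (𝓝 c)) :
    Tendsto (fun d : ℕ => (1 - p d) ^ d) atTop (𝓝 (ENNReal.ofReal (Real.exp (-c.toReal)))) := by
  have h1 : Tendsto (fun d : ℕ => (d : ℝ) * (-(p d).toReal)) atTop (𝓝 (-c.toReal)) := by
    have := (ENNReal.tendsto_toReal hc).comp h
    have h2 := this.neg
    refine h2.congr fun d => ?_
    simp
  have h2 := Real.tendsto_one_add_pow_exp_of_tendsto h1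
  have h3 := ENNReal.tendsto_ofReal h2
  refine h3.congr fun d => ?_
  have hp1 : (p d).toReal ≤ 1 := by
    have := (ENNReal.toReal_le_toReal ((hp d).trans_lt ENNReal.one_lt_top).ne
      ENNReal.one_ne_top).2 (hp d)
    simpa using this
  rw [ENNReal.ofReal_pow (by linarith), ← sub_eq_add_neg, ENNReal.ofReal_sub _
    ENNReal.toReal_nonneg, ENNReal.ofReal_one,
    ENNReal.ofReal_toReal ((hp d).trans_lt ENNReal.one_lt_top).ne]

theorem measurable_BB (m : ℝ → ℝ≥0∞) (hm : Measurable m) : Measurable (BB m) := by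
  unfold BB
  refine Measurable.const_mul ?_ _
  refine Measurable.lintegral_prod_right' (f := fun p : ℝ × ℝ => w1 p.2 * m (p.2 / p.1)) ?_
  exact (measurable_w1.comp measurable_snd).mul (hm.comp (measurable_snd.div measurable_fst))

/-- the limit -/
theorem L_lim (m : ℝ → ℝ≥0∞) (hm : Measurable m) (hm1 : ∀ r, m r ≤ 1) (x : ℝ) (hx : 0 < x)
    (hq : ∀ r, 0 ≤ r → qq (x * r) ≤ m r) (hfin : ∫⁻ r in Ioi (0 : ℝ), m r ≠ ∞) :
    Tendsto (fun d : ℕ => (d : ℝ≥0∞) * ∫⁻ s in Ioi (0 : ℝ), w1 s * (1 - BB m s) ^ d) atTop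
      (𝓝 (∫⁻ u in Ioi (0 : ℝ), ENNReal.ofReal (Real.exp (-(ENNReal.ofReal u *
        (2 * ∫⁻ r in Ioi (0 : ℝ), m r)).toReal)))) := by
  set κ := 2 * ∫⁻ r in Ioi (0 : ℝ), m r with hκ
  have hκt : κ ≠ ∞ := ENNReal.mul_ne_top (by simp) hfin
  set β := be.toReal with hβ
  have hβ0 : 0 < β := be_real_pos
  have hBm := measurable_BB m hm
  -- splitting
  have hsplit : ∀ d : ℕ, (d : ℝ≥0∞) * ∫⁻ s in Ioi (0 : ℝ), w1 s * (1 - BB m s) ^ d =
      (d : ℝ≥0∞) * (∫⁻ s in Ioi (0 : ℝ), (Iic x).indicator (fun s => w1 s * (1 - BB m s) ^ d) s) +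
      (d : ℝ≥0∞) * (∫⁻ s in Ioi (0 : ℝ), (Ioi x).indicator (fun s => w1 s * (1 - BB m s) ^ d) s) := by
    intro d
    rw [← mul_add, ← lintegral_add_left]
    · congr 1
      refine lintegral_congr fun s => ?_
      by_cases hs : s ≤ x
      · rw [indicator_of_mem (show s ∈ Iic x from hs), indicator_of_notMem (show s ∉ Ioi x from
          (by simpa using hs)), add_zero]
      · rw [indicator_of_notMem (show s ∉ Iic x from hs), indicator_of_mem (show s ∈ Ioi x from
          (by simpa using hs)), zero_add]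
    · exact (measurable_w1.mul ((measurable_const.sub hBm).pow_const _)).indicator measurableSet_Iic
  have h2 : Tendsto (fun d : ℕ => (d : ℝ≥0∞) *
      (∫⁻ s in Ioi (0 : ℝ), (Ioi x).indicator (fun s => w1 s * (1 - BB m s) ^ d) s)) atTop (𝓝 0) := by
    have hlt : 1 - be < 1 := ENNReal.sub_lt_self ENNReal.one_ne_top one_ne_zero be_pos.ne'
    refine tendsto_of_tendsto_of_tendsto_of_le_of_le tendsto_const_nhds (tendsto_mul_pow _ hlt)
      (fun d => zero_le) fun d => ?_
    refine mul_le_mul' le_rfl ?_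
    have : ∀ s ∈ Ioi (0 : ℝ), (Ioi x).indicator (fun s => w1 s * (1 - BB m s) ^ d) s ≤
        w1 s * (1 - be) ^ d := by
      intro s hs
      by_cases hs2 : s ∈ Ioi x
      · rw [indicator_of_mem hs2]
        refine mul_le_mul' le_rfl (pow_le_pow_left' (tsub_le_tsub_left ?_ _) d)
        have := BB_lower m hm x hx hq (show 0 < s from hs)
        rwa [min_eq_right ((one_le_div hx).2 (le_of_lt hs2)), ENNReal.ofReal_one, one_mul] at this
      · rw [indicator_of_notMem hs2]
        exact zero_le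
    refine (setLIntegral_mono (measurable_w1.mul_const _) this).trans ?_
    rw [lintegral_mul_const _ measurable_w1]
    have h3 : (∫⁻ s in Ioi (0 : ℝ), w1 s) ≤ 1 := by
      rw [← lintegral_w1]
      exact setLIntegral_le_lintegral _ _
    exact (mul_le_mul' h3 le_rfl).trans (one_mul _).le
  have h1 : Tendsto (fun d : ℕ => (d : ℝ≥0∞) *
      (∫⁻ s in Ioi (0 : ℝ), (Iic x).indicator (fun s => w1 s * (1 - BB m s) ^ d) s)) atTop
      (𝓝 (∫⁻ u in Ioi (0 : ℝ), ENNReal.ofReal (Real.exp (-(ENNReal.ofReal u * κ).toReal)))) := by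
    have e : ∀ᶠ d : ℕ in atTop, (∫⁻ u in Ioi (0 : ℝ),
        (Iic x).indicator (fun s => w1 s * (1 - BB m s) ^ d) (1 / (d : ℝ) * u)) =
        (d : ℝ≥0∞) *
      (∫⁻ s in Ioi (0 : ℝ), (Iic x).indicator (fun s => w1 s * (1 - BB m s) ^ d) s) := by
      filter_upwards [eventually_gt_atTop 0] with d hd
      have hd' : (0 : ℝ) < d := by exact_mod_cast hd
      have hms : Measurable (fun s => (Iic x).indicator (fun s => w1 s * (1 - BB m s) ^ d) s) :=
        (measurable_w1.mul ((measurable_const.sub hBm).pow_const _)).indicator measurableSet_Iic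
      rw [← lint_scale (1 / d) (by positivity) _ hms,
        ← mul_assoc, ← ENNReal.ofReal_natCast, ← ENNReal.ofReal_mul hd'.le,
        mul_one_div_cancel hd'.ne', ENNReal.ofReal_one, one_mul]
    refine Tendsto.congr' e ?_
    refine tendsto_lintegral_filter_of_dominated_convergence
      (fun u => ENNReal.ofReal (Real.exp (-(β / x * u)))) ?_ ?_ ?_ ?_
    · refine Eventually.of_forall fun d => ?_
      exact ((measurable_w1.mul ((measurable_const.sub hBm).pow_const _)).indicator
        measurableSet_Iic).comp (measurable_const_mul _)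
    · filter_upwards [eventually_gt_atTop 0] with d hd
      have hd' : (0 : ℝ) < d := by exact_mod_cast hd
      filter_upwards [ae_restrict_mem measurableSet_Ioi] with u hu
      have hu' : 0 < u := hu
      by_cases hs2 : 1 / (d : ℝ) * u ∈ Iic x
      · rw [indicator_of_mem hs2]
        have hs3 : 0 < 1 / (d : ℝ) * u := by positivity
        have h4 := pow_le_exp _ _ (by positivity) (BB_lower' m hm x hx hq hs3) d
        rw [min_eq_left ((div_le_one hx).2 hs2)] at h4
        refine (mul_le_mul' (w1_le_one _) h4).trans ?_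
        rw [one_mul]
        refine ENNReal.ofReal_le_ofReal (Real.exp_le_exp.2 (le_of_eq ?_))
        rw [← hβ]; field_simp
      · rw [indicator_of_notMem hs2]
        exact zero_le
    · rw [lint_exp _ (by positivity)]
      exact ENNReal.ofReal_ne_top
    · filter_upwards [ae_restrict_mem measurableSet_Ioi] with u hu
      have hu' : 0 < u := hu
      have hBl := BB_lim m hm hfin hu'
      have hpl := pow_lim (fun d => BB m (u / d)) (fun d => BB_le_one m hm1 _)
        (ENNReal.ofReal u * κ) (ENNReal.mul_ne_top (by simp) hκt) hBl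
      have hw : Tendsto (fun d : ℕ => w1 (u / d)) atTop (𝓝 1) := by
        rw [← w1_zero]
        exact (continuous_w1.tendsto 0).comp (tendsto_const_div_atTop_nhds_zero_nat u)
      have hprod := ENNReal.Tendsto.mul hw (Or.inl one_ne_zero) hpl (Or.inr ENNReal.one_ne_top)
      rw [one_mul] at hprod
      refine hprod.congr' ?_
      have ev : ∀ᶠ d : ℕ in atTop, u / d < x :=
        (tendsto_const_div_atTop_nhds_zero_nat u).eventually_lt_const hx
      filter_upwards [ev] with d hd
      have hd2 : 1 / (d : ℝ) * u = u / d := by ring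
      rw [hd2, indicator_of_mem (show u / (d : ℝ) ∈ Iic x from hd.le)]
  have := h1.add h2
  rw [add_zero] at this
  exact this.congr fun d => (hsplit d).symm

theorem L_pos (κ : ℝ≥0∞) :
    0 < ∫⁻ u in Ioi (0 : ℝ), ENNReal.ofReal (Real.exp (-(ENNReal.ofReal u * κ).toReal)) := by
  rw [setLIntegral_pos_iff]
  · have : Function.support (fun u : ℝ =>
        ENNReal.ofReal (Real.exp (-(ENNReal.ofReal u * κ).toReal))) = univ := by
      ext x
      simp [Real.exp_pos]
    rw [this, univ_inter]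
    simp
  · fun_prop

end Pool.Agent.V7H97.Cone
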