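import Pool.Agent.V7H97.ConeAs2

set_option autoImplicit false

open MeasureTheory ENNReal Matrix Set Filter Topology

namespace Pool.Agent.V7H97.Cone

theorem wv_cons {n : ℕ} (t : ℝ) (v : Fin n → ℝ) :
    wv (Fin.cons t v : Fin (n + 1) → ℝ) = w1 t * wv v := by
  unfold wv
  rw [Fin.prod_univ_succ]
  simp

theorem wv_pos {n : ℕ} (v : Fin n → ℝ) : 0 < wv v := by
  rw [wv_eq]
  exact ENNReal.ofReal_pos.2 (Real.exp_pos _)

/-- coordinates in the basis `b` -/
noncomputable def ell {n : ℕ} (b : Fin n → Fin n → ℝ) (v : Fin n → ℝ) : Fin n → ℝ :=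
  v ᵥ* (Matrix.of b)⁻¹

theorem ell_continuous {n : ℕ} (b : Fin n → Fin n → ℝ) : Continuous (ell b) := by
  unfold ell
  exact Continuous.matrix_vecMul continuous_id continuous_const

theorem ell_vecMul {n : ℕ} (b : Fin n → Fin n → ℝ) (hb : dt b ≠ 0) (v : Fin n → ℝ) :
    ell b v ᵥ* (Matrix.of b) = v := by
  unfold ell
  rw [Matrix.vecMul_vecMul, Matrix.nonsing_inv_mul _ (isUnit_iff_ne_zero.2 hb), Matrix.vecMul_one]

theorem ell_of_vecMul {n : ℕ} (b : Fin n → Fin n → ℝ) (hb : dt b ≠ 0) (c : Fin n → ℝ) :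
    ell b (c ᵥ* (Matrix.of b)) = c := by
  unfold ell
  rw [Matrix.vecMul_vecMul, Matrix.mul_nonsing_inv _ (isUnit_iff_ne_zero.2 hb), Matrix.vecMul_one]

theorem ell_add {n : ℕ} (b : Fin n → Fin n → ℝ) (u v : Fin n → ℝ) :
    ell b (u + v) = ell b u + ell b v := Matrix.add_vecMul _ _ _

theorem ell_smul {n : ℕ} (b : Fin n → Fin n → ℝ) (c : ℝ) (v : Fin n → ℝ) :
    ell b (c • v) = c • ell b v := Matrix.smul_vecMul _ _ _

/-- the matrix with rows `(s, w)` and `(0, b i)` -/
def bd {n : ℕ} (b : Fin n → Fin n → ℝ) (s : ℝ) (w : Fin n → ℝ) : Fin (n + 1) → Fin (n + 1) → ℝ :=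
  Fin.cons (Fin.cons s w) (fun i => Fin.cons 0 (b i))

theorem mem_pos_bd {n : ℕ} (b : Fin n → Fin n → ℝ) (hb : dt b ≠ 0) (s : ℝ) (hs : s ≠ 0)
    (w : Fin n → ℝ) (t : ℝ) (v : Fin n → ℝ) :
    (Fin.cons t v : Fin (n + 1) → ℝ) ∈ pos (bd b s w) ↔
      0 ≤ t / s ∧ ∀ i, t / s * ell b w i ≤ ell b v i := by
  have hsum : ∀ c : Fin (n + 1) → ℝ, ∑ i, c i • bd b s w i =
      Fin.cons (c 0 * s) (c 0 • w + (fun i => c (Fin.succ i)) ᵥ* (Matrix.of b)) := by
    intro c
    rw [Fin.sum_univ_succ]
    funext j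
    refine Fin.cases ?_ (fun j => ?_) j
    · simp [bd]
    · simp [bd, Matrix.vecMul, dotProduct]
  constructor
  · rintro ⟨c, hc, h⟩
    rw [hsum] at h
    have h0 : t = c 0 * s := by simpa using congrFun h 0
    have h1 : v = c 0 • w + (fun i => c (Fin.succ i)) ᵥ* (Matrix.of b) := by
      funext j
      simpa using congrFun h j.succ
    have h2 : t / s = c 0 := by rw [h0]; field_simp
    refine ⟨by rw [h2]; exact hc 0, fun i => ?_⟩
    rw [h2, h1, ell_add, ell_smul, ell_of_vecMul b hb]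
    simp only [Pi.add_apply, Pi.smul_apply, smul_eq_mul]
    linarith [hc i.succ]
  · rintro ⟨h0, h1⟩
    refine ⟨Fin.cons (t / s) (fun i => ell b v i - t / s * ell b w i), ?_, ?_⟩
    · intro i
      refine Fin.cases ?_ (fun j => ?_) i
      · simpa using h0
      · simpa using h1 j
    · rw [hsum]
      simp only [Fin.cons_zero, Fin.cons_succ]
      congr 1
      · field_simp
      · have : (fun i => ell b v i - t / s * ell b w i) = ell b v - (t / s) • ell b w := by
          funext i; simp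
        rw [this, Matrix.sub_vecMul, Matrix.smul_vecMul, ell_vecMul b hb, ell_vecMul b hb]
        simp

/-- the complement probability -/
noncomputable def mm {n : ℕ} (b : Fin n → Fin n → ℝ) (w : Fin n → ℝ) (r : ℝ) : ℝ≥0∞ :=
  ∫⁻ v : Fin n → ℝ, wv v * {v : Fin n → ℝ | ∃ i, ell b v i < r * ell b w i}.indicator 1 v

noncomputable def hh {n : ℕ} (b : Fin n → Fin n → ℝ) (w : Fin n → ℝ) (r : ℝ) : ℝ≥0∞ :=
  ∫⁻ v : Fin n → ℝ, wv v * {v : Fin n → ℝ | ∀ i, r * ell b w i ≤ ell b v i}.indicator 1 v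

theorem measurable_mm {n : ℕ} (b : Fin n → Fin n → ℝ) (w : Fin n → ℝ) : Measurable (mm b w) := by
  unfold mm
  refine Measurable.lintegral_prod_right' (f := fun p : ℝ × (Fin n → ℝ) =>
    wv p.2 * {v : Fin n → ℝ | ∃ i, ell b v i < p.1 * ell b w i}.indicator 1 p.2) ?_
  refine (measurable_wv.comp measurable_snd).mul ?_
  have : (fun p : ℝ × (Fin n → ℝ) => {v : Fin n → ℝ | ∃ i, ell b v i < p.1 * ell b w i}.indicator
      (1 : (Fin n → ℝ) → ℝ≥0∞) p.2) =
      (⋃ i, {p : ℝ × (Fin n → ℝ) | ell b p.2 i < p.1 * ell b w i}).indicator 1 := by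
    funext p
    by_cases h : ∃ i, ell b p.2 i < p.1 * ell b w i
    · rw [indicator_of_mem (show p.2 ∈ {v : Fin n → ℝ | ∃ i, ell b v i < p.1 * ell b w i} from h),
        indicator_of_mem (by simpa using h)]
      rfl
    · rw [indicator_of_notMem (show p.2 ∉ {v : Fin n → ℝ | ∃ i, ell b v i < p.1 * ell b w i} from h),
        indicator_of_notMem (by simpa using h)]
  rw [this]
  refine measurable_one.indicator (MeasurableSet.iUnion fun i => IsOpen.measurableSet ?_)
  refine isOpen_lt ?_ (by fun_prop)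
  exact (continuous_apply i).comp ((ell_continuous b).comp continuous_snd)

theorem measurable_ind_mm {n : ℕ} (b : Fin n → Fin n → ℝ) (w : Fin n → ℝ) (r : ℝ) :
    Measurable fun v : Fin n → ℝ => wv v *
      {v : Fin n → ℝ | ∃ i, ell b v i < r * ell b w i}.indicator (1 : (Fin n → ℝ) → ℝ≥0∞) v := by
  refine measurable_wv.mul (measurable_one.indicator ?_)
  have : {v : Fin n → ℝ | ∃ i, ell b v i < r * ell b w i} =
      ⋃ i, {v : Fin n → ℝ | ell b v i < r * ell b w i} := by
    ext v; simp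
  rw [this]
  refine MeasurableSet.iUnion fun i => IsOpen.measurableSet ?_
  exact isOpen_lt ((continuous_apply i).comp (ell_continuous b)) continuous_const

theorem hh_add_mm {n : ℕ} (b : Fin n → Fin n → ℝ) (w : Fin n → ℝ) (r : ℝ) :
    hh b w r + mm b w r = 1 := by
  unfold hh mm
  rw [← lintegral_add_right _ (measurable_ind_mm b w r), ← lintegral_wv (n := n)]
  refine lintegral_congr fun v => ?_
  by_cases h : ∃ i, ell b v i < r * ell b w i
  · rw [indicator_of_mem (show v ∈ {v : Fin n → ℝ | ∃ i, ell b v i < r * ell b w i} from h),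
      indicator_of_notMem]
    · simp
    · intro h'
      obtain ⟨i, hi⟩ := h
      exact absurd (h' i) (not_le.2 hi)
  · rw [indicator_of_notMem (show v ∉ {v : Fin n → ℝ | ∃ i, ell b v i < r * ell b w i} from h),
      indicator_of_mem]
    · simp
    · push Not at h
      exact h

theorem mm_le_one {n : ℕ} (b : Fin n → Fin n → ℝ) (w : Fin n → ℝ) (r : ℝ) : mm b w r ≤ 1 := by
  rw [← hh_add_mm b w r]
  exact le_add_self

theorem measurable_hh {n : ℕ} (b : Fin n → Fin n → ℝ) (w : Fin n → ℝ) : Measurable (hh b w) := by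
  have : hh b w = fun r => 1 - mm b w r := by
    funext r
    exact ENNReal.eq_sub_of_add_eq ((mm_le_one b w r).trans_lt ENNReal.one_lt_top).ne
      (hh_add_mm b w r)
  rw [this]
  exact measurable_const.sub (measurable_mm b w)

/-- solid angle of the special matrix -/
theorem al_bd {n : ℕ} (b : Fin n → Fin n → ℝ) (hb : dt b ≠ 0) (s : ℝ) (hs : s ≠ 0)
    (w : Fin n → ℝ) :
    al (bd b s w) = ∫⁻ t in Ioi (0 : ℝ), w1 t * hh b w (t / |s|) := by
  have h1 : al (bd b s w) = ∫⁻ t, {t | 0 ≤ t / s}.indicator (fun t => w1 t * hh b w (t / s)) t := by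
    unfold al
    rw [lintegral_cons _ (measurable_ind_pos' _)]
    refine lintegral_congr fun t => ?_
    by_cases ht : 0 ≤ t / s
    · rw [indicator_of_mem (show t ∈ {t | 0 ≤ t / s} from ht)]
      unfold hh
      rw [← lintegral_const_mul']
      · refine lintegral_congr fun v => ?_
        rw [wv_cons, mul_assoc]
        congr 2
        by_cases h : ∀ i, t / s * ell b w i ≤ ell b v i
        · rw [indicator_of_mem ((mem_pos_bd b hb s hs w t v).2 ⟨ht, h⟩),
            indicator_of_mem (show v ∈ {v | ∀ i, t / s * ell b w i ≤ ell b v i} from h)]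
          rfl
        · rw [indicator_of_notMem (fun h' => h ((mem_pos_bd b hb s hs w t v).1 h').2),
            indicator_of_notMem (show v ∉ {v | ∀ i, t / s * ell b w i ≤ ell b v i} from h)]
      · exact ((w1_le_one t).trans_lt ENNReal.one_lt_top).ne
    · rw [indicator_of_notMem (show t ∉ {t | 0 ≤ t / s} from ht)]
      rw [← lintegral_zero (μ := (volume : Measure (Fin n → ℝ)))]
      refine lintegral_congr fun v => ?_
      rw [indicator_of_notMem (fun h' => ht ((mem_pos_bd b hb s hs w t v).1 h').1), mul_zero]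
  rw [h1, lint_split]
  rcases lt_or_gt_of_ne hs with h | h
  · -- s < 0
    have e1 : ∫⁻ x in Ioi (0 : ℝ), {t | 0 ≤ t / s}.indicator (fun t => w1 t * hh b w (t / s)) x = 0 := by
      rw [← lintegral_zero (μ := (volume : Measure ℝ).restrict (Ioi 0))]
      refine setLIntegral_congr_fun measurableSet_Ioi fun x hx => ?_
      refine indicator_of_notMem ?_ _
      intro h'
      have h'' : 0 ≤ x / s := h'
      exact absurd h'' (not_le.2 (div_neg_of_pos_of_neg hx h))
    rw [e1, add_zero]
    refine setLIntegral_congr_fun measurableSet_Ioi fun x hx => ?_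
    have hx' : 0 < x := hx
    have e2 : -x / s = x / |s| := by
      rw [abs_of_neg h]; field_simp
    show {t | 0 ≤ t / s}.indicator (fun t => w1 t * hh b w (t / s)) (-x) = w1 x * hh b w (x / |s|)
    rw [indicator_of_mem, e2, w1_neg]
    show 0 ≤ -x / s
    rw [e2]; positivity
  · have e1 : ∫⁻ x in Ioi (0 : ℝ), {t | 0 ≤ t / s}.indicator
        (fun t => w1 t * hh b w (t / s)) (-x) = 0 := by
      rw [← lintegral_zero (μ := (volume : Measure ℝ).restrict (Ioi 0))]
      refine setLIntegral_congr_fun measurableSet_Ioi fun x hx => ?_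
      refine indicator_of_notMem ?_ _
      intro h'
      have h'' : 0 ≤ -x / s := h'
      have hx' : 0 < x := hx
      exact absurd h'' (not_le.2 (div_neg_of_neg_of_pos (by linarith) h))
    rw [e1, zero_add]
    refine setLIntegral_congr_fun measurableSet_Ioi fun x hx => ?_
    have hx' : 0 < x := hx
    show {t | 0 ≤ t / s}.indicator (fun t => w1 t * hh b w (t / s)) x = w1 x * hh b w (x / |s|)
    rw [indicator_of_mem, abs_of_pos h]
    show 0 ≤ x / s
    positivity

theorem two_al_bd {n : ℕ} (b : Fin n → Fin n → ℝ) (hb : dt b ≠ 0) (s : ℝ) (hs : s ≠ 0)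
    (w : Fin n → ℝ) : 2 * al (bd b s w) = 1 - BB (mm b w) |s| := by
  refine ENNReal.eq_sub_of_add_eq
    ((BB_le_one _ (mm_le_one b w) _).trans_lt ENNReal.one_lt_top).ne ?_
  rw [al_bd b hb s hs w]
  unfold BB
  have hme : Measurable fun t => w1 t * mm b w (t / |s|) :=
    measurable_w1.mul ((measurable_mm b w).comp (measurable_id.div_const _))
  rw [← mul_add, ← lintegral_add_right _ hme]
  simp only [← mul_add, hh_add_mm, mul_one]
  exact lint_w1_half

end Pool.Agent.V7H97.Cone
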