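import Pool.Agent.V7H97.ConeAs3

set_option autoImplicit false

open MeasureTheory ENNReal Matrix Set Filter Topology

namespace Pool.Agent.V7H97.Cone

/-- the fibre integral -/
noncomputable def fd {n : ℕ} (b : Fin n → Fin n → ℝ) (d : ℕ) (w : Fin n → ℝ) : ℝ≥0∞ :=
  ∫⁻ s : ℝ, w1 s * ((d : ℝ≥0∞) * (2 * al (bd b s w)) ^ d)

theorem fd_eq {n : ℕ} (b : Fin n → Fin n → ℝ) (hb : dt b ≠ 0) (d : ℕ) (w : Fin n → ℝ) :
    fd b d w = 2 * ((d : ℝ≥0∞) * ∫⁻ s in Ioi (0 : ℝ), w1 s * (1 - BB (mm b w) s) ^ d) := by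
  unfold fd
  rw [lint_split, two_mul]
  have hm : Measurable fun s => w1 s * (1 - BB (mm b w) s) ^ d :=
    measurable_w1.mul ((measurable_const.sub (measurable_BB _ (measurable_mm b w))).pow_const _)
  congr 1
  · rw [← lintegral_const_mul _ hm]
    refine setLIntegral_congr_fun measurableSet_Ioi fun x hx => ?_
    have hx' : 0 < x := hx
    show w1 (-x) * ((d : ℝ≥0∞) * (2 * al (bd b (-x) w)) ^ d) = _
    have hx0 : -x ≠ 0 := by
      intro h0
      linarith
    rw [two_al_bd b hb (-x) hx0 w, abs_neg, abs_of_pos hx', w1_neg]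
    ring
  · rw [← lintegral_const_mul _ hm]
    refine setLIntegral_congr_fun measurableSet_Ioi fun x hx => ?_
    have hx' : 0 < x := hx
    show w1 x * ((d : ℝ≥0∞) * (2 * al (bd b x w)) ^ d) = _
    rw [two_al_bd b hb x hx'.ne' w, abs_of_pos hx']
    ring

/-- the first marginal -/
theorem marg {n : ℕ} (f : ℝ → ℝ≥0∞) (hf : Measurable f) :
    ∫⁻ v : Fin (n + 1) → ℝ, wv v * f (v 0) = ∫⁻ t, w1 t * f t := by
  have hm : Measurable fun v : Fin (n + 1) → ℝ => wv v * f (v 0) :=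
    measurable_wv.mul (hf.comp (measurable_pi_apply 0))
  rw [lintegral_cons _ hm]
  refine lintegral_congr fun t => ?_
  simp only [wv_cons, Fin.cons_zero]
  have : ∀ v : Fin n → ℝ, w1 t * wv v * f t = (w1 t * f t) * wv v := fun v => by ring
  simp only [this]
  rw [lintegral_const_mul _ measurable_wv, lintegral_wv, mul_one]

theorem ell_zero {n : ℕ} (b : Fin (n + 1) → Fin (n + 1) → ℝ) (hb : dt b ≠ 0)
    (h0 : ∀ i : Fin n, b i.succ 0 = 0) (v : Fin (n + 1) → ℝ) : v 0 = ell b v 0 * b 0 0 := by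
  conv_lhs => rw [← ell_vecMul b hb v]
  simp [Matrix.vecMul, dotProduct, Fin.sum_univ_succ, h0]

theorem b00_ne {n : ℕ} (b : Fin (n + 1) → Fin (n + 1) → ℝ) (hb : dt b ≠ 0)
    (h0 : ∀ i : Fin n, b i.succ 0 = 0) : b 0 0 ≠ 0 := by
  intro h
  have := ell_zero b hb h0 (fun _ => 1)
  rw [h, mul_zero] at this
  exact one_ne_zero this

/-- lower bound of `mm` by the coordinate zero -/
theorem mm_lower0 {n : ℕ} (b : Fin (n + 1) → Fin (n + 1) → ℝ) (hb : dt b ≠ 0)
    (h0 : ∀ i : Fin n, b i.succ 0 = 0) (w : Fin (n + 1) → ℝ) (r : ℝ) :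
    ∫⁻ t, w1 t * {t | t / b 0 0 < r * (w 0 / b 0 0)}.indicator 1 t ≤ mm b w r := by
  have hmeas : MeasurableSet {t : ℝ | t / b 0 0 < r * (w 0 / b 0 0)} :=
    measurableSet_lt (by fun_prop) (by fun_prop)
  rw [← marg (n := n) _ (measurable_one.indicator hmeas)]
  unfold mm
  refine lintegral_mono fun v => mul_le_mul' le_rfl ?_
  by_cases h : v 0 / b 0 0 < r * (w 0 / b 0 0)
  · rw [indicator_of_mem (show v ∈ {v | ∃ i, ell b v i < r * ell b w i} from ?_)]
    · exact indicator_le_self' (fun _ _ => zero_le) _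
    · refine ⟨0, ?_⟩
      have hne := b00_ne b hb h0
      have h1 := ell_zero b hb h0 v
      have h2 := ell_zero b hb h0 w
      rw [h1, h2, mul_div_cancel_right₀ _ hne, mul_div_cancel_right₀ _ hne] at h
      exact h
  · rw [indicator_of_notMem (show v 0 ∉ {t | t / b 0 0 < r * (w 0 / b 0 0)} from h)]
    exact zero_le

theorem lint_ind (s : Set ℝ) (hs : MeasurableSet s) :
    ∫⁻ t, w1 t * s.indicator 1 t = ∫⁻ t in s, w1 t := by
  rw [← lintegral_indicator hs]
  refine lintegral_congr fun t => ?_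
  by_cases h : t ∈ s
  · rw [indicator_of_mem h, indicator_of_mem h, Pi.one_apply, mul_one]
  · rw [indicator_of_notMem h, indicator_of_notMem h, mul_zero]

theorem lint_Iio (y : ℝ) : ∫⁻ t in Iio y, w1 t = qq (-y) := by
  unfold qq
  rw [← lintegral_indicator measurableSet_Iio, ← lintegral_indicator measurableSet_Ioi,
    ← lintegral_neg_eq_self]
  refine lintegral_congr fun t => ?_
  by_cases h : -y < t
  · rw [indicator_of_mem (show t ∈ Ioi (-y) from h), indicator_of_mem (show -t ∈ Iio y from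
      (by simp only [mem_Iio]; linarith)), w1_neg]
  · rw [indicator_of_notMem (show t ∉ Ioi (-y) from h), indicator_of_notMem
      (show -t ∉ Iio y from (by simp only [mem_Iio]; linarith))]

theorem mm_ge_qq {n : ℕ} (b : Fin (n + 1) → Fin (n + 1) → ℝ) (hb : dt b ≠ 0)
    (h0 : ∀ i : Fin n, b i.succ 0 = 0) (w : Fin (n + 1) → ℝ) (hw : w 0 / b 0 0 < 0) (r : ℝ) :
    qq (|w 0| * r) ≤ mm b w r := by
  refine le_trans (le_of_eq ?_) (mm_lower0 b hb h0 w r)
  have hmeas : MeasurableSet {t : ℝ | t / b 0 0 < r * (w 0 / b 0 0)} :=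
    measurableSet_lt (by fun_prop) (by fun_prop)
  rw [lint_ind _ hmeas]
  rcases div_neg_iff.1 hw with ⟨h1, h2⟩ | ⟨h1, h2⟩
  · have : {t : ℝ | t / b 0 0 < r * (w 0 / b 0 0)} = Ioi (w 0 * r) := by
      ext t
      simp only [mem_ofPred_eq, mem_Ioi]
      rw [← mul_div_assoc, div_lt_div_right_of_neg h2, mul_comm]
    rw [this, abs_of_pos h1]
    rfl
  · have : {t : ℝ | t / b 0 0 < r * (w 0 / b 0 0)} = Iio (w 0 * r) := by
      ext t
      simp only [mem_ofPred_eq, mem_Iio]
      rw [← mul_div_assoc, div_lt_div_iff_of_pos_right h2, mul_comm]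
    rw [this, lint_Iio, abs_of_neg h1]
    congr 1
    ring

theorem mm_ge_half {n : ℕ} (b : Fin (n + 1) → Fin (n + 1) → ℝ) (hb : dt b ≠ 0)
    (h0 : ∀ i : Fin n, b i.succ 0 = 0) (w : Fin (n + 1) → ℝ) (hw : 0 ≤ w 0 / b 0 0) (r : ℝ)
    (hr : 0 ≤ r) : qq 0 ≤ mm b w r := by
  refine le_trans ?_ (mm_lower0 b hb h0 w r)
  have hmeas : MeasurableSet {t : ℝ | t / b 0 0 < r * (w 0 / b 0 0)} :=
    measurableSet_lt (by fun_prop) (by fun_prop)
  rw [lint_ind _ hmeas]
  rcases lt_or_gt_of_ne (b00_ne b hb h0) with h1 | h1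
  · unfold qq
    refine lintegral_mono_set fun t ht => ?_
    have ht' : 0 < t := ht
    exact (div_neg_of_pos_of_neg ht' h1).trans_le (by positivity)
  · have : qq 0 = ∫⁻ t in Iio (0 : ℝ), w1 t := by rw [lint_Iio, neg_zero]
    rw [this]
    refine lintegral_mono_set fun t ht => ?_
    have ht' : t < 0 := ht
    exact (div_neg_of_neg_of_pos ht' h1).trans_le (by positivity)

theorem two_qq0 : 2 * qq 0 = 1 := lint_w1_half

/-- if `δ ≤ m r` for `r ≥ 0` then the fibre integral is small -/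
theorem L_small (m : ℝ → ℝ≥0∞) (δ : ℝ≥0∞) (hδ : ∀ r, 0 ≤ r → δ ≤ m r) (d : ℕ) :
    (d : ℝ≥0∞) * ∫⁻ s in Ioi (0 : ℝ), w1 s * (1 - BB m s) ^ d ≤ (d : ℝ≥0∞) * (1 - δ) ^ d := by
  refine mul_le_mul' le_rfl ?_
  have h1 : ∀ s ∈ Ioi (0 : ℝ), w1 s * (1 - BB m s) ^ d ≤ w1 s * (1 - δ) ^ d := by
    intro s hs
    have hs' : 0 < s := hs
    refine mul_le_mul' le_rfl (pow_le_pow_left' (tsub_le_tsub_left ?_ _) d)
    unfold BB
    calc δ = 2 * ∫⁻ t in Ioi (0 : ℝ), w1 t * δ := by
          rw [lintegral_mul_const _ measurable_w1, ← mul_assoc, lint_w1_half, one_mul]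
      _ ≤ _ := by
          refine mul_le_mul' le_rfl (lintegral_mono_ae ?_)
          filter_upwards [ae_restrict_mem measurableSet_Ioi] with t ht
          have ht' : 0 < t := ht
          exact mul_le_mul' le_rfl (hδ _ (by positivity))
  refine (setLIntegral_mono (measurable_w1.mul_const _) h1).trans ?_
  rw [lintegral_mul_const _ measurable_w1]
  have h3 : (∫⁻ s in Ioi (0 : ℝ), w1 s) ≤ 1 := by
    rw [← lintegral_w1]
    exact setLIntegral_le_lintegral _ _
  exact (mul_le_mul' h3 le_rfl).trans (one_mul _).le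

theorem be_inv_ge_one : (1 : ℝ≥0∞) ≤ ENNReal.ofReal (1 / be.toReal) := by
  rw [← ENNReal.ofReal_one]
  refine ENNReal.ofReal_le_ofReal ?_
  rw [le_div_iff₀ be_real_pos, one_mul]
  have := (ENNReal.toReal_le_toReal be_ne_top ENNReal.one_ne_top).2 be_le_one
  simpa using this

theorem fd_bound {n : ℕ} (b : Fin (n + 1) → Fin (n + 1) → ℝ) (hb : dt b ≠ 0)
    (h0 : ∀ i : Fin n, b i.succ 0 = 0) (d : ℕ) (w : Fin (n + 1) → ℝ) :
    fd b d w ≤ 2 * (ENNReal.ofReal (|w 0| / be.toReal) + ENNReal.ofReal (1 / be.toReal)) := by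
  rw [fd_eq b hb d w]
  refine mul_le_mul' le_rfl ?_
  rcases lt_or_ge (w 0 / b 0 0) 0 with h | h
  · refine L_bound _ (measurable_mm b w) (|w 0|) ?_ (fun r _ => mm_ge_qq b hb h0 w h r) d
    refine abs_pos.2 fun h' => ?_
    rw [h', zero_div] at h
    exact lt_irrefl _ h
  · refine (L_small _ (qq 0) (fun r hr => mm_ge_half b hb h0 w h r hr) d).trans ?_
    have h2 : 1 - qq 0 = 2⁻¹ := by
      have : qq 0 = 2⁻¹ := ENNReal.eq_inv_of_mul_eq_one_left (by rw [mul_comm]; exact two_qq0)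
      rw [this, ENNReal.one_sub_inv_two]
    rw [h2]
    refine le_add_left (le_trans ?_ be_inv_ge_one)
    rw [← ENNReal.inv_pow, ← div_eq_mul_inv]
    refine ENNReal.div_le_of_le_mul ?_
    rw [one_mul]
    have : d ≤ 2 ^ d := Nat.lt_two_pow_self.le
    exact_mod_cast this

/-- a crude integrable majorant -/
theorem wv_mul_abs_le {n : ℕ} (v : Fin n → ℝ) (j : Fin n) :
    wv v * ENNReal.ofReal |v j| ≤ ∏ i, ENNReal.ofReal (Real.exp (-(Real.pi / 2 * v i ^ 2))) := by
  rw [wv, ← Finset.mul_prod_erase _ _ (Finset.mem_univ j),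
    ← Finset.mul_prod_erase (Finset.univ) (fun i => ENNReal.ofReal
      (Real.exp (-(Real.pi / 2 * v i ^ 2)))) (Finset.mem_univ j)]
  have h1 : w1 (v j) * ENNReal.ofReal |v j| ≤
      ENNReal.ofReal (Real.exp (-(Real.pi / 2 * v j ^ 2))) := by
    unfold w1
    rw [← ENNReal.ofReal_mul (Real.exp_pos _).le]
    refine ENNReal.ofReal_le_ofReal ?_
    have h2 : |v j| ≤ Real.exp (Real.pi / 2 * v j ^ 2) := by
      refine le_trans ?_ (Real.add_one_le_exp _)
      have h3 : 1 ≤ Real.pi / 2 := by linarith [Real.pi_gt_three]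
      have h4 : |v j| ^ 2 = v j ^ 2 := sq_abs _
      nlinarith [sq_nonneg (|v j| - 1), abs_nonneg (v j), sq_nonneg (v j)]
    calc Real.exp (-(Real.pi * v j ^ 2)) * |v j| ≤
          Real.exp (-(Real.pi * v j ^ 2)) * Real.exp (Real.pi / 2 * v j ^ 2) :=
          mul_le_mul_of_nonneg_left h2 (Real.exp_pos _).le
      _ = _ := by
          rw [← Real.exp_add]
          congr 1
          ring
  have h5 : ∏ i ∈ Finset.univ.erase j, w1 (v i) ≤
      ∏ i ∈ Finset.univ.erase j, ENNReal.ofReal (Real.exp (-(Real.pi / 2 * v i ^ 2))) := by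
    refine Finset.prod_le_prod' fun i _ => ?_
    unfold w1
    refine ENNReal.ofReal_le_ofReal (Real.exp_le_exp.2 ?_)
    have := mul_nonneg Real.pi_pos.le (sq_nonneg (v i))
    linarith
  calc w1 (v j) * (∏ i ∈ Finset.univ.erase j, w1 (v i)) * ENNReal.ofReal |v j| =
        (w1 (v j) * ENNReal.ofReal |v j|) * ∏ i ∈ Finset.univ.erase j, w1 (v i) := by ring
    _ ≤ _ := mul_le_mul' h1 h5

/-- the constant `(∫ exp (-π x²/2))^n` -/
noncomputable def KK (n : ℕ) : ℝ≥0∞ :=
  (∫⁻ x : ℝ, ENNReal.ofReal (Real.exp (-(Real.pi / 2 * x ^ 2)))) ^ n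

theorem KK_ne_top (n : ℕ) : KK n ≠ ∞ := by
  unfold KK
  refine ENNReal.pow_ne_top ?_
  have h := integrable_exp_neg_mul_sq (b := Real.pi / 2) (by positivity)
  have h2 := h.lintegral_lt_top
  simp only [neg_mul] at h2
  exact h2.ne

theorem first_moment {n : ℕ} (j : Fin n) :
    ∫⁻ v : Fin n → ℝ, wv v * ENNReal.ofReal |v j| ≤ KK n := by
  refine (lintegral_mono fun v => wv_mul_abs_le v j).trans (le_of_eq ?_)
  exact lintegral_pi_prod_pow (fun x : ℝ => ENNReal.ofReal (Real.exp (-(Real.pi / 2 * x ^ 2))))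
    (by fun_prop)

/-- the total bound -/
noncomputable def Kb (n : ℕ) : ℝ≥0∞ :=
  2 * (KK n * ENNReal.ofReal (1 / be.toReal) + ENNReal.ofReal (1 / be.toReal))

theorem Kb_ne_top (n : ℕ) : Kb n ≠ ∞ := by
  unfold Kb
  exact ENNReal.mul_ne_top (by simp) (ENNReal.add_ne_top.2
    ⟨ENNReal.mul_ne_top (KK_ne_top n) ENNReal.ofReal_ne_top, ENNReal.ofReal_ne_top⟩)

theorem bound_int (n : ℕ) :
    ∫⁻ w : Fin (n + 1) → ℝ, wv w * (2 * (ENNReal.ofReal (|w 0| / be.toReal) +
      ENNReal.ofReal (1 / be.toReal))) ≤ Kb (n + 1) := by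
  have e : ∀ w : Fin (n + 1) → ℝ, wv w * (2 * (ENNReal.ofReal (|w 0| / be.toReal) +
      ENNReal.ofReal (1 / be.toReal))) = 2 * ((wv w * ENNReal.ofReal |w 0|) *
        ENNReal.ofReal (1 / be.toReal) + wv w * ENNReal.ofReal (1 / be.toReal)) := by
    intro w
    have : ENNReal.ofReal (|w 0| / be.toReal) = ENNReal.ofReal |w 0| *
        ENNReal.ofReal (1 / be.toReal) := by
      rw [← ENNReal.ofReal_mul (abs_nonneg _)]
      congr 1
      ring
    rw [this]
    ring
  simp only [e]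
  have hm1 : Measurable fun w : Fin (n + 1) → ℝ => wv w * ENNReal.ofReal |w 0| :=
    measurable_wv.mul (by fun_prop)
  rw [lintegral_const_mul, lintegral_add_left (hm1.mul_const _), lintegral_mul_const _ hm1,
    lintegral_mul_const _ measurable_wv, lintegral_wv, one_mul]
  · unfold Kb
    gcongr
    exact first_moment 0
  · exact (hm1.mul_const _).add (measurable_wv.mul_const _)

/-- auxiliary integrand -/
noncomputable def gi {n : ℕ} (b : Fin n → Fin n → ℝ) (w : Fin n → ℝ) (i : Fin n) (r : ℝ)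
    (v : Fin n → ℝ) : ℝ≥0∞ :=
  wv v * {v : Fin n → ℝ | ell b v i < r * ell b w i}.indicator 1 v

theorem measurable_gi {n : ℕ} (b : Fin n → Fin n → ℝ) (w : Fin n → ℝ) (i : Fin n) :
    Measurable (Function.uncurry (gi b w i)) := by
  have : Function.uncurry (gi b w i) = fun p : ℝ × (Fin n → ℝ) => wv p.2 *
      ({p : ℝ × (Fin n → ℝ) | ell b p.2 i < p.1 * ell b w i}).indicator
        (1 : ℝ × (Fin n → ℝ) → ℝ≥0∞) p := by
    funext p
    rfl
  rw [this]
  refine (measurable_wv.comp measurable_snd).mul (measurable_one.indicator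
    (IsOpen.measurableSet ?_))
  refine isOpen_lt ?_ (by fun_prop)
  exact (continuous_apply i).comp ((ell_continuous b).comp continuous_snd)

theorem mm_le_sum {n : ℕ} (b : Fin n → Fin n → ℝ) (w : Fin n → ℝ) (r : ℝ) :
    mm b w r ≤ ∑ i, ∫⁻ v : Fin n → ℝ, gi b w i r v := by
  rw [← lintegral_finsetSum]
  · unfold mm gi
    refine lintegral_mono fun v => ?_
    rw [← Finset.mul_sum]
    refine mul_le_mul' le_rfl ?_
    by_cases h : ∃ i, ell b v i < r * ell b w i
    · obtain ⟨i, hi⟩ := h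
      rw [indicator_of_mem (show v ∈ {v : Fin n → ℝ | ∃ i, ell b v i < r * ell b w i} from ⟨i, hi⟩)]
      refine le_trans ?_ (Finset.single_le_sum (f := fun i =>
        ({v : Fin n → ℝ | ell b v i < r * ell b w i}).indicator (1 : (Fin n → ℝ) → ℝ≥0∞) v)
        (fun _ _ => zero_le) (Finset.mem_univ i))
      rw [indicator_of_mem (show v ∈ {v : Fin n → ℝ | ell b v i < r * ell b w i} from hi)]
    · rw [indicator_of_notMem (show v ∉ {v : Fin n → ℝ | ∃ i, ell b v i < r * ell b w i} from h)]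
      exact zero_le
  · intro i _
    exact (measurable_gi b w i).of_uncurry_left

theorem gi_fibre {n : ℕ} (b : Fin n → Fin n → ℝ) (w : Fin n → ℝ) (i : Fin n) (hi : ell b w i < 0)
    (v : Fin n → ℝ) :
    ∫⁻ r in Ioi (0 : ℝ), gi b w i r v ≤ ∑ j, (wv v * ENNReal.ofReal |v j|) *
      ENNReal.ofReal (|((Matrix.of b)⁻¹ : Matrix (Fin n) (Fin n) ℝ) j i| / |ell b w i|) := by
  have h3 : ∫⁻ r in Ioi (0 : ℝ), gi b w i r v ≤
      wv v * ENNReal.ofReal (ell b v i / ell b w i) := by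
    have h4 : ∀ r ∈ Ioi (0 : ℝ), gi b w i r v ≤
        wv v * (Ioo 0 (ell b v i / ell b w i)).indicator 1 r := by
      intro r hr
      unfold gi
      refine mul_le_mul' le_rfl ?_
      by_cases h5 : ell b v i < r * ell b w i
      · rw [indicator_of_mem (show r ∈ Ioo 0 (ell b v i / ell b w i) from ⟨hr, ?_⟩)]
        · exact indicator_le_self' (fun _ _ => zero_le) _
        · rwa [lt_div_iff_of_neg hi]
      · rw [indicator_of_notMem (show v ∉ {v : Fin n → ℝ | ell b v i < r * ell b w i} from h5)]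
        exact zero_le
    refine (setLIntegral_mono ((measurable_one.indicator measurableSet_Ioo).const_mul _) h4).trans ?_
    refine (setLIntegral_le_lintegral _ _).trans ?_
    rw [lintegral_const_mul _ (measurable_one.indicator measurableSet_Ioo),
      lintegral_indicator_one measurableSet_Ioo, Real.volume_Ioo, sub_zero]
  refine h3.trans ?_
  simp only [mul_assoc, ← Finset.mul_sum]
  refine mul_le_mul' le_rfl ?_
  simp only [← ENNReal.ofReal_mul (abs_nonneg _)]
  rw [← ENNReal.ofReal_sum_of_nonneg (fun _ _ => by positivity)]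
  refine ENNReal.ofReal_le_ofReal ?_
  calc ell b v i / ell b w i ≤ |ell b v i / ell b w i| := le_abs_self _
    _ = |ell b v i| / |ell b w i| := abs_div _ _
    _ ≤ (∑ j, |v j| * |((Matrix.of b)⁻¹ : Matrix (Fin n) (Fin n) ℝ) j i|) / |ell b w i| := by
        gcongr
        unfold ell Matrix.vecMul dotProduct
        refine (Finset.abs_sum_le_sum_abs _ _).trans (le_of_eq ?_)
        simp only [abs_mul]
    _ = _ := by
        rw [Finset.sum_div]
        refine Finset.sum_congr rfl fun j _ => ?_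
        ring

/-- finiteness of `κ` -/
theorem mm_int {n : ℕ} (b : Fin n → Fin n → ℝ) (w : Fin n → ℝ) (hw : ∀ i, ell b w i < 0) :
    ∫⁻ r in Ioi (0 : ℝ), mm b w r ≠ ∞ := by
  refine ne_top_of_le_ne_top ?_ (lintegral_mono fun r => mm_le_sum b w r)
  rw [lintegral_finsetSum]
  · refine (ENNReal.sum_lt_top.2 fun i _ => ?_).ne
    rw [lintegral_lintegral_swap (measurable_gi b w i).aemeasurable]
    refine (lintegral_mono fun v => gi_fibre b w i (hw i) v).trans_lt ?_
    have hmv : ∀ j : Fin n, Measurable fun v : Fin n → ℝ => wv v * ENNReal.ofReal |v j| :=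
      fun j => measurable_wv.mul (by fun_prop)
    rw [lintegral_finsetSum]
    · refine ENNReal.sum_lt_top.2 fun j _ => ?_
      rw [lintegral_mul_const _ (hmv j)]
      exact ENNReal.mul_lt_top ((first_moment j).trans_lt (lt_top_iff_ne_top.2 (KK_ne_top n)))
          ENNReal.ofReal_lt_top
    · intro j _
      exact (hmv j).mul_const _
  · intro i _
    exact Measurable.lintegral_prod_right' (measurable_gi b w i)

end Pool.Agent.V7H97.Cone
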