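import Pool.Agent.V7H97.ConeAs4

set_option autoImplicit false

open MeasureTheory ENNReal Matrix Set Filter Topology

namespace Pool.Agent.V7H97.Cone

/-- pointwise limit of the fibre integral, first case -/
theorem fd_lim1 {n : ℕ} (b : Fin (n + 1) → Fin (n + 1) → ℝ) (hb : dt b ≠ 0)
    (h0 : ∀ i : Fin n, b i.succ 0 = 0) (w : Fin (n + 1) → ℝ) (hw : ∀ i, ell b w i < 0) :
    ∃ c : ℝ≥0∞, 0 < c ∧ Tendsto (fun d => fd b d w) atTop (𝓝 c) := by
  have hne := b00_ne b hb h0
  have h1 : w 0 / b 0 0 < 0 := by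
    rw [ell_zero b hb h0 w, mul_div_cancel_right₀ _ hne]
    exact hw 0
  have h2 : 0 < |w 0| := by
    refine abs_pos.2 fun h' => ?_
    rw [h', zero_div] at h1
    exact lt_irrefl _ h1
  have h3 := L_lim (mm b w) (measurable_mm b w) (mm_le_one b w) (|w 0|) h2
    (fun r _ => mm_ge_qq b hb h0 w h1 r) (mm_int b w hw)
  have h4 := ENNReal.Tendsto.const_mul (a := 2) h3 (Or.inr (by simp))
  refine ⟨_, ?_, h4.congr fun d => (fd_eq b hb d w).symm⟩
  exact ENNReal.mul_pos two_ne_zero (L_pos _).ne'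

/-- pointwise limit of the fibre integral, second case -/
theorem fd_lim2 {n : ℕ} (b : Fin (n + 1) → Fin (n + 1) → ℝ) (hb : dt b ≠ 0)
    (w : Fin (n + 1) → ℝ) (hw : ∃ i, 0 ≤ ell b w i) :
    Tendsto (fun d => fd b d w) atTop (𝓝 0) := by
  obtain ⟨i, hi⟩ := hw
  set δ : ℝ≥0∞ := ∫⁻ v : Fin (n + 1) → ℝ, wv v * {v : Fin (n + 1) → ℝ | ell b v i < 0}.indicator 1 v
    with hδ
  have hop : IsOpen {v : Fin (n + 1) → ℝ | ell b v i < 0} :=
    isOpen_lt ((continuous_apply i).comp (ell_continuous b)) continuous_const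
  have hδ0 : 0 < δ := by
    have hmeas : Measurable fun v : Fin (n + 1) → ℝ => wv v *
        {v : Fin (n + 1) → ℝ | ell b v i < 0}.indicator (1 : (Fin (n + 1) → ℝ) → ℝ≥0∞) v :=
      measurable_wv.mul (measurable_one.indicator hop.measurableSet)
    rw [hδ, lintegral_pos_iff_support hmeas]
    have : Function.support (fun v : Fin (n + 1) → ℝ => wv v *
        {v : Fin (n + 1) → ℝ | ell b v i < 0}.indicator (1 : (Fin (n + 1) → ℝ) → ℝ≥0∞) v) =
        {v : Fin (n + 1) → ℝ | ell b v i < 0} := by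
      ext v
      simp only [Function.mem_support, ne_eq, mul_eq_zero, (wv_pos v).ne', false_or,
        indicator_apply_eq_zero, Pi.one_apply, one_ne_zero, imp_false, not_not]
    rw [this]
    refine hop.measure_pos _ ⟨(fun _ => -1) ᵥ* (Matrix.of b), ?_⟩
    show ell b _ i < 0
    rw [ell_of_vecMul b hb]
    norm_num
  have hlt : 1 - δ < 1 := ENNReal.sub_lt_self ENNReal.one_ne_top one_ne_zero hδ0.ne'
  have h1 : ∀ r, 0 ≤ r → δ ≤ mm b w r := by
    intro r hr
    unfold mm
    rw [hδ]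
    refine lintegral_mono fun v => mul_le_mul' le_rfl ?_
    by_cases h : ell b v i < 0
    · rw [indicator_of_mem (show v ∈ {v | ∃ i, ell b v i < r * ell b w i} from
        ⟨i, h.trans_le (by positivity)⟩)]
      exact indicator_le_self' (fun _ _ => zero_le) _
    · rw [indicator_of_notMem (show v ∉ {v | ell b v i < 0} from h)]
      exact zero_le
  have h2 : Tendsto (fun d : ℕ => 2 * ((d : ℝ≥0∞) * (1 - δ) ^ d)) atTop (𝓝 0) := by
    have := ENNReal.Tendsto.const_mul (a := 2) (tendsto_mul_pow _ hlt) (Or.inr (by simp))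
    rwa [mul_zero] at this
  refine tendsto_of_tendsto_of_tendsto_of_le_of_le tendsto_const_nhds h2 (fun d => zero_le)
    fun d => ?_
  show fd b d w ≤ 2 * ((d : ℝ≥0∞) * (1 - δ) ^ d)
  rw [fd_eq b hb d w]
  exact mul_le_mul' le_rfl (L_small _ δ h1 d)

theorem measurable_bd {n : ℕ} (b : Fin n → Fin n → ℝ) :
    Measurable fun p : ℝ × (Fin n → ℝ) => bd b p.1 p.2 := by
  refine measurable_pi_lambda _ fun i => measurable_pi_lambda _ fun j => ?_
  refine Fin.cases ?_ (fun i => ?_) i
  · refine Fin.cases ?_ (fun j => ?_) j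
    · simpa [bd] using measurable_fst
    · simp only [bd, Fin.cons_zero, Fin.cons_succ]
      exact (measurable_pi_apply j).comp measurable_snd
  · simp only [bd, Fin.cons_succ]
    exact measurable_const

theorem measurable_fd_int {n : ℕ} (b : Fin n → Fin n → ℝ) (d : ℕ) :
    Measurable fun p : (Fin n → ℝ) × ℝ => w1 p.2 * ((d : ℝ≥0∞) * (2 * al (bd b p.2 p.1)) ^ d) := by
  have h : Measurable fun p : (Fin n → ℝ) × ℝ => bd b p.2 p.1 :=
    (measurable_bd b).comp measurable_swap
  exact (measurable_w1.comp measurable_snd).mul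
    ((((measurable_al.comp h).const_mul 2).pow_const d).const_mul _)

theorem measurable_fd {n : ℕ} (b : Fin n → Fin n → ℝ) (d : ℕ) : Measurable (fd b d) :=
  Measurable.lintegral_prod_right' (measurable_fd_int b d)

/-- the integral over the first row -/
noncomputable def Id {n : ℕ} (d : ℕ) (Y : Fin n → Fin (n + 1) → ℝ) : ℝ≥0∞ :=
  ∫⁻ y : Fin (n + 1) → ℝ, wv y * ((d : ℝ≥0∞) * (2 * al (Fin.cons y Y)) ^ d)

theorem measurable_cons {n m : ℕ} : Measurable fun p : (Fin n → Fin m → ℝ) × (Fin m → ℝ) =>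
    (Fin.cons p.2 p.1 : Fin (n + 1) → Fin m → ℝ) := by
  refine measurable_pi_lambda _ fun i => ?_
  refine Fin.cases ?_ (fun i => ?_) i
  · simpa using measurable_snd
  · simp only [Fin.cons_succ]
    exact (measurable_pi_apply i).comp measurable_fst

theorem measurable_Id_int {n : ℕ} (d : ℕ) : Measurable
    fun p : (Fin n → Fin (n + 1) → ℝ) × (Fin (n + 1) → ℝ) =>
      wv p.2 * ((d : ℝ≥0∞) * (2 * al (Fin.cons p.2 p.1)) ^ d) :=
  (measurable_wv.comp measurable_snd).mul
    ((((measurable_al.comp measurable_cons).const_mul 2).pow_const d).const_mul _)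

theorem measurable_Id_fix {n : ℕ} (d : ℕ) (Y : Fin n → Fin (n + 1) → ℝ) : Measurable
    fun y : Fin (n + 1) → ℝ => wv y * ((d : ℝ≥0∞) * (2 * al (Fin.cons y Y)) ^ d) :=
  Measurable.of_uncurry_left (f := fun (Y : Fin n → Fin (n + 1) → ℝ) (y : Fin (n + 1) → ℝ) =>
    wv y * ((d : ℝ≥0∞) * (2 * al (Fin.cons y Y)) ^ d)) (measurable_Id_int d)

theorem measurable_Id {n : ℕ} (d : ℕ) : Measurable (Id (n := n) d) :=
  Measurable.lintegral_prod_right' (measurable_Id_int d)

theorem Id_special {n : ℕ} (b : Fin n → Fin n → ℝ) (d : ℕ) :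
    Id d (fun i => (Fin.cons 0 (b i) : Fin (n + 1) → ℝ)) =
      ∫⁻ w : Fin n → ℝ, wv w * fd b d w := by
  unfold Id
  have hm : Measurable fun y : Fin (n + 1) → ℝ => wv y * ((d : ℝ≥0∞) *
      (2 * al (Fin.cons y (fun i => (Fin.cons 0 (b i) : Fin (n + 1) → ℝ)))) ^ d) :=
    measurable_Id_fix d _
  rw [lintegral_cons _ hm, lintegral_lintegral_swap]
  · refine lintegral_congr fun w => ?_
    unfold fd
    have hm2 : Measurable fun s : ℝ => w1 s * ((d : ℝ≥0∞) * (2 * al (bd b s w)) ^ d) :=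
      Measurable.of_uncurry_left (f := fun (w : Fin n → ℝ) (s : ℝ) =>
        w1 s * ((d : ℝ≥0∞) * (2 * al (bd b s w)) ^ d)) (measurable_fd_int b d)
    rw [← lintegral_const_mul _ hm2]
    refine lintegral_congr fun s => ?_
    rw [wv_cons]
    unfold bd
    ring
  · have h : Measurable fun p : ℝ × (Fin n → ℝ) => (Fin.cons p.1 p.2 : Fin (n + 1) → ℝ) := by
      refine measurable_pi_lambda _ fun i => ?_
      refine Fin.cases ?_ (fun i => ?_) i
      · simpa using measurable_fst
      · simp only [Fin.cons_succ]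
        exact (measurable_pi_apply i).comp measurable_snd
    exact (hm.comp h).aemeasurable

/-- Step A in the special position -/
theorem stepA_special {n : ℕ} (b : Fin (n + 1) → Fin (n + 1) → ℝ) (hb : dt b ≠ 0)
    (h0 : ∀ i : Fin n, b i.succ 0 = 0) :
    (∃ c : ℝ≥0∞, 0 < c ∧ Tendsto (fun d : ℕ => ∫⁻ w : Fin (n + 1) → ℝ, wv w * fd b d w) atTop (𝓝 c)) ∧
    ∀ d, ∫⁻ w : Fin (n + 1) → ℝ, wv w * fd b d w ≤ Kb (n + 1) := by
  constructor
  · have hlim : ∀ w, ∃ c : ℝ≥0∞, Tendsto (fun d => fd b d w) atTop (𝓝 c) ∧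
        ((∀ i, ell b w i < 0) → 0 < c) := by
      intro w
      by_cases hw : ∀ i, ell b w i < 0
      · obtain ⟨c, hc, h⟩ := fd_lim1 b hb h0 w hw
        exact ⟨c, h, fun _ => hc⟩
      · refine ⟨0, fd_lim2 b hb w ?_, fun h => absurd h hw⟩
        push Not at hw
        exact hw
    choose g hg hg0 using hlim
    have hgm : Measurable g := by
      refine measurable_of_tendsto_metrizable (f := fun d w => fd b d w)
        (fun d => measurable_fd b d) ?_
      exact tendsto_pi_nhds.2 hg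
    refine ⟨∫⁻ w, wv w * g w, ?_, ?_⟩
    · have hwg : Measurable fun w => wv w * g w := measurable_wv.mul hgm
      rw [lintegral_pos_iff_support hwg]
      have hsub : {w : Fin (n + 1) → ℝ | ∀ i, ell b w i < 0} ⊆
          Function.support (fun w => wv w * g w) := by
        intro w hw
        simp only [Function.mem_support, ne_eq, mul_eq_zero, (wv_pos w).ne', false_or]
        exact (hg0 w hw).ne'
      refine lt_of_lt_of_le ?_ (measure_mono hsub)
      have hop : IsOpen {w : Fin (n + 1) → ℝ | ∀ i, ell b w i < 0} := by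
        have : {w : Fin (n + 1) → ℝ | ∀ i, ell b w i < 0} =
            ⋂ i, {w : Fin (n + 1) → ℝ | ell b w i < 0} := by
          ext w; simp
        rw [this]
        exact isOpen_iInter_of_finite fun i =>
          isOpen_lt ((continuous_apply i).comp (ell_continuous b)) continuous_const
      refine hop.measure_pos _ ⟨(fun _ => -1) ᵥ* (Matrix.of b), fun i => ?_⟩
      rw [ell_of_vecMul b hb]
      norm_num
    · refine tendsto_lintegral_of_dominated_convergence
        (fun w => wv w * (2 * (ENNReal.ofReal (|w 0| / be.toReal) +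
          ENNReal.ofReal (1 / be.toReal)))) ?_ ?_ ?_ ?_
      · exact fun d => measurable_wv.mul (measurable_fd b d)
      · exact fun d => Eventually.of_forall fun w => mul_le_mul' le_rfl (fd_bound b hb h0 d w)
      · exact ne_top_of_le_ne_top (Kb_ne_top _) (bound_int n)
      · refine Eventually.of_forall fun w => ?_
        refine ENNReal.Tendsto.const_mul (hg w) (Or.inr ?_)
        rw [wv_eq]
        exact ENNReal.ofReal_ne_top
  · intro d
    refine (lintegral_mono fun w => mul_le_mul' le_rfl (fd_bound b hb h0 d w)).trans (bound_int n)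

/-- rotation invariance of `Id` -/
theorem Id_rot {n : ℕ} (d : ℕ) (O : Matrix (Fin (n + 1)) (Fin (n + 1)) ℝ) (hO : O * Oᵀ = 1)
    (Y : Fin n → Fin (n + 1) → ℝ) : Id d (fun i => Y i ᵥ* O) = Id d Y := by
  unfold Id
  have hm : Measurable fun y : Fin (n + 1) → ℝ => wv y * ((d : ℝ≥0∞) *
      (2 * al (Fin.cons y (fun i => Y i ᵥ* O))) ^ d) :=
    measurable_Id_fix d _
  rw [← lintegral_rot O hO _ hm]
  refine lintegral_congr fun y => ?_
  rw [wv_rot O hO]
  have : (Fin.cons (y ᵥ* O) (fun i => Y i ᵥ* O) : Fin (n + 1) → Fin (n + 1) → ℝ) =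
      fun i => (Fin.cons y Y : Fin (n + 1) → Fin (n + 1) → ℝ) i ᵥ* O := by
    funext i
    refine Fin.cases ?_ (fun i => ?_) i <;> simp
  rw [this, al_rot O hO]

theorem det_cons_special {n : ℕ} (b : Fin n → Fin n → ℝ) (z : Fin (n + 1) → ℝ) :
    dt (Fin.cons z (fun i => (Fin.cons 0 (b i) : Fin (n + 1) → ℝ))) = z 0 * dt b := by
  unfold dt
  rw [Matrix.det_succ_column_zero, Fin.sum_univ_succ]
  simp only [Matrix.of_apply, Fin.cons_zero, Fin.cons_succ, mul_zero, zero_mul,
    Finset.sum_const_zero, add_zero, Fin.val_zero, pow_zero, one_mul]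
  congr 2

/-- Step A -/
theorem stepA {n : ℕ} (Y : Fin (n + 1) → Fin (n + 2) → ℝ)
    (hY : ∃ y : Fin (n + 2) → ℝ, dt (Fin.cons y Y) ≠ 0) :
    (∃ c : ℝ≥0∞, 0 < c ∧ Tendsto (fun d : ℕ => Id d Y) atTop (𝓝 c)) ∧
    ∀ d, Id d Y ≤ Kb (n + 1) := by
  obtain ⟨O, hO, htri⟩ := exists_tri Y
  set b : Fin (n + 1) → Fin (n + 1) → ℝ := fun i j => (Y i ᵥ* O) j.succ with hbdef
  have hYO : (fun i => Y i ᵥ* O) = fun i => (Fin.cons 0 (b i) : Fin (n + 2) → ℝ) := by
    funext i j
    refine Fin.cases ?_ (fun j => ?_) j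
    · rw [htri i 0 (Fin.succ_pos i)]
      simp
    · simp [hbdef]
  have hb : dt b ≠ 0 := by
    obtain ⟨y, hy⟩ := hY
    intro h
    apply hy
    have h1 : dt (fun i => (Fin.cons y Y : Fin (n + 2) → Fin (n + 2) → ℝ) i ᵥ* O) =
        dt (Fin.cons y Y) * O.det := by
      unfold dt
      rw [← Matrix.det_mul]
      congr 1
    have h2 : (fun i => (Fin.cons y Y : Fin (n + 2) → Fin (n + 2) → ℝ) i ᵥ* O) =
        Fin.cons (y ᵥ* O) (fun i => (Fin.cons 0 (b i) : Fin (n + 2) → ℝ)) := by
      rw [← hYO]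
      funext i
      refine Fin.cases ?_ (fun i => ?_) i <;> simp
    rw [h2, det_cons_special, h, mul_zero] at h1
    have h3 : O.det ≠ 0 := by
      intro h'
      have := abs_det_rot O hO
      rw [h'] at this
      simp at this
    exact (mul_eq_zero.1 h1.symm).resolve_right h3
  have h0 : ∀ i : Fin n, b i.succ 0 = 0 := by
    intro i
    refine htri i.succ _ ?_
    rw [Fin.succ_lt_succ_iff]
    exact Fin.succ_pos i
  have key : ∀ d, Id d Y = ∫⁻ w : Fin (n + 1) → ℝ, wv w * fd b d w := by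
    intro d
    rw [← Id_rot d O hO Y, hYO, Id_special]
  obtain ⟨⟨c, hc, hl⟩, hbnd⟩ := stepA_special b hb h0
  refine ⟨⟨c, hc, hl.congr fun d => (key d).symm⟩, fun d => ?_⟩
  rw [key d]
  exact hbnd d

/-- almost every family is in general position -/
theorem ae_gen (n : ℕ) : ∀ᵐ Y : Fin n → Fin (n + 1) → ℝ,
    ∃ y : Fin (n + 1) → ℝ, dt (Fin.cons y Y) ≠ 0 := by
  have h := det_null (n + 1)
  have hmeas : MeasurableSet {G : Fin (n + 1) → Fin (n + 1) → ℝ | dt G = 0} :=
    measurableSet_eq_fun measurable_dt measurable_const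
  rw [← lintegral_indicator_one hmeas, lintegral_cons _ (measurable_one.indicator hmeas)] at h
  have hm : Measurable fun p : (Fin (n + 1) → ℝ) × (Fin n → Fin (n + 1) → ℝ) =>
      {G : Fin (n + 1) → Fin (n + 1) → ℝ | dt G = 0}.indicator
      (1 : (Fin (n + 1) → Fin (n + 1) → ℝ) → ℝ≥0∞) (Fin.cons p.1 p.2) :=
    (measurable_one.indicator hmeas).comp (measurable_cons.comp measurable_swap)
  rw [lintegral_lintegral_swap hm.aemeasurable, lintegral_eq_zero_iff] at h
  · filter_upwards [h] with Y hY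
    by_contra hc
    push Not at hc
    simp only [Pi.zero_apply] at hY
    have : ∀ y : Fin (n + 1) → ℝ, {G : Fin (n + 1) → Fin (n + 1) → ℝ | dt G = 0}.indicator
      (1 : (Fin (n + 1) → Fin (n + 1) → ℝ) → ℝ≥0∞) (Fin.cons y Y) = 1 := by
      intro y
      rw [indicator_of_mem (show (Fin.cons y Y) ∈ {G : Fin (n + 1) → Fin (n + 1) → ℝ | dt G = 0}
        from hc y)]
      rfl
    simp only [this] at hY
    simp at hY
  · exact Measurable.lintegral_prod_left' hm

/-- Step B : the limit of `d 2^d E[α_k^d]`, `k = n + 2` -/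
theorem stepB (n : ℕ) : ∃ c : ℝ≥0∞, 0 < c ∧ c ≠ ∞ ∧
    Tendsto (fun d : ℕ => (d : ℝ≥0∞) * (2 ^ d * Q (n + 2) d)) atTop (𝓝 c) := by
  have key : ∀ d : ℕ, (d : ℝ≥0∞) * (2 ^ d * Q (n + 2) d) =
      ∫⁻ Y : Fin (n + 1) → Fin (n + 2) → ℝ, wm Y * Id d Y := by
    intro d
    rw [Q_eq_al]
    have hm : Measurable fun G : Fin (n + 2) → Fin (n + 2) → ℝ => wm G * al G ^ d :=
      measurable_wm.mul (measurable_al.pow_const d)
    rw [← lintegral_const_mul _ hm, ← lintegral_const_mul _ (hm.const_mul _),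
      lintegral_cons _ ((hm.const_mul _).const_mul _), lintegral_lintegral_swap]
    · refine lintegral_congr fun Y => ?_
      unfold Id
      have hm2 : Measurable fun y : Fin (n + 2) → ℝ => wv y * ((d : ℝ≥0∞) *
          (2 * al (Fin.cons y Y)) ^ d) := measurable_Id_fix d Y
      rw [← lintegral_const_mul _ hm2]
      refine lintegral_congr fun y => ?_
      have : wm (Fin.cons y Y : Fin (n + 2) → Fin (n + 2) → ℝ) = wv y * wm Y := by
        unfold wm
        rw [Fin.prod_univ_succ]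
        simp
      rw [this, mul_pow]
      ring
    · exact (((hm.const_mul _).const_mul _).comp (measurable_cons.comp measurable_swap)).aemeasurable
  have hlim : ∀ Y : Fin (n + 1) → Fin (n + 2) → ℝ, ∃ c : ℝ≥0∞,
      (∃ y : Fin (n + 2) → ℝ, dt (Fin.cons y Y) ≠ 0) →
        0 < c ∧ Tendsto (fun d : ℕ => Id d Y) atTop (𝓝 c) := by
    intro Y
    by_cases hY : ∃ y : Fin (n + 2) → ℝ, dt (Fin.cons y Y) ≠ 0
    · obtain ⟨⟨c, hc⟩, -⟩ := stepA Y hY
      exact ⟨c, fun _ => hc⟩
    · exact ⟨0, fun h => absurd h hY⟩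
  choose g hg using hlim
  have hgm : AEMeasurable g := by
    refine aemeasurable_of_tendsto_metrizable_ae (f := fun d Y => Id d Y) atTop
      (fun d => (measurable_Id d).aemeasurable) ?_
    filter_upwards [ae_gen (n + 1)] with Y hY
    exact (hg Y hY).2
  have hT : Tendsto (fun d : ℕ => (d : ℝ≥0∞) * (2 ^ d * Q (n + 2) d)) atTop
      (𝓝 (∫⁻ Y, wm Y * g Y)) := by
    simp only [key]
    refine tendsto_lintegral_of_dominated_convergence (fun Y => wm Y * Kb (n + 1)) ?_ ?_ ?_ ?_
    · exact fun d => measurable_wm.mul (measurable_Id d)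
    · intro d
      filter_upwards [ae_gen (n + 1)] with Y hY
      exact mul_le_mul' le_rfl ((stepA Y hY).2 d)
    · rw [lintegral_mul_const _ measurable_wm, lintegral_wm, one_mul]
      exact Kb_ne_top _
    · filter_upwards [ae_gen (n + 1)] with Y hY
      refine ENNReal.Tendsto.const_mul (hg Y hY).2 (Or.inr ?_)
      rw [wm_eq]
      exact ENNReal.ofReal_ne_top
  refine ⟨_, ?_, ?_, hT⟩
  · rw [pos_iff_ne_zero]
    intro h
    have hwg : AEMeasurable (fun Y => wm Y * g Y) := measurable_wm.aemeasurable.mul hgm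
    rw [lintegral_eq_zero_iff' hwg] at h
    have hf : ∀ᵐ Y : Fin (n + 1) → Fin (n + 2) → ℝ, False := by
      filter_upwards [h, ae_gen (n + 1)] with Y hY hY2
      have h1 := (hg Y hY2).1
      have h2 : wm Y ≠ 0 := by
        rw [wm_eq]
        exact (ENNReal.ofReal_pos.2 (Real.exp_pos _)).ne'
      simp only [Pi.zero_apply, mul_eq_zero] at hY
      rcases hY with hY | hY
      · exact h2 hY
      · exact h1.ne' hY
    rw [ae_iff] at hf
    simp at hf
  · refine ne_top_of_le_ne_top (Kb_ne_top (n + 1)) (le_of_tendsto' hT fun d => ?_)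
    rw [key d]
    calc ∫⁻ Y : Fin (n + 1) → Fin (n + 2) → ℝ, wm Y * Id d Y ≤
          ∫⁻ Y : Fin (n + 1) → Fin (n + 2) → ℝ, wm Y * Kb (n + 1) := by
          refine lintegral_mono_ae ?_
          filter_upwards [ae_gen (n + 1)] with Y hY
          exact mul_le_mul' le_rfl ((stepA Y hY).2 d)
      _ = Kb (n + 1) := by
          rw [lintegral_mul_const _ measurable_wm, lintegral_wm, one_mul]

end Pool.Agent.V7H97.Cone
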