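import Pool.Agent.V7H97.ConeAs5

set_option autoImplicit false

open MeasureTheory ENNReal Matrix Set Filter Topology

namespace Pool.Agent.V7H97.Cone

/-- Euclidean space -/
abbrev EE (d : ℕ) := EuclideanSpace ℝ (Fin d)

/-- the uniform distribution on the unit sphere of `ℝ^d` -/
noncomputable def sigma (d : ℕ) : Measure (Metric.sphere (0 : EE d) 1) :=
  ((volume : Measure (EE d)).toSphere univ)⁻¹ • (volume : Measure (EE d)).toSphere

/-- the solid angle of a set -/
noncomputable def solidAngle {d : ℕ} (C : Set (EE d)) : ℝ :=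
  (sigma d).real {u | (u : EE d) ∈ C}

/-- the solid angle of the positive hull of `d` points of the sphere -/
noncomputable def alpha {d : ℕ} (u : Fin d → Metric.sphere (0 : EE d) 1) : ℝ :=
  solidAngle (pos fun i => (u i : EE d))

theorem toSphere_univ_ne_zero {d : ℕ} (hd : 0 < d) :
    (volume : Measure (EE d)).toSphere univ ≠ 0 := by
  intro h
  have h1 := Measure.measure_univ_eq_zero.1 h
  rw [Measure.toSphere_eq_zero_iff_finrank] at h1
  simp at h1
  omega

instance sigma_prob {d : ℕ} [NeZero d] : IsProbabilityMeasure (sigma d) := by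
  constructor
  unfold sigma
  rw [Measure.smul_apply, smul_eq_mul, ENNReal.inv_mul_cancel
    (toSphere_univ_ne_zero (Nat.pos_of_ne_zero (NeZero.ne d))) (measure_ne_top _ _)]

/-- polar coordinates for a homogeneous function -/
theorem polar {d : ℕ} (hd : 0 < d) (F : EE d → ℝ≥0∞) (hF : Measurable F)
    (hom : ∀ (r : ℝ) (x : EE d), 0 < r → F (r • x) = F x) :
    ∫⁻ x : EE d, ENNReal.ofReal (Real.exp (-(Real.pi * ‖x‖ ^ 2))) * F x =
      (∫⁻ r : Ioi (0 : ℝ), ENNReal.ofReal (Real.exp (-(Real.pi * (r : ℝ) ^ 2)))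
        ∂(Measure.volumeIoiPow (Module.finrank ℝ (EE d) - 1))) *
        ∫⁻ u : Metric.sphere (0 : EE d) 1, F u ∂(volume : Measure (EE d)).toSphere := by
  have : Nonempty (Fin d) := ⟨⟨0, hd⟩⟩
  have : Nontrivial (EE d) := by
    have : NeZero d := ⟨hd.ne'⟩
    infer_instance
  have h1 : ∫⁻ x : EE d, ENNReal.ofReal (Real.exp (-(Real.pi * ‖x‖ ^ 2))) * F x =
      ∫⁻ x : ({0}ᶜ : Set (EE d)), ENNReal.ofReal (Real.exp (-(Real.pi * ‖(x : EE d)‖ ^ 2))) * F x
        ∂(Measure.comap Subtype.val volume) := by
    rw [lintegral_subtype_comap (measurableSet_singleton (0 : EE d)).compl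
      (fun x => ENNReal.ofReal (Real.exp (-(Real.pi * ‖x‖ ^ 2))) * F x)]
    rw [Measure.restrict_eq_self_of_ae_mem]
    exact compl_mem_ae_iff.2 (measure_singleton _)
  rw [h1]
  have hmp := (volume : Measure (EE d)).measurePreserving_homeomorphUnitSphereProd
  have h2 : ∀ x : ({0}ᶜ : Set (EE d)), ENNReal.ofReal (Real.exp (-(Real.pi * ‖(x : EE d)‖ ^ 2))) *
      F x = (fun p : Metric.sphere (0 : EE d) 1 × Ioi (0 : ℝ) =>
        ENNReal.ofReal (Real.exp (-(Real.pi * (p.2 : ℝ) ^ 2))) * F p.1)
        (homeomorphUnitSphereProd (EE d) x) := by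
    intro x
    have hx : (x : EE d) ≠ 0 := x.2
    have hn : 0 < ‖(x : EE d)‖ := norm_pos_iff.2 hx
    have e1 : (((homeomorphUnitSphereProd (EE d) x).2 : Ioi (0 : ℝ)) : ℝ) = ‖(x : EE d)‖ := by
      simp [homeomorphUnitSphereProd]
    have e2 : (((homeomorphUnitSphereProd (EE d) x).1 : Metric.sphere (0 : EE d) 1) : EE d) =
        ‖(x : EE d)‖⁻¹ • (x : EE d) := by
      simp [homeomorphUnitSphereProd]
    simp only [e1, e2]
    rw [hom _ _ (inv_pos.2 hn)]
  simp only [h2]
  have hm : Measurable (fun p : Metric.sphere (0 : EE d) 1 × Ioi (0 : ℝ) =>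
        ENNReal.ofReal (Real.exp (-(Real.pi * (p.2 : ℝ) ^ 2))) * F p.1) := by
    refine Measurable.mul ?_ ?_
    · exact ENNReal.measurable_ofReal.comp (by fun_prop)
    · exact hF.comp (measurable_subtype_coe.comp measurable_fst)
  rw [hmp.lintegral_comp hm, lintegral_prod_symm _ hm.aemeasurable]
  have hm2 : Measurable fun u : Metric.sphere (0 : EE d) 1 => F u := hF.comp measurable_subtype_coe
  simp only [lintegral_const_mul _ hm2]
  rw [lintegral_mul_const]
  exact ENNReal.measurable_ofReal.comp (by fun_prop)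

/-- Gaussian representation of the uniform distribution -/
theorem gauss_sphere {d : ℕ} (hd : 0 < d) (F : EE d → ℝ≥0∞) (hF : Measurable F)
    (hom : ∀ (r : ℝ) (x : EE d), 0 < r → F (r • x) = F x) :
    ∫⁻ u, F u ∂(sigma d) = ∫⁻ v : Fin d → ℝ, wv v * F (WithLp.toLp 2 v) := by
  have e : ∀ G : EE d → ℝ≥0∞, Measurable G → ∫⁻ x : EE d,
      ENNReal.ofReal (Real.exp (-(Real.pi * ‖x‖ ^ 2))) * G x =
      ∫⁻ v : Fin d → ℝ, wv v * G (WithLp.toLp 2 v) := by
    intro G hG
    have hm : Measurable fun x : EE d => ENNReal.ofReal (Real.exp (-(Real.pi * ‖x‖ ^ 2))) * G x :=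
      Measurable.mul (by fun_prop) hG
    rw [← (PiLp.volume_preserving_toLp (Fin d)).lintegral_comp hm]
    refine lintegral_congr fun v => ?_
    rw [wv_eq]
    congr 5
    rw [EuclideanSpace.norm_sq_eq]
    simp [dotProduct, sq]
  have h1 := polar hd F hF hom
  have h2 := polar hd (fun _ => 1) measurable_const (fun _ _ _ => rfl)
  rw [e _ hF] at h1
  rw [e _ measurable_const] at h2
  simp only [mul_one, lintegral_wv, lintegral_const, one_mul] at h2
  rw [h1]
  unfold sigma
  rw [lintegral_smul_measure, smul_eq_mul]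
  congr 1
  symm
  exact ENNReal.eq_inv_of_mul_eq_one_left h2.symm

theorem pos_smul {ι E : Type*} [Fintype ι] [AddCommGroup E] [Module ℝ E] (u : ι → E)
    (r : ℝ) (hr : 0 < r) (x : E) : r • x ∈ pos u ↔ x ∈ pos u := by
  have h : ∀ (r : ℝ), 0 < r → ∀ x, x ∈ pos u → r • x ∈ pos u := by
    rintro r hr x ⟨c, hc, rfl⟩
    refine ⟨fun i => r * c i, fun i => mul_nonneg hr.le (hc i), ?_⟩
    rw [Finset.smul_sum]
    simp only [smul_smul]
  constructor
  · intro hx
    have := h r⁻¹ (inv_pos.2 hr) _ hx
    rwa [smul_smul, inv_mul_cancel₀ hr.ne', one_smul] at this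
  · exact h r hr x

theorem pos_scale {ι E : Type*} [Fintype ι] [AddCommGroup E] [Module ℝ E] (u : ι → E)
    (r : ι → ℝ) (hr : ∀ i, 0 < r i) : pos (fun i => r i • u i) = pos u := by
  have h : ∀ (u : ι → E) (r : ι → ℝ), (∀ i, 0 < r i) → pos (fun i => r i • u i) ⊆ pos u := by
    rintro u r hr x ⟨c, hc, rfl⟩
    refine ⟨fun i => c i * r i, fun i => mul_nonneg (hc i) (hr i).le, ?_⟩
    simp only [smul_smul]
  refine Subset.antisymm (h u r hr) ?_
  have h2 := h (fun i => r i • u i) (fun i => (r i)⁻¹) (fun i => inv_pos.2 (hr i))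
  simp only [smul_smul, inv_mul_cancel₀ (hr _).ne', one_smul] at h2
  exact h2

theorem toLp_mem_pos {d : ℕ} {ι : Type*} [Fintype ι] (u : ι → Fin d → ℝ) (v : Fin d → ℝ) :
    (WithLp.toLp 2 v : EE d) ∈ pos (fun i => (WithLp.toLp 2 (u i) : EE d)) ↔ v ∈ pos u := by
  unfold pos
  simp only [mem_ofPred_eq]
  refine exists_congr fun c => and_congr_right fun _ => ?_
  rw [← (WithLp.toLp_injective 2).eq_iff (a := v)]
  simp [WithLp.toLp_sum]

/-- the solid angle as a Gaussian integral -/
theorem solid_eq {d : ℕ} (hd : 0 < d) (u : Fin d → Fin d → ℝ) :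
    (sigma d) {x | (x : EE d) ∈ pos (fun i => (WithLp.toLp 2 (u i) : EE d))} = al u := by
  have hms : MeasurableSet (pos (fun i => (WithLp.toLp 2 (u i) : EE d))) := by
    have h := measurableSet_pos (ι := Fin d) (E := EE d)
    exact (measurable_prodMk_left (x := (fun i => (WithLp.toLp 2 (u i) : EE d)))) h
  have h := gauss_sphere hd (fun x => (pos (fun i => (WithLp.toLp 2 (u i) : EE d))).indicator 1 x)
    (measurable_one.indicator hms) ?_
  · change (sigma d) (Subtype.val ⁻¹' (pos (fun i => (WithLp.toLp 2 (u i) : EE d)))) = al u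
    rw [← lintegral_indicator_one (measurable_subtype_coe hms)]
    refine Eq.trans ?_ (h.trans ?_)
    · refine lintegral_congr fun x => ?_
      rfl
    · unfold al
      refine lintegral_congr fun v => ?_
      congr 1
      by_cases hv : v ∈ pos u
      · rw [indicator_of_mem hv, indicator_of_mem ((toLp_mem_pos u v).2 hv)]
        rfl
      · rw [indicator_of_notMem hv, indicator_of_notMem (fun h' => hv ((toLp_mem_pos u v).1 h'))]
  · intro r x hr
    by_cases hx : x ∈ pos (fun i => (WithLp.toLp 2 (u i) : EE d))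
    · rw [indicator_of_mem hx, indicator_of_mem ((pos_smul _ r hr x).2 hx)]
      rfl
    · rw [indicator_of_notMem hx, indicator_of_notMem (fun h' => hx ((pos_smul _ r hr x).1 h'))]

/-- integration over the first coordinate, product measures -/
theorem lintegral_pi_cons {n : ℕ} {X : Type*} [MeasurableSpace X] (μ : Measure X) [SigmaFinite μ]
    (F : (Fin (n + 1) → X) → ℝ≥0∞) (hF : Measurable F) :
    ∫⁻ Y, F Y ∂(Measure.pi fun _ => μ) =
      ∫⁻ y, ∫⁻ y', F (Fin.cons y y') ∂(Measure.pi fun _ => μ) ∂μ := by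
  have h := (measurePreserving_piFinSuccAbove (fun _ : Fin (n + 1) => μ) 0).symm
  have e : ∀ (x : X) (y : Fin n → X),
      (MeasurableEquiv.piFinSuccAbove (fun _ : Fin (n + 1) => X) 0).symm (x, y) =
        Fin.cons x y := by
    intro x y
    funext i
    refine Fin.cases ?_ (fun j => ?_) i <;> simp
  rw [← h.lintegral_comp hF, lintegral_prod]
  · simp only [e]
  · exact (hF.comp h.measurable).aemeasurable

theorem measurable_cons' {n : ℕ} {X : Type*} [MeasurableSpace X] :
    Measurable fun p : X × (Fin n → X) => (Fin.cons p.1 p.2 : Fin (n + 1) → X) := by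
  refine measurable_pi_lambda _ fun i => ?_
  refine Fin.cases ?_ (fun i => ?_) i
  · simpa using measurable_fst
  · simp only [Fin.cons_succ]
    exact (measurable_pi_apply i).comp measurable_snd

theorem prod_bridge {d : ℕ} (hd : 0 < d) (n : ℕ) : ∀ (Φ : (Fin n → EE d) → ℝ≥0∞),
    Measurable Φ → (∀ (r : Fin n → ℝ) (x : Fin n → EE d), (∀ i, 0 < r i) →
      Φ (fun i => r i • x i) = Φ x) →
    ∫⁻ U : Fin n → Metric.sphere (0 : EE d) 1, Φ (fun i => (U i : EE d))
      ∂(Measure.pi fun _ => sigma d) =
      ∫⁻ V : Fin n → Fin d → ℝ, wm V * Φ (fun i => WithLp.toLp 2 (V i)) := by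
  have : NeZero d := ⟨hd.ne'⟩
  induction n with
  | zero =>
    intro Φ _ _
    have h1 : ∀ U : Fin 0 → Metric.sphere (0 : EE d) 1, Φ (fun i => (U i : EE d)) =
        Φ (fun i => i.elim0) := fun U => by
      congr 1
      funext i
      exact i.elim0
    have h2 : ∀ V : Fin 0 → Fin d → ℝ, wm V * Φ (fun i => WithLp.toLp 2 (V i)) =
        Φ (fun i => i.elim0) := fun V => by
      have : (fun i => WithLp.toLp 2 (V i) : Fin 0 → EE d) = fun i => i.elim0 := by
        funext i
        exact i.elim0
      rw [this]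
      simp [wm]
    simp only [h1, h2, lintegral_const, measure_univ, mul_one]
    rw [volume_pi, Measure.pi_of_empty (fun _ : Fin 0 => (volume : Measure (Fin d → ℝ))) default]
    simp
  | succ n ih =>
    intro Φ hΦ hom
    have hcoe : ∀ m : ℕ, Measurable fun U : Fin m → Metric.sphere (0 : EE d) 1 =>
        fun i => (U i : EE d) := fun m =>
      measurable_pi_lambda _ fun i => measurable_subtype_coe.comp (measurable_pi_apply i)
    have hto : ∀ m : ℕ, Measurable fun V : Fin m → Fin d → ℝ =>
        fun i => (WithLp.toLp 2 (V i) : EE d) := fun m =>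
      measurable_pi_lambda _ fun i =>
        (PiLp.volume_preserving_toLp (Fin d)).measurable.comp (measurable_pi_apply i)
    have hmc : Measurable fun U : Fin (n + 1) → Metric.sphere (0 : EE d) 1 =>
        Φ (fun i => (U i : EE d)) := hΦ.comp (hcoe _)
    rw [lintegral_pi_cons (sigma d) _ hmc]
    have e1 : ∀ (u : Metric.sphere (0 : EE d) 1) (U' : Fin n → Metric.sphere (0 : EE d) 1),
        (fun i => ((Fin.cons u U' : Fin (n + 1) → Metric.sphere (0 : EE d) 1) i : EE d)) =
        Fin.cons (u : EE d) (fun i => (U' i : EE d)) := by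
      intro u U'
      funext i
      refine Fin.cases ?_ (fun i => ?_) i <;> simp
    simp only [e1]
    have e2 : ∀ u : Metric.sphere (0 : EE d) 1,
        ∫⁻ U' : Fin n → Metric.sphere (0 : EE d) 1, Φ (Fin.cons (u : EE d) (fun i => (U' i : EE d)))
          ∂(Measure.pi fun _ => sigma d) =
        ∫⁻ V : Fin n → Fin d → ℝ, wm V *
          Φ (Fin.cons (u : EE d) (fun i => (WithLp.toLp 2 (V i) : EE d))) := by
      intro u
      refine ih (fun x => Φ (Fin.cons (u : EE d) x)) ?_ ?_
      · exact Measurable.of_uncurry_left (f := fun (u : EE d) (x : Fin n → EE d) =>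
          Φ (Fin.cons u x)) (hΦ.comp measurable_cons')
      · intro r x hr
        have := hom (Fin.cons 1 r) (Fin.cons (u : EE d) x) (by
          intro i
          refine Fin.cases ?_ (fun i => ?_) i
          · simp
          · simpa using hr i)
        rw [← this]
        congr 1
        funext i
        refine Fin.cases ?_ (fun i => ?_) i <;> simp
    simp only [e2]
    have hmF : Measurable fun p : EE d × (Fin n → Fin d → ℝ) => wm p.2 *
        Φ (Fin.cons p.1 (fun i => (WithLp.toLp 2 (p.2 i) : EE d))) := by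
      refine (measurable_wm.comp measurable_snd).mul (hΦ.comp ?_)
      have hp : Measurable fun p : EE d × (Fin n → Fin d → ℝ) =>
          (p.1, fun i => (WithLp.toLp 2 (p.2 i) : EE d)) :=
        measurable_fst.prodMk ((hto n).comp measurable_snd)
      exact measurable_cons'.comp hp
    rw [gauss_sphere hd (fun x => ∫⁻ V : Fin n → Fin d → ℝ, wm V *
          Φ (Fin.cons x (fun i => (WithLp.toLp 2 (V i) : EE d))))
          (Measurable.lintegral_prod_right' hmF)]
    · have hm3 : Measurable fun V : Fin (n + 1) → Fin d → ℝ => wm V *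
          Φ (fun i => WithLp.toLp 2 (V i)) := measurable_wm.mul (hΦ.comp (hto _))
      rw [lintegral_cons _ hm3]
      refine lintegral_congr fun v => ?_
      have hm4 : Measurable fun V : Fin n → Fin d → ℝ => wm V *
          Φ (Fin.cons (WithLp.toLp 2 v) (fun i => (WithLp.toLp 2 (V i) : EE d))) :=
        Measurable.of_uncurry_left (f := fun (x : EE d) (V : Fin n → Fin d → ℝ) => wm V *
          Φ (Fin.cons x (fun i => (WithLp.toLp 2 (V i) : EE d)))) hmF
      rw [← lintegral_const_mul _ hm4]
      refine lintegral_congr fun V => ?_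
      have e3 : wm (Fin.cons v V : Fin (n + 1) → Fin d → ℝ) = wv v * wm V := by
        unfold wm
        rw [Fin.prod_univ_succ]
        simp
      rw [e3, mul_assoc]
      congr 3
      funext i
      refine Fin.cases ?_ (fun i => ?_) i <;> simp
    · intro r x hr
      refine lintegral_congr fun V => ?_
      congr 1
      have := hom (Fin.cons r (fun _ => 1)) (Fin.cons x (fun i => (WithLp.toLp 2 (V i) : EE d))) (by
          intro i
          refine Fin.cases ?_ (fun i => ?_) i
          · simpa using hr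
          · simp)
      rw [← this]
      congr 1
      funext i
      refine Fin.cases ?_ (fun i => ?_) i <;> simp

/-- the solid angle of points of the sphere -/
theorem ofReal_alpha {d : ℕ} (hd : 0 < d) (U : Fin d → Metric.sphere (0 : EE d) 1) :
    ENNReal.ofReal (alpha U) = al (fun i => WithLp.ofLp (U i : EE d)) := by
  have : NeZero d := ⟨hd.ne'⟩
  unfold alpha solidAngle
  rw [← solid_eq hd]
  exact ENNReal.ofReal_toReal (measure_ne_top _ _)

theorem measurable_ofLp_coe {d n : ℕ} : Measurable fun U : Fin n → Metric.sphere (0 : EE d) 1 =>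
    fun i => WithLp.ofLp (U i : EE d) :=
  measurable_pi_lambda _ fun i => (PiLp.volume_preserving_ofLp (Fin d)).measurable.comp
    (measurable_subtype_coe.comp (measurable_pi_apply i))

theorem alpha_eq {d : ℕ} (hd : 0 < d) (U : Fin d → Metric.sphere (0 : EE d) 1) :
    alpha U = (al (fun i => WithLp.ofLp (U i : EE d))).toReal := by
  rw [← ofReal_alpha hd]
  unfold alpha solidAngle
  rw [ENNReal.toReal_ofReal measureReal_nonneg]

/-- `alpha` is measurable -/
theorem measurable_alpha (d : ℕ) : Measurable (alpha (d := d)) := by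
  rcases Nat.eq_zero_or_pos d with hd | hd
  · subst hd
    exact Subsingleton.measurable
  · have : (alpha (d := d)) = fun U => (al (fun i => WithLp.ofLp (U i : EE d))).toReal := by
      funext U
      exact alpha_eq hd U
    rw [this]
    exact (measurable_al.comp measurable_ofLp_coe).ennreal_toReal

/-- the moments -/
theorem moment_eq {d : ℕ} (hd : 0 < d) (k : ℕ) :
    ∫⁻ U : Fin d → Metric.sphere (0 : EE d) 1, ENNReal.ofReal (alpha U) ^ k
      ∂(Measure.pi fun _ => sigma d) = Q d k := by
  simp only [ofReal_alpha hd]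
  have hto : Measurable fun x : Fin d → EE d => fun i => WithLp.ofLp (x i) :=
    measurable_pi_lambda _ fun i => (PiLp.volume_preserving_ofLp (Fin d)).measurable.comp
      (measurable_pi_apply i)
  have h := prod_bridge hd d (fun x => al (fun i => WithLp.ofLp (x i)) ^ k)
    ((measurable_al.comp hto).pow_const k) ?_
  · rw [h, Q_eq_al]
  · intro r x hr
    congr 1
    unfold al
    have : (fun i => WithLp.ofLp (r i • x i)) = fun i => r i • (WithLp.ofLp (x i) : Fin d → ℝ) := by
      funext i
      simp
    rw [this, pos_scale _ r hr]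

end Pool.Agent.V7H97.Cone
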