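import Pool.Agent.V7H97.ConeBr

set_option autoImplicit false

open MeasureTheory ENNReal Matrix Set Filter Topology
open scoped CompactlySupported

namespace Pool.Agent.V7H97.Cone

/-- the distribution of `d` independent uniform points of the sphere -/
noncomputable def PP (d : ℕ) : Measure (Fin d → Metric.sphere (0 : EE d) 1) :=
  Measure.pi fun _ => sigma d

/-- the measure `μ_d` on `(0, ∞)` -/
noncomputable def muD (d : ℕ) : Measure (Ioi (0 : ℝ)) :=
  ((2 : ℝ≥0∞) ^ d * d) • (Measure.map (alpha (d := d)) (PP d)).comap Subtype.val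

instance PP_prob {d : ℕ} [NeZero d] : IsProbabilityMeasure (PP d) := by
  unfold PP; infer_instance

theorem alpha_nonneg {d : ℕ} (U : Fin d → Metric.sphere (0 : EE d) 1) : 0 ≤ alpha U :=
  measureReal_nonneg

theorem alpha_le_one {d : ℕ} (hd : 0 < d) (U : Fin d → Metric.sphere (0 : EE d) 1) :
    alpha U ≤ 1 := by
  have : NeZero d := ⟨hd.ne'⟩
  exact measureReal_le_one

/-- the functional -/
noncomputable def LL (d : ℕ) (g : ℝ → ℝ) : ℝ :=
  (2 ^ d * d : ℝ) * ∫ U, g (alpha U) * alpha U ^ 2 ∂(PP d)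

theorem integrable_LL {d : ℕ} (hd : 0 < d) (g : ℝ → ℝ) (hg : Continuous g) :
    Integrable (fun U => g (alpha U) * alpha U ^ 2) (PP d) := by
  have : NeZero d := ⟨hd.ne'⟩
  obtain ⟨M, hM⟩ := isCompact_Icc.exists_bound_of_continuousOn (s := Icc (0 : ℝ) 1)
    (f := g) hg.continuousOn
  refine Integrable.of_bound (C := M) ?_ (Eventually.of_forall fun U => ?_)
  · exact ((hg.measurable.comp (measurable_alpha d)).mul
      ((measurable_alpha d).pow_const 2)).aestronglyMeasurable
  · have h0 := alpha_nonneg U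
    have h1 := alpha_le_one hd U
    have h2 := hM (alpha U) ⟨h0, h1⟩
    rw [norm_mul, norm_pow, Real.norm_eq_abs (alpha U), abs_of_nonneg h0]
    have h3 : alpha U ^ 2 ≤ 1 := pow_le_one₀ h0 h1
    calc ‖g (alpha U)‖ * alpha U ^ 2 ≤ ‖g (alpha U)‖ * 1 :=
          mul_le_mul_of_nonneg_left h3 (norm_nonneg _)
      _ ≤ M := by rw [mul_one]; exact h2

theorem LL_add {d : ℕ} (hd : 0 < d) (g h : ℝ → ℝ) (hg : Continuous g) (hh : Continuous h) :
    LL d (fun x => g x + h x) = LL d g + LL d h := by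
  unfold LL
  rw [← mul_add, ← integral_add (integrable_LL hd g hg) (integrable_LL hd h hh)]
  simp only [add_mul]

theorem LL_smul {d : ℕ} (c : ℝ) (g : ℝ → ℝ) :
    LL d (fun x => c * g x) = c * LL d g := by
  unfold LL
  simp only [mul_assoc]
  rw [integral_const_mul]
  ring

theorem LL_mono {d : ℕ} (hd : 0 < d) (g h : ℝ → ℝ) (hg : Continuous g) (hh : Continuous h)
    (hle : ∀ x ∈ Icc (0 : ℝ) 1, g x ≤ h x) : LL d g ≤ LL d h := by
  unfold LL
  refine mul_le_mul_of_nonneg_left (integral_mono (integrable_LL hd g hg) (integrable_LL hd h hh)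
    fun U => ?_) (by positivity)
  exact mul_le_mul_of_nonneg_right (hle _ ⟨alpha_nonneg U, alpha_le_one hd U⟩) (by positivity)

/-- the moments converge -/
theorem LL_pow (k : ℕ) : ∃ c : ℝ, 0 < c ∧ Tendsto (fun d => LL d (fun x => x ^ k)) atTop (𝓝 c) := by
  obtain ⟨c, hc0, hct, hc⟩ := stepB k
  refine ⟨c.toReal, ENNReal.toReal_pos hc0.ne' hct, ?_⟩
  have h := (ENNReal.tendsto_toReal hct).comp hc
  refine h.congr' ?_
  filter_upwards [eventually_gt_atTop 0] with d hd
  have : NeZero d := ⟨hd.ne'⟩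
  have h1 := moment_eq hd (k + 2)
  rw [Q_symm] at h1
  have h2 : ∫ U, (alpha U ^ k) * alpha U ^ 2 ∂(PP d) = (Q (k + 2) d).toReal := by
    rw [← h1, integral_eq_lintegral_of_nonneg_ae]
    · congr 1
      refine lintegral_congr fun U => ?_
      rw [← pow_add, ENNReal.ofReal_pow (alpha_nonneg U)]
    · exact Eventually.of_forall fun U => by
        have := alpha_nonneg U
        simp only [Pi.zero_apply]
        positivity
    · exact (((measurable_alpha d).pow_const k).mul
        ((measurable_alpha d).pow_const 2)).aestronglyMeasurable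
  unfold LL
  rw [h2]
  simp only [Function.comp_apply, ENNReal.toReal_mul, ENNReal.toReal_natCast, ENNReal.toReal_pow,
    ENNReal.toReal_ofNat]
  ring

open Polynomial in
theorem LL_poly (p : ℝ[X]) : ∃ c : ℝ, Tendsto (fun d => LL d (fun x => p.eval x)) atTop (𝓝 c) := by
  induction p using Polynomial.induction_on' with
  | add p q hp hq =>
    obtain ⟨a, ha⟩ := hp
    obtain ⟨b, hb⟩ := hq
    refine ⟨a + b, (ha.add hb).congr' ?_⟩
    filter_upwards [eventually_gt_atTop 0] with d hd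
    simp only [Polynomial.eval_add]
    rw [LL_add hd _ _ p.continuous q.continuous]
  | monomial k a =>
    obtain ⟨c, -, hc⟩ := LL_pow k
    refine ⟨a * c, (hc.const_mul a).congr fun d => ?_⟩
    simp only [Polynomial.eval_monomial]
    rw [LL_smul]

theorem LL_conv (g : ℝ → ℝ) (hg : Continuous g) : ∃ c : ℝ, Tendsto (fun d => LL d g) atTop (𝓝 c) := by
  obtain ⟨C, hC0, hC⟩ := LL_pow 0
  simp only [pow_zero] at hC
  refine cauchySeq_tendsto_of_complete ?_
  rw [Metric.cauchySeq_iff']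
  intro ε hε
  have hδ : 0 < ε / (4 * (C + 1)) := by positivity
  set δ := ε / (4 * (C + 1)) with hδd
  obtain ⟨p, hp⟩ := exists_polynomial_near_of_continuousOn 0 1 g hg.continuousOn δ hδ
  obtain ⟨a, ha⟩ := LL_poly p
  have h1 : ∀ᶠ d in atTop, LL d (fun _ => 1) < C + 1 := hC.eventually_lt_const (by linarith)
  have h2 : ∀ᶠ d in atTop, |LL d (fun x => p.eval x) - a| < ε / 4 := by
    have := (Metric.tendsto_nhds.1 ha) (ε / 4) (by positivity)
    simpa [Real.dist_eq] using this
  have h3 : ∀ᶠ d in atTop, |LL d g - a| < ε / 2 := by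
    filter_upwards [h1, h2, eventually_gt_atTop 0] with d hd1 hd2 hd
    have e1 : LL d g ≤ LL d (fun x => p.eval x + δ * 1) :=
      LL_mono hd _ _ hg (by have := p.continuous; fun_prop) fun x hx => by
        have := abs_lt.1 (hp x hx)
        linarith [this.1]
    have e2 : LL d (fun x => p.eval x + (-δ) * 1) ≤ LL d g :=
      LL_mono hd _ _ (by have := p.continuous; fun_prop) hg fun x hx => by
        have := abs_lt.1 (hp x hx)
        linarith [this.2]
    rw [LL_add hd _ _ p.continuous (by fun_prop), LL_smul] at e1 e2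
    have e3 : δ * LL d (fun _ => 1) ≤ δ * (C + 1) := mul_le_mul_of_nonneg_left hd1.le hδ.le
    have e4 : δ * (C + 1) = ε / 4 := by
      rw [hδd]
      field_simp
    have := abs_lt.1 hd2
    rw [abs_lt]
    constructor <;> linarith [this.1, this.2]
  obtain ⟨N, hN⟩ := eventually_atTop.1 h3
  refine ⟨N, fun n hn => ?_⟩
  rw [Real.dist_eq]
  have e1 := abs_lt.1 (hN n hn)
  have e2 := abs_lt.1 (hN N le_rfl)
  rw [abs_lt]
  constructor <;> linarith [e1.1, e1.2, e2.1, e2.2]

/-- extension by zero -/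
noncomputable def ext0 (f : Ioi (0 : ℝ) → ℝ) : ℝ → ℝ := Function.extend Subtype.val f 0

theorem ext0_pos (f : Ioi (0 : ℝ) → ℝ) (x : ℝ) (hx : 0 < x) : ext0 f x = f ⟨x, hx⟩ :=
  Subtype.val_injective.extend_apply f 0 ⟨x, hx⟩

theorem ext0_nonpos (f : Ioi (0 : ℝ) → ℝ) (x : ℝ) (hx : ¬ 0 < x) : ext0 f x = 0 := by
  refine Function.extend_apply' _ _ _ ?_
  rintro ⟨y, rfl⟩
  exact hx y.2

theorem ext0_cont (f : Ioi (0 : ℝ) → ℝ) (hf : Continuous f) (hs : HasCompactSupport f) :
    Continuous (ext0 f) := hs.continuous_extend_zero isOpen_Ioi hf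

/-- the integral against `μ_d` -/
theorem int_muD {d : ℕ} (f : Ioi (0 : ℝ) → ℝ) (hf : Continuous f) (hs : HasCompactSupport f) :
    ∫ x, f x ∂(muD d) = LL d (ext0 (fun x => f x / (x : ℝ) ^ 2)) := by
  have hcont : Continuous (ext0 f) := ext0_cont f hf hs
  unfold muD LL
  rw [integral_smul_measure]
  have h1 : ((2 : ℝ≥0∞) ^ d * (d : ℝ≥0∞)).toReal = 2 ^ d * d := by simp
  rw [h1, smul_eq_mul]
  congr 1
  have h2 : ∀ x : Ioi (0 : ℝ), f x = ext0 f x := fun x => (ext0_pos f x x.2).symm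
  simp only [h2]
  rw [integral_subtype_comap measurableSet_Ioi (ext0 f), setIntegral_eq_integral_of_forall_compl_eq_zero
    (s := Ioi (0 : ℝ)) (fun x hx => ext0_nonpos f x hx), integral_map (measurable_alpha d).aemeasurable
    hcont.aestronglyMeasurable]
  refine integral_congr_ae (Eventually.of_forall fun U => ?_)
  show ext0 f (alpha U) = ext0 (fun x => ext0 f x / (x : ℝ) ^ 2) (alpha U) * alpha U ^ 2
  by_cases h : 0 < alpha U
  · rw [ext0_pos (fun x => ext0 f x / (x : ℝ) ^ 2) _ h]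
    show ext0 f (alpha U) = ext0 f (alpha U) / (alpha U) ^ 2 * alpha U ^ 2
    field_simp
  · rw [ext0_nonpos _ _ h, ext0_nonpos _ _ h, zero_mul]

theorem div_cont (f : Ioi (0 : ℝ) → ℝ) (hf : Continuous f) :
    Continuous (fun x : Ioi (0 : ℝ) => f x / (x : ℝ) ^ 2) :=
  hf.div (by fun_prop) fun x => by
    have : (0 : ℝ) < x := x.2
    positivity

theorem div_supp (f : Ioi (0 : ℝ) → ℝ) (hs : HasCompactSupport f) :
    HasCompactSupport (fun x : Ioi (0 : ℝ) => f x / (x : ℝ) ^ 2) := by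
  refine hs.mono fun x hx => ?_
  simp only [Function.mem_support, ne_eq] at hx ⊢
  intro h
  exact hx (by rw [h, zero_div])

theorem conv (f : Ioi (0 : ℝ) → ℝ) (hf : Continuous f) (hs : HasCompactSupport f) :
    ∃ c : ℝ, Tendsto (fun d => ∫ x, f x ∂(muD d)) atTop (𝓝 c) := by
  obtain ⟨c, hc⟩ := LL_conv _ (ext0_cont _ (div_cont f hf) (div_supp f hs))
  exact ⟨c, hc.congr fun d => (int_muD f hf hs).symm⟩

theorem ext0_add (f g : Ioi (0 : ℝ) → ℝ) :
    ext0 (fun x => f x + g x) = fun x => ext0 f x + ext0 g x := by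
  funext x
  by_cases h : 0 < x
  · rw [ext0_pos _ _ h, ext0_pos _ _ h, ext0_pos _ _ h]
  · rw [ext0_nonpos _ _ h, ext0_nonpos _ _ h, ext0_nonpos _ _ h, add_zero]

theorem ext0_smul (c : ℝ) (f : Ioi (0 : ℝ) → ℝ) :
    ext0 (fun x => c * f x) = fun x => c * ext0 f x := by
  funext x
  by_cases h : 0 < x
  · rw [ext0_pos _ _ h, ext0_pos _ _ h]
  · rw [ext0_nonpos _ _ h, ext0_nonpos _ _ h, mul_zero]

theorem int_muD' {d : ℕ} (f : C_c(Ioi (0 : ℝ), ℝ)) :
    ∫ x, f x ∂(muD d) = LL d (ext0 (fun x => f x / (x : ℝ) ^ 2)) :=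
  int_muD f f.continuous f.hasCompactSupport

/-- the limit functional -/
noncomputable def Lam (f : C_c(Ioi (0 : ℝ), ℝ)) : ℝ :=
  Classical.choose (conv f f.continuous f.hasCompactSupport)

theorem Lam_spec (f : C_c(Ioi (0 : ℝ), ℝ)) :
    Tendsto (fun d => ∫ x, f x ∂(muD d)) atTop (𝓝 (Lam f)) :=
  Classical.choose_spec (conv f f.continuous f.hasCompactSupport)

theorem Lam_add (f g : C_c(Ioi (0 : ℝ), ℝ)) : Lam (f + g) = Lam f + Lam g := by
  refine tendsto_nhds_unique (Lam_spec (f + g)) (((Lam_spec f).add (Lam_spec g)).congr' ?_)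
  filter_upwards [eventually_gt_atTop 0] with d hd
  rw [int_muD' (f + g), int_muD' f, int_muD' g, ← LL_add hd _ _
    (ext0_cont _ (div_cont f f.continuous) (div_supp f f.hasCompactSupport))
    (ext0_cont _ (div_cont g g.continuous) (div_supp g g.hasCompactSupport)), ← ext0_add]
  congr 2
  funext x
  show _ = (f x + g x) / _
  ring

theorem Lam_smul (c : ℝ) (f : C_c(Ioi (0 : ℝ), ℝ)) : Lam (c • f) = c * Lam f := by
  refine tendsto_nhds_unique (Lam_spec (c • f)) (((Lam_spec f).const_mul c).congr fun d => ?_)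
  rw [int_muD' (c • f), int_muD' f, ← LL_smul, ← ext0_smul]
  congr 2
  funext x
  show _ = (c * f x) / _
  ring

theorem Lam_nonneg (f : C_c(Ioi (0 : ℝ), ℝ)) (hf : 0 ≤ f) : 0 ≤ Lam f :=
  ge_of_tendsto' (Lam_spec f) fun _ => integral_nonneg fun x => hf x

noncomputable def LamLin : C_c(Ioi (0 : ℝ), ℝ) →ₗ[ℝ] ℝ where
  toFun := Lam
  map_add' := Lam_add
  map_smul' := fun c f => by
    rw [Lam_smul]
    rfl

noncomputable def LamPos : C_c(Ioi (0 : ℝ), ℝ) →ₚ[ℝ] ℝ :=
  PositiveLinearMap.mk₀ LamLin fun f hf => Lam_nonneg f hf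

/-- a test function -/
theorem test_pos : ∃ f : C_c(Ioi (0 : ℝ), ℝ), 0 < Lam f := by
  obtain ⟨C, hC0, hC⟩ := LL_pow 0
  obtain ⟨c, hc0, hc⟩ := LL_pow 1
  simp only [pow_zero] at hC
  simp only [pow_one] at hc
  set δ := c / (2 * C) with hδ
  have hδ0 : 0 < δ := by positivity
  let g : ℝ → ℝ := fun x => max 0 (min (x - δ) (2 - x))
  have hg : Continuous g := by
    show Continuous fun x : ℝ => max 0 (min (x - δ) (2 - x))
    fun_prop
  have hK : IsCompact (Subtype.val ⁻¹' (Icc δ 2) : Set (Ioi (0 : ℝ))) := by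
    rw [Topology.IsEmbedding.subtypeVal.isCompact_iff, Subtype.image_preimage_coe]
    have : Ioi (0 : ℝ) ∩ Icc δ 2 = Icc δ 2 :=
      inter_eq_self_of_subset_right fun x hx => lt_of_lt_of_le hδ0 hx.1
    rw [this]
    exact isCompact_Icc
  let f0 : Ioi (0 : ℝ) → ℝ := fun x => g x * (x : ℝ) ^ 2
  have hf0 : Continuous f0 := by
    show Continuous fun x : Ioi (0 : ℝ) => g x * (x : ℝ) ^ 2
    exact (hg.comp continuous_subtype_val).mul (by fun_prop)
  have hs0 : HasCompactSupport f0 := by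
    refine HasCompactSupport.of_support_subset_isCompact hK fun x hx => ?_
    by_contra hx2
    apply hx
    show g x * (x : ℝ) ^ 2 = 0
    have : g x = 0 := by
      show max 0 (min ((x : ℝ) - δ) (2 - x)) = 0
      rw [max_eq_left]
      simp only [mem_preimage, mem_Icc, not_and_or, not_le] at hx2
      rcases hx2 with h | h
      · exact (min_le_left _ _).trans (by linarith)
      · exact (min_le_right _ _).trans (by linarith)
    rw [this, zero_mul]
  refine ⟨⟨⟨f0, hf0⟩, hs0⟩, ?_⟩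
  have h1 := Lam_spec ⟨⟨f0, hf0⟩, hs0⟩
  have h2 : Tendsto (fun d => LL d (fun x => x) - δ * LL d (fun _ => 1)) atTop (𝓝 (c - δ * C)) :=
    hc.sub (hC.const_mul δ)
  have h3 : c - δ * C ≤ Lam ⟨⟨f0, hf0⟩, hs0⟩ := by
    refine le_of_tendsto_of_tendsto h2 h1 ?_
    filter_upwards [eventually_gt_atTop 0] with d hd
    have e1 : ∫ x, (⟨⟨f0, hf0⟩, hs0⟩ : C_c(Ioi (0 : ℝ), ℝ)) x ∂(muD d) =
        LL d (ext0 (fun x => f0 x / (x : ℝ) ^ 2)) := int_muD f0 hf0 hs0
    rw [e1]
    have e2 : LL d (fun x => x + (-δ) * 1) ≤ LL d (ext0 (fun x => f0 x / (x : ℝ) ^ 2)) := by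
      refine LL_mono hd _ _ (by fun_prop) (ext0_cont _ (div_cont f0 hf0) (div_supp f0 hs0))
        fun x hx => ?_
      by_cases hx0 : 0 < x
      · rw [ext0_pos _ _ hx0]
        show x + (-δ) * 1 ≤ g x * x ^ 2 / x ^ 2
        have hx2 : x ^ 2 ≠ 0 := by positivity
        rw [mul_div_cancel_right₀ _ hx2]
        show x + (-δ) * 1 ≤ max 0 (min (x - δ) (2 - x))
        refine le_trans ?_ (le_max_right _ _)
        refine le_min (by linarith) ?_
        have := hx.2
        linarith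
      · rw [ext0_nonpos _ _ hx0]
        linarith
    rw [LL_add hd _ _ (by fun_prop) (by fun_prop), LL_smul] at e2
    linarith
  have h4 : δ * C = c / 2 := by
    rw [hδ]
    field_simp
  linarith

end Pool.Agent.V7H97.Cone
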