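import Pool.Agent.V7H97.ConeSym4

set_option autoImplicit false

open MeasureTheory ENNReal Matrix

namespace Pool.Agent.V7H97.Cone

/-- the solid angle of the positive hull of the rows of `G` -/
noncomputable def al {d : ℕ} (G : Fin d → Fin d → ℝ) : ℝ≥0∞ :=
  ∫⁻ v : Fin d → ℝ, wv v * (pos G).indicator 1 v

theorem measurable_ind_pos {d : ℕ} : Measurable fun p : (Fin d → Fin d → ℝ) × (Fin d → ℝ) =>
    wv p.2 * (pos p.1).indicator (1 : (Fin d → ℝ) → ℝ≥0∞) p.2 := by
  have h : (fun p : (Fin d → Fin d → ℝ) × (Fin d → ℝ) =>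
      wv p.2 * (pos p.1).indicator (1 : (Fin d → ℝ) → ℝ≥0∞) p.2) = fun p =>
      wv p.2 * ({p : (Fin d → Fin d → ℝ) × (Fin d → ℝ) | p.2 ∈ pos p.1}).indicator 1 p := by
    funext p
    congr 1
  rw [h]
  exact (measurable_wv.comp measurable_snd).mul (measurable_one.indicator measurableSet_pos)

theorem measurable_ind_pos' {d : ℕ} (G : Fin d → Fin d → ℝ) :
    Measurable fun v : Fin d → ℝ => wv v * (pos G).indicator (1 : (Fin d → ℝ) → ℝ≥0∞) v :=
  Measurable.of_uncurry_left (f := fun (G : Fin d → Fin d → ℝ) (v : Fin d → ℝ) =>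
    wv v * (pos G).indicator (1 : (Fin d → ℝ) → ℝ≥0∞) v) measurable_ind_pos

theorem measurable_al {d : ℕ} : Measurable (al (d := d)) :=
  Measurable.lintegral_prod_right' measurable_ind_pos

theorem lintegral_pi_prod_pow {n : ℕ} {X : Type*} [MeasureSpace X]
    [SigmaFinite (volume : Measure X)]
    (f : X → ℝ≥0∞) (hf : Measurable f) :
    ∫⁻ Y : Fin n → X, ∏ i, f (Y i) = (∫⁻ x, f x) ^ n := by
  induction n with
  | zero =>
    simp only [Finset.univ_eq_empty, Finset.prod_empty, lintegral_const, one_mul, pow_zero]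
    rw [volume_pi, Measure.pi_of_empty (fun _ : Fin 0 => (volume : Measure X)) default]
    simp
  | succ n ih =>
    have hm : Measurable fun Y : Fin (n + 1) → X => ∏ i, f (Y i) :=
      Finset.measurable_prod _ fun i _ => hf.comp (measurable_pi_apply i)
    have hm' : Measurable fun Y : Fin n → X => ∏ i, f (Y i) :=
      Finset.measurable_prod _ fun i _ => hf.comp (measurable_pi_apply i)
    rw [lintegral_cons _ hm]
    simp only [Fin.prod_univ_succ, Fin.cons_zero, Fin.cons_succ]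
    have : ∀ y : X, ∫⁻ y' : Fin n → X, f y * ∏ i, f (y' i) = f y * (∫⁻ x, f x) ^ n := by
      intro y
      rw [lintegral_const_mul _ hm', ih]
    simp only [this]
    rw [lintegral_mul_const _ hf, pow_succ']

theorem Q_eq_al (d k : ℕ) : Q d k = ∫⁻ G : Fin d → Fin d → ℝ, wm G * al G ^ k := by
  unfold Q
  refine lintegral_congr fun G => ?_
  have hG : Measurable fun v : Fin d → ℝ =>
      wv v * (pos G).indicator (1 : (Fin d → ℝ) → ℝ≥0∞) v := measurable_ind_pos' G
  rw [lintegral_const_mul]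
  · congr 1
    unfold al
    rw [← lintegral_pi_prod_pow _ hG]
    refine lintegral_congr fun V => ?_
    rw [Finset.prod_mul_distrib]
    unfold wm
    congr 1
    by_cases h : (G, V) ∈ Sset d k
    · rw [Set.indicator_of_mem h]
      symm
      simp only [Pi.one_apply]
      refine Finset.prod_eq_one fun i _ => ?_
      rw [Set.indicator_of_mem (h i)]
      rfl
    · rw [Set.indicator_of_notMem h]
      symm
      have : ∃ j, V j ∉ pos G := by
        by_contra hc
        push Not at hc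
        exact h hc
      obtain ⟨j, hj⟩ := this
      exact Finset.prod_eq_zero (Finset.mem_univ j) (Set.indicator_of_notMem hj _)
  · exact (measurable_wm).mul ((measurable_one.indicator (measurableSet_Sset d k)).comp
      measurable_prodMk_left)

/-- invariance under orthogonal maps of the weight -/
theorem wv_rot {n : ℕ} (O : Matrix (Fin n) (Fin n) ℝ) (hO : O * Oᵀ = 1) (v : Fin n → ℝ) :
    wv (v ᵥ* O) = wv v := by
  rw [wv_eq, wv_eq]
  congr 4
  rw [← Matrix.dotProduct_mulVec, ← Matrix.vecMul_transpose,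
    Matrix.vecMul_vecMul, hO, Matrix.vecMul_one]

theorem abs_det_rot {n : ℕ} (O : Matrix (Fin n) (Fin n) ℝ) (hO : O * Oᵀ = 1) : |O.det| = 1 := by
  have h : O.det * O.det = 1 := by
    have := congrArg Matrix.det hO
    rwa [Matrix.det_mul, Matrix.det_transpose, Matrix.det_one] at this
  have h2 : |O.det| * |O.det| = 1 := by rw [← abs_mul, h, abs_one]
  nlinarith [abs_nonneg O.det]

theorem vecMul_mem_pos {n d : ℕ} (O : Matrix (Fin n) (Fin n) ℝ) (hO : O * Oᵀ = 1)
    (G : Fin d → Fin n → ℝ) (v : Fin n → ℝ) :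
    (v ᵥ* O) ∈ pos (fun i => G i ᵥ* O) ↔ v ∈ pos G := by
  have hO' : ∀ x : Fin n → ℝ, (x ᵥ* O) ᵥ* Oᵀ = x := by
    intro x
    rw [Matrix.vecMul_vecMul, hO, Matrix.vecMul_one]
  have h1 : ∀ c : Fin d → ℝ, ∑ i, c i • (G i ᵥ* O) = (∑ i, c i • G i) ᵥ* O := by
    intro c
    rw [Matrix.sum_vecMul]
    refine Finset.sum_congr rfl fun i _ => ?_
    rw [Matrix.smul_vecMul]
  constructor
  · rintro ⟨c, hc, h⟩
    refine ⟨c, hc, ?_⟩
    rw [h1] at h
    rw [← hO' v, h, hO']
  · rintro ⟨c, hc, h⟩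
    refine ⟨c, hc, ?_⟩
    rw [h1, h]

theorem lintegral_rot {n : ℕ} (O : Matrix (Fin n) (Fin n) ℝ) (hO : O * Oᵀ = 1)
    (F : (Fin n → ℝ) → ℝ≥0∞) (hF : Measurable F) :
    ∫⁻ v, F (v ᵥ* O) = ∫⁻ v, F v := by
  have hdet : O.det ≠ 0 := by
    intro h
    have := abs_det_rot O hO
    rw [h] at this
    simp at this
  have h := lintegral_rowmul (ι := Fin 1) O hdet (fun G => F (G 0))
    (hF.comp (measurable_pi_apply 0))
  rw [abs_det_rot O hO] at h
  simp only [one_pow, ENNReal.ofReal_one, one_mul] at h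
  have e := (volume_preserving_funUnique (Fin 1) (Fin n → ℝ))
  have e1 : ∀ F' : (Fin n → ℝ) → ℝ≥0∞, Measurable F' →
      ∫⁻ G : Fin 1 → Fin n → ℝ, F' (G 0) = ∫⁻ v, F' v := by
    intro F' hF'
    rw [← e.lintegral_comp hF']
    rfl
  have hO2 : Measurable fun v : Fin n → ℝ => v ᵥ* O := by
    have : Continuous fun v : Fin n → ℝ => v ᵥ* O :=
      Continuous.matrix_vecMul continuous_id continuous_const
    exact this.measurable
  rw [← e1 F hF, ← h, e1 (fun v => F (v ᵥ* O)) (hF.comp hO2)]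

theorem al_rot {n : ℕ} (O : Matrix (Fin n) (Fin n) ℝ) (hO : O * Oᵀ = 1)
    (G : Fin n → Fin n → ℝ) : al (fun i => G i ᵥ* O) = al G := by
  unfold al
  rw [← lintegral_rot O hO (fun v => wv v * (pos fun i => G i ᵥ* O).indicator 1 v)
    (measurable_ind_pos' _)]
  refine lintegral_congr fun v => ?_
  rw [wv_rot O hO]
  congr 1
  by_cases h : v ∈ pos G
  · rw [Set.indicator_of_mem h, Set.indicator_of_mem ((vecMul_mem_pos O hO G v).2 h)]
    rfl
  · rw [Set.indicator_of_notMem h,
      Set.indicator_of_notMem (fun h' => h ((vecMul_mem_pos O hO G v).1 h'))]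

/-- triangular form -/
theorem exists_tri {n : ℕ} (Y : Fin n → Fin (n + 1) → ℝ) :
    ∃ O : Matrix (Fin (n + 1)) (Fin (n + 1)) ℝ, O * Oᵀ = 1 ∧
      ∀ (m : Fin n) (j : Fin (n + 1)), j < m.succ → (Y m ᵥ* O) j = 0 := by
  let E := EuclideanSpace ℝ (Fin (n + 1))
  let f : Fin (n + 1) → E := fun i =>
    WithLp.toLp 2 ((Fin.cons (0 : Fin (n + 1) → ℝ) Y : Fin (n + 1) → Fin (n + 1) → ℝ) (Fin.rev i))
  have hE : Module.finrank ℝ E = Fintype.card (Fin (n + 1)) := by simp [E]
  let b := InnerProductSpace.gramSchmidtOrthonormalBasis hE f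
  let O : Matrix (Fin (n + 1)) (Fin (n + 1)) ℝ := Matrix.of fun i j => (b (Fin.rev j)) i
  have hOO : Oᵀ * O = 1 := by
    ext i j
    have := b.inner_eq_ite (Fin.rev i) (Fin.rev j)
    rw [Matrix.mul_apply, Matrix.one_apply]
    simp only [Fin.rev_inj] at this
    rw [← this, PiLp.inner_apply]
    refine Finset.sum_congr rfl fun l _ => ?_
    simp [O, mul_comm]
  refine ⟨O, ?_, ?_⟩
  · exact mul_eq_one_comm.1 hOO
  · intro m j hj
    have h := InnerProductSpace.gramSchmidtOrthonormalBasis_inv_triangular hE f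
      (i := Fin.rev m.succ) (j := Fin.rev j) (by simpa using hj)
    rw [PiLp.inner_apply] at h
    rw [← h]
    simp only [f, Fin.rev_rev, Fin.cons_succ, O, Matrix.vecMul, dotProduct, Matrix.of_apply]
    refine Finset.sum_congr rfl fun l _ => ?_
    simp [b, f]

end Pool.Agent.V7H97.Cone
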