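import Mathlib

set_option autoImplicit false

open MeasureTheory ENNReal Matrix

namespace Pool.Agent.V7H97.Cone

/-! ### weights -/

/-- the Gaussian weight `exp (-π x²)` -/
noncomputable def w1 (x : ℝ) : ℝ≥0∞ := ENNReal.ofReal (Real.exp (-(Real.pi * x ^ 2)))

noncomputable def wv {n : ℕ} (x : Fin n → ℝ) : ℝ≥0∞ := ∏ i, w1 (x i)

noncomputable def wm {m n : ℕ} (G : Fin m → Fin n → ℝ) : ℝ≥0∞ := ∏ i, wv (G i)

theorem measurable_w1 : Measurable w1 := by unfold w1; fun_prop

theorem measurable_wv {n : ℕ} : Measurable (wv (n := n)) := by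
  unfold wv
  exact Finset.measurable_prod _ fun i _ => measurable_w1.comp (measurable_pi_apply i)

theorem measurable_wm {m n : ℕ} : Measurable (wm (m := m) (n := n)) := by
  unfold wm
  exact Finset.measurable_prod _ fun i _ => measurable_wv.comp (measurable_pi_apply i)

theorem wv_eq {n : ℕ} (x : Fin n → ℝ) :
    wv x = ENNReal.ofReal (Real.exp (-(Real.pi * (x ⬝ᵥ x)))) := by
  unfold wv w1
  rw [← ENNReal.ofReal_prod_of_nonneg (fun _ _ => (Real.exp_pos _).le), ← Real.exp_sum]
  congr 2
  unfold dotProduct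
  rw [Finset.mul_sum, ← Finset.sum_neg_distrib]
  refine Finset.sum_congr rfl fun i _ => ?_
  ring

theorem wm_eq {m n : ℕ} (G : Fin m → Fin n → ℝ) :
    wm G = ENNReal.ofReal (Real.exp (-(Real.pi * ∑ i, (G i ⬝ᵥ G i)))) := by
  unfold wm
  simp only [wv_eq]
  rw [← ENNReal.ofReal_prod_of_nonneg (fun _ _ => (Real.exp_pos _).le), ← Real.exp_sum]
  congr 2
  rw [Finset.mul_sum, ← Finset.sum_neg_distrib]

theorem lintegral_w1 : ∫⁻ x, w1 x = 1 := by
  unfold w1
  rw [← ofReal_integral_eq_lintegral_ofReal]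
  · have := integral_gaussian Real.pi
    simp only [neg_mul] at this
    rw [this, div_self Real.pi_ne_zero]
    simp
  · have := integrable_exp_neg_mul_sq Real.pi_pos
    simpa only [neg_mul] using this
  · exact Filter.Eventually.of_forall fun x => (Real.exp_pos _).le

/-- integration over the first coordinate -/
theorem lintegral_cons {n : ℕ} {X : Type*} [MeasureSpace X] [SigmaFinite (volume : Measure X)]
    (F : (Fin (n + 1) → X) → ℝ≥0∞) (hF : Measurable F) :
    ∫⁻ Y, F Y = ∫⁻ y, ∫⁻ y', F (Fin.cons y y') := by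
  have h := (volume_preserving_piFinSuccAbove (fun _ : Fin (n + 1) => X) 0).symm
  have e : ∀ (x : X) (y : Fin n → X),
      (MeasurableEquiv.piFinSuccAbove (fun _ : Fin (n + 1) => X) 0).symm (x, y) =
        Fin.cons x y := by
    intro x y
    funext i
    refine Fin.cases ?_ (fun j => ?_) i <;> simp
  rw [← h.lintegral_comp hF, Measure.volume_eq_prod, lintegral_prod]
  · simp only [e]
  · exact (hF.comp h.measurable).aemeasurable

theorem lintegral_pi_prod {n : ℕ} {X : Type*} [MeasureSpace X] [SigmaFinite (volume : Measure X)]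
    (f : X → ℝ≥0∞) (hf : Measurable f) (h1 : ∫⁻ x, f x = 1) :
    ∫⁻ Y : Fin n → X, ∏ i, f (Y i) = 1 := by
  induction n with
  | zero =>
    simp only [Finset.univ_eq_empty, Finset.prod_empty, lintegral_const, one_mul]
    rw [volume_pi, Measure.pi_of_empty (fun _ : Fin 0 => (volume : Measure X)) default]
    simp
  | succ n ih =>
    have hm : Measurable fun Y : Fin (n + 1) → X => ∏ i, f (Y i) :=
      Finset.measurable_prod _ fun i _ => hf.comp (measurable_pi_apply i)
    have hm' : Measurable fun Y : Fin n → X => ∏ i, f (Y i) :=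
      Finset.measurable_prod _ fun i _ => hf.comp (measurable_pi_apply i)
    rw [lintegral_cons _ hm]
    simp only [Fin.prod_univ_succ, Fin.cons_zero, Fin.cons_succ]
    have : ∀ y : X, ∫⁻ y' : Fin n → X, f y * ∏ i, f (y' i) = f y := by
      intro y
      rw [lintegral_const_mul _ hm', ih, mul_one]
    simp only [this, h1]

theorem lintegral_wv {n : ℕ} : ∫⁻ x : Fin n → ℝ, wv x = 1 :=
  lintegral_pi_prod w1 measurable_w1 lintegral_w1

theorem lintegral_wm {m n : ℕ} : ∫⁻ x : Fin m → Fin n → ℝ, wm x = 1 :=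
  lintegral_pi_prod wv measurable_wv lintegral_wv

/-! ### linear changes of variables -/

/-- multiplication of all the rows by a matrix -/
theorem lintegral_rowmul {ι : Type*} [Fintype ι] {n : ℕ} (M : Matrix (Fin n) (Fin n) ℝ)
    (hM : M.det ≠ 0) (F : (ι → Fin n → ℝ) → ℝ≥0∞) (hF : Measurable F) :
    ENNReal.ofReal (|M.det| ^ Fintype.card ι) * ∫⁻ G : ι → Fin n → ℝ, F (fun i => G i ᵥ* M) =
      ∫⁻ G, F G := by
  classical
  set f : (ι → Fin n → ℝ) →ₗ[ℝ] (ι → Fin n → ℝ) :=
    LinearMap.pi fun i => (Matrix.toLin' Mᵀ).comp (LinearMap.proj i) with hf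
  have hdet : f.det = M.det ^ Fintype.card ι := by
    rw [hf, LinearMap.det_pi]
    simp [LinearMap.det_toLin', Matrix.det_transpose]
  have hdet0 : f.det ≠ 0 := by rw [hdet]; exact pow_ne_zero _ hM
  have happ : ∀ G : ι → Fin n → ℝ, f G = fun i => G i ᵥ* M := by
    intro G
    funext i
    simp [hf, Matrix.mulVec_transpose]
  have hmap := Measure.map_linearMap_addHaar_eq_smul_addHaar
    (volume : Measure (ι → Fin n → ℝ)) hdet0
  have h1 : ∫⁻ G, F (f G) = ∫⁻ G, F G ∂(Measure.map f volume) :=
    (lintegral_map hF (by exact f.continuous_of_finiteDimensional.measurable)).symm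
  simp only [happ] at h1
  rw [h1, hmap, lintegral_smul_measure, smul_eq_mul, ← mul_assoc, ← ENNReal.ofReal_mul (by positivity),
    hdet, abs_inv, abs_pow, mul_inv_cancel₀ (by positivity)]
  simp

/-- transposition -/
def tr (ι κ : Type*) : (ι → κ → ℝ) → (κ → ι → ℝ) := fun G j i => G i j

theorem tr_preserving (ι κ : Type*) [Fintype ι] [Fintype κ] :
    MeasurePreserving (tr ι κ) volume volume := by
  classical
  have hm : Measurable (tr ι κ) := by
    unfold tr
    exact measurable_pi_lambda _ fun j => measurable_pi_lambda _ fun i =>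
      (measurable_pi_apply j).comp (measurable_pi_apply i)
  set e : (ι → κ → ℝ) ≃L[ℝ] (κ → ι → ℝ) :=
    LinearEquiv.toContinuousLinearEquiv
      { toFun := tr ι κ
        invFun := tr κ ι
        map_add' := fun _ _ => rfl
        map_smul' := fun _ _ => rfl
        left_inv := fun _ => rfl
        right_inv := fun _ => rfl } with he
  have he1 : (e : (ι → κ → ℝ) → (κ → ι → ℝ)) = tr ι κ := rfl
  have hH : (Measure.map (tr ι κ) (volume : Measure (ι → κ → ℝ))).IsAddHaarMeasure := by
    rw [← he1]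
    exact e.isAddHaarMeasure_map volume
  refine ⟨hm, ?_⟩
  have hH' : (volume : Measure (κ → ι → ℝ)).IsAddHaarMeasure :=
    Measure.pi.isAddHaarMeasure (fun _ : κ => (volume : Measure (ι → ℝ)))
  obtain ⟨c, h⟩ : ∃ c : NNReal, Measure.map (tr ι κ) (volume : Measure (ι → κ → ℝ)) =
      c • (volume : Measure (κ → ι → ℝ)) :=
    ⟨_, Measure.isAddLeftInvariant_eq_smul
      (Measure.map (tr ι κ) (volume : Measure (ι → κ → ℝ))) (volume : Measure (κ → ι → ℝ))⟩
  set cube : Set (κ → ι → ℝ) := Set.univ.pi fun _ => Set.univ.pi fun _ => Set.Icc (0 : ℝ) 1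
    with hcube
  have hcm : MeasurableSet cube :=
    MeasurableSet.univ_pi fun _ => MeasurableSet.univ_pi fun _ => measurableSet_Icc
  have h1 : (volume : Measure (κ → ι → ℝ)) cube = 1 := by
    rw [hcube, volume_pi_pi]
    simp only [volume_pi_pi, Real.volume_Icc]
    simp
  have h2 : Measure.map (tr ι κ) (volume : Measure (ι → κ → ℝ)) cube = 1 := by
    rw [Measure.map_apply hm hcm]
    have : tr ι κ ⁻¹' cube = Set.univ.pi fun _ => Set.univ.pi fun _ => Set.Icc (0 : ℝ) 1 := by
      ext G
      simp only [hcube, tr, Set.mem_preimage, Set.mem_pi, Set.mem_univ, true_implies]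
      exact forall_comm
    rw [this, volume_pi_pi]
    simp only [volume_pi_pi, Real.volume_Icc]
    simp
  have h3 : c = 1 := by
    rw [h, Measure.smul_apply, h1] at h2
    have h4 : (c : ℝ≥0∞) = 1 := by
      rw [← h2]
      simp [ENNReal.smul_def]
    exact_mod_cast h4
  rw [h, h3, one_smul]

end Pool.Agent.V7H97.Cone
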