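import Pool.Agent.V7H97.ConeSym

set_option autoImplicit false

open MeasureTheory ENNReal Matrix

namespace Pool.Agent.V7H97.Cone

/-- positive hull -/
def pos {ι E : Type*} [Fintype ι] [AddCommGroup E] [Module ℝ E] (u : ι → E) : Set E :=
  {x | ∃ c : ι → ℝ, (∀ i, 0 ≤ c i) ∧ x = ∑ i, c i • u i}

/-- the relation `v ∈ pos u` is Borel -/
theorem measurableSet_pos {ι E : Type*} [Fintype ι] [NormedAddCommGroup E] [NormedSpace ℝ E]
    [SecondCountableTopology E] [MeasurableSpace E] [BorelSpace E] :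
    MeasurableSet {p : (ι → E) × E | p.2 ∈ pos p.1} := by
  have h : {p : (ι → E) × E | p.2 ∈ pos p.1} = ⋃ N : ℕ, Prod.fst ''
      ({q : ((ι → E) × E) × (ι → ℝ) | q.2 ∈ Set.Icc (0 : ι → ℝ) (fun _ => (N : ℝ)) ∧
        q.1.2 = ∑ i, q.2 i • q.1.1 i}) := by
    ext p
    simp only [Set.mem_ofPred_eq, Set.mem_iUnion, Set.mem_image, pos]
    constructor
    · rintro ⟨c, hc, hp⟩
      obtain ⟨N, hN⟩ := exists_nat_ge (∑ i, c i)
      refine ⟨N, ⟨p, c⟩, ⟨⟨fun i => hc i, fun i => ?_⟩, hp⟩, rfl⟩
      exact (Finset.single_le_sum (fun j _ => hc j) (Finset.mem_univ i)).trans hN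
    · rintro ⟨N, ⟨q, c⟩, ⟨hc, hq⟩, rfl⟩
      exact ⟨c, fun i => hc.1 i, hq⟩
  rw [h]
  refine MeasurableSet.iUnion fun N => IsClosed.measurableSet ?_
  have hcl : IsClosed {q : ((ι → E) × E) × (ι → ℝ) | q.1.2 = ∑ i, q.2 i • q.1.1 i} := by
    refine isClosed_eq (by fun_prop) ?_
    refine continuous_finsetSum _ fun i _ => ?_
    fun_prop
  -- projection along a compact set
  have hK : IsCompact (Set.Icc (0 : ι → ℝ) (fun _ => (N : ℝ))) := isCompact_Icc
  have hset : Prod.fst '' ({q : ((ι → E) × E) × (ι → ℝ) |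
      q.2 ∈ Set.Icc (0 : ι → ℝ) (fun _ => (N : ℝ)) ∧ q.1.2 = ∑ i, q.2 i • q.1.1 i}) =
      Prod.fst '' ({q : ((ι → E) × E) × Set.Icc (0 : ι → ℝ) (fun _ => (N : ℝ)) |
        q.1.2 = ∑ i, q.2.1 i • q.1.1 i}) := by
    ext p
    simp only [Set.mem_image, Set.mem_ofPred_eq]
    constructor
    · rintro ⟨q, ⟨h1, h2⟩, rfl⟩
      exact ⟨⟨q.1, ⟨q.2, h1⟩⟩, h2, rfl⟩
    · rintro ⟨q, h2, rfl⟩
      exact ⟨⟨q.1, q.2.1⟩, ⟨q.2.2, h2⟩, rfl⟩
  rw [hset]
  have : CompactSpace (Set.Icc (0 : ι → ℝ) (fun _ => (N : ℝ))) := isCompact_iff_compactSpace.1 hK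
  refine isClosedMap_fst_of_compactSpace _ ?_
  refine isClosed_eq (by fun_prop) ?_
  refine continuous_finsetSum _ fun i _ => ?_
  exact ((continuous_apply i).comp (continuous_subtype_val.comp continuous_snd)).smul
    ((continuous_apply i).comp (continuous_fst.comp continuous_fst))

/-- the determinant -/
noncomputable def dt {d : ℕ} (G : Fin d → Fin d → ℝ) : ℝ := (Matrix.of G).det

theorem measurable_dt {d : ℕ} : Measurable (dt (d := d)) := by
  have : Continuous fun G : Fin d → Fin d → ℝ => Matrix.det (Matrix.of G) :=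
    Continuous.matrix_det continuous_id
  exact this.measurable

/-- singular matrices are negligible -/
theorem det_null (d : ℕ) : (volume : Measure (Fin d → Fin d → ℝ)) {G | dt G = 0} = 0 := by
  have hmeas : MeasurableSet {G : Fin d → Fin d → ℝ | dt G = 0} :=
    measurableSet_eq_fun measurable_dt measurable_const
  set N := {G : Fin d → Fin d → ℝ | dt G = 0} with hN
  set I : Fin d → Fin d → ℝ := fun i j => (1 : Matrix (Fin d) (Fin d) ℝ) i j with hI
  have h1 : ∫⁻ G : Fin d → Fin d → ℝ, ∫⁻ t in Set.Icc (0 : ℝ) 1, N.indicator 1 (G + t • I) = 0 := by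
    rw [lintegral_eq_zero_iff']
    · refine Filter.Eventually.of_forall fun G => ?_
      simp only [Pi.zero_apply]
      have hfin : {t : ℝ | G + t • I ∈ N}.Finite := by
        have hne : (Matrix.charpoly (-(Matrix.of G))) ≠ 0 := (Matrix.charpoly_monic _).ne_zero
        refine (Polynomial.finite_setOfPred_isRoot hne).subset ?_
        intro t ht
        simp only [hN, Set.mem_ofPred_eq] at ht ⊢
        rw [Polynomial.IsRoot, Matrix.eval_charpoly, ← ht, dt]
        congr 1
        ext i j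
        simp [hI, Matrix.scalar_apply, Matrix.diagonal_apply, Matrix.one_apply]
        ring_nf
      have : ∫⁻ t in Set.Icc (0 : ℝ) 1, N.indicator 1 (G + t • I) ≤
          ∫⁻ t, {t : ℝ | G + t • I ∈ N}.indicator 1 t := by
        refine (setLIntegral_le_lintegral _ _).trans (lintegral_mono fun t => ?_)
        by_cases h : G + t • I ∈ N
        · simp [h]
        · simp [h]
      refine le_antisymm (this.trans ?_) zero_le
      rw [lintegral_indicator_one hfin.measurableSet, hfin.measure_zero]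
    · refine Measurable.aemeasurable ?_
      refine Measurable.lintegral_prod_right' (f := fun p : (Fin d → Fin d → ℝ) × ℝ =>
        N.indicator 1 (p.1 + p.2 • I)) ?_
      exact (measurable_one.indicator hmeas).comp (by fun_prop)
  have h2 : ∫⁻ G : Fin d → Fin d → ℝ, ∫⁻ t in Set.Icc (0 : ℝ) 1, N.indicator 1 (G + t • I) =
      volume N := by
    rw [lintegral_lintegral_swap]
    · have : ∀ t : ℝ, ∫⁻ G : Fin d → Fin d → ℝ, N.indicator 1 (G + t • I) = volume N := by
        intro t
        rw [lintegral_add_right_eq_self (μ := (volume : Measure (Fin d → Fin d → ℝ)))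
          (fun G => N.indicator (1 : (Fin d → Fin d → ℝ) → ℝ≥0∞) G) (t • I)]
        exact lintegral_indicator_one hmeas
      simp only [this]
      simp
    · refine Measurable.aemeasurable ?_
      exact (measurable_one.indicator hmeas).comp (by fun_prop)
  rw [← h2, h1]

end Pool.Agent.V7H97.Cone
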