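import Pool.Agent.V7H97.ConeSym2

set_option autoImplicit false

open MeasureTheory ENNReal Matrix

namespace Pool.Agent.V7H97.Cone

open scoped MatrixOrder in
/-- factorisation of a positive definite matrix -/
theorem exists_factor {d k : ℕ} (A : Matrix (Fin k) (Fin d) ℝ) :
    ∃ B : Matrix (Fin d) (Fin d) ℝ, Bᵀ * B = 1 + Aᵀ * A ∧ B.det ≠ 0 ∧
      |B.det| = Real.sqrt (1 + Aᵀ * A).det := by
  have hP : (1 + Aᵀ * A).PosDef := by
    have h1 : (1 : Matrix (Fin d) (Fin d) ℝ).PosDef := Matrix.PosDef.one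
    have h2 := Matrix.posSemidef_conjTranspose_mul_self A
    rw [Matrix.conjTranspose_eq_transpose_of_trivial] at h2
    exact h1.add_posSemidef h2
  obtain ⟨B, hB⟩ : ∃ B : Matrix (Fin d) (Fin d) ℝ, 1 + Aᵀ * A = Bᵀ * B := by
    have h3 := (CStarAlgebra.nonneg_iff_eq_star_mul_self (a := (1 + Aᵀ * A))).1
      (Matrix.nonneg_iff_posSemidef.2 hP.posSemidef)
    obtain ⟨B, hB⟩ := h3
    refine ⟨B, ?_⟩
    rw [hB, Matrix.star_eq_conjTranspose, Matrix.conjTranspose_eq_transpose_of_trivial]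
  have hdet : B.det ^ 2 = (1 + Aᵀ * A).det := by
    rw [hB, Matrix.det_mul, Matrix.det_transpose, sq]
  refine ⟨B, hB.symm, ?_, ?_⟩
  · intro h0
    have := hP.det_pos
    rw [← hdet, h0] at this
    simp at this
  · rw [← hdet, Real.sqrt_sq_eq_abs]

/-- the constant -/
noncomputable def C (d k : ℕ) : ℝ≥0∞ :=
  ∫⁻ H : Fin d → Fin d → ℝ, ENNReal.ofReal (|dt H| ^ k) * wm H

/-- the density -/
noncomputable def D (d k : ℕ) (A : Fin k → Fin d → ℝ) : ℝ≥0∞ :=
  ENNReal.ofReal (((Real.sqrt ((1 + (Matrix.of A)ᵀ * Matrix.of A).det))⁻¹) ^ (d + k))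

theorem measurable_D (d k : ℕ) : Measurable (D d k) := by
  unfold D
  refine ENNReal.measurable_ofReal.comp ?_
  refine Measurable.pow_const (Measurable.inv (Real.continuous_sqrt.measurable.comp ?_)) _
  have : Continuous fun A : Fin k → Fin d → ℝ => (1 + (Matrix.of A)ᵀ * Matrix.of A).det := by
    refine Continuous.matrix_det ?_
    refine continuous_const.add ?_
    exact Continuous.matrix_mul (Continuous.matrix_transpose continuous_id) continuous_id
  exact this.measurable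

theorem inner_eq (d k : ℕ) (A : Fin k → Fin d → ℝ) :
    ∫⁻ H : Fin d → Fin d → ℝ, wm H * (ENNReal.ofReal (|dt H| ^ k) *
      wm (fun j => A j ᵥ* (Matrix.of H)ᵀ)) = C d k * D d k A := by
  obtain ⟨B, hB, hB0, hBd⟩ := exists_factor (Matrix.of A)
  have hexp : ∀ H : Fin d → Fin d → ℝ, wm H * wm (fun j => A j ᵥ* (Matrix.of H)ᵀ) =
      wm (fun i => H i ᵥ* Bᵀ) := by
    intro H
    simp only [wm_eq]
    rw [← ENNReal.ofReal_mul (Real.exp_pos _).le, ← Real.exp_add]
    congr 2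
    rw [← neg_add, ← mul_add]
    congr 2
    have h1 : ∀ i, (H i ᵥ* Bᵀ) ⬝ᵥ (H i ᵥ* Bᵀ) = H i ⬝ᵥ H i +
        ((Matrix.of A) *ᵥ H i) ⬝ᵥ ((Matrix.of A) *ᵥ H i) := by
      intro i
      rw [Matrix.vecMul_transpose, Matrix.dotProduct_mulVec, Matrix.vecMul_mulVec, hB]
      rw [Matrix.vecMul_add, Matrix.vecMul_one, add_dotProduct]
      congr 1
      rw [Matrix.dotProduct_mulVec, Matrix.vecMul_mulVec]
    simp only [h1, Finset.sum_add_distrib]
    congr 1
    have h2 : ∀ j, (A j ᵥ* (Matrix.of H)ᵀ) ⬝ᵥ (A j ᵥ* (Matrix.of H)ᵀ) =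
        ∑ i, (((Matrix.of A) *ᵥ H i) j) * (((Matrix.of A) *ᵥ H i) j) := by
      intro j
      unfold dotProduct
      refine Finset.sum_congr rfl fun i _ => ?_
      have : (A j ᵥ* (Matrix.of H)ᵀ) i = ((Matrix.of A) *ᵥ H i) j := by
        simp [Matrix.vecMul, Matrix.mulVec, dotProduct]
      rw [this]
    simp only [h2]
    rw [Finset.sum_comm]
    rfl
  have hre : ∀ H : Fin d → Fin d → ℝ, wm H * (ENNReal.ofReal (|dt H| ^ k) *
      wm (fun j => A j ᵥ* (Matrix.of H)ᵀ)) =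
      ENNReal.ofReal ((|B.det|⁻¹) ^ k) *
      (ENNReal.ofReal (|dt (fun i => H i ᵥ* Bᵀ)| ^ k) * wm (fun i => H i ᵥ* Bᵀ)) := by
    intro H
    rw [← hexp]
    have hd : dt (fun i => H i ᵥ* Bᵀ) = dt H * B.det := by
      unfold dt
      rw [← Matrix.det_transpose B, ← Matrix.det_mul]
      congr 1
    rw [hd, abs_mul, mul_pow, ENNReal.ofReal_mul (by positivity)]
    have h3 : ENNReal.ofReal ((|B.det|⁻¹) ^ k) * ENNReal.ofReal (|B.det| ^ k) = 1 := by
      rw [← ENNReal.ofReal_mul (by positivity), ← mul_pow, inv_mul_cancel₀ (abs_ne_zero.2 hB0)]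
      simp
    calc wm H * (ENNReal.ofReal (|dt H| ^ k) *
          wm (fun j => A j ᵥ* (Matrix.of H)ᵀ))
        = 1 * (ENNReal.ofReal (|dt H| ^ k) *
          (wm H * wm (fun j => A j ᵥ* (Matrix.of H)ᵀ))) := by ring
      _ = _ := by rw [← h3]; ring
  simp only [hre]
  have hF : Measurable fun H : Fin d → Fin d → ℝ => ENNReal.ofReal (|dt H| ^ k) * wm H :=
    (ENNReal.measurable_ofReal.comp (measurable_dt.abs.pow_const _)).mul measurable_wm
  have hBt : (Bᵀ).det ≠ 0 := by rwa [Matrix.det_transpose]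
  have hmul : Measurable fun H : Fin d → Fin d → ℝ => (fun i => H i ᵥ* Bᵀ) := by
    refine measurable_pi_lambda _ fun i => measurable_pi_lambda _ fun j => ?_
    simp only [Matrix.vecMul, dotProduct]
    fun_prop
  have hFm : Measurable fun H : Fin d → Fin d → ℝ =>
      (ENNReal.ofReal (|dt (fun i => H i ᵥ* Bᵀ)| ^ k) * wm (fun i => H i ᵥ* Bᵀ)) := hF.comp hmul
  rw [lintegral_const_mul _ hFm]
  have h5 := lintegral_rowmul (ι := Fin d) Bᵀ hBt _ hF
  rw [Matrix.det_transpose, Fintype.card_fin] at h5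
  have h6 : ENNReal.ofReal ((|B.det|⁻¹) ^ d) * ENNReal.ofReal (|B.det| ^ d) = 1 := by
    rw [← ENNReal.ofReal_mul (by positivity), ← mul_pow, inv_mul_cancel₀ (abs_ne_zero.2 hB0)]
    simp
  have h7 : ∫⁻ H : Fin d → Fin d → ℝ, (ENNReal.ofReal (|dt (fun i => H i ᵥ* Bᵀ)| ^ k) *
      wm (fun i => H i ᵥ* Bᵀ)) = ENNReal.ofReal ((|B.det|⁻¹) ^ d) * C d k := by
    unfold C
    rw [← h5, ← mul_assoc, h6, one_mul]
  rw [h7]
  unfold D
  rw [← hBd, pow_add, ENNReal.ofReal_mul (by positivity)]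
  ring

theorem measurable_vecMulT {d k : ℕ} :
    Measurable fun p : (Fin d → Fin d → ℝ) × (Fin k → Fin d → ℝ) =>
      (fun j => p.2 j ᵥ* (Matrix.of p.1)ᵀ : Fin k → Fin d → ℝ) := by
  refine measurable_pi_lambda _ fun i => measurable_pi_lambda _ fun j => ?_
  simp only [Matrix.vecMul, dotProduct, Matrix.transpose_apply, Matrix.of_apply]
  refine Finset.measurable_sum _ fun l _ => Measurable.mul ?_ ?_
  · exact (measurable_pi_apply l).comp ((measurable_pi_apply i).comp measurable_snd)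
  · exact (measurable_pi_apply l).comp ((measurable_pi_apply j).comp measurable_fst)

/-- the joint density -/
noncomputable def Phi (d k : ℕ) (p : (Fin d → Fin d → ℝ) × (Fin k → Fin d → ℝ)) : ℝ≥0∞ :=
  wm p.1 * (ENNReal.ofReal (|dt p.1| ^ k) * wm (fun j => p.2 j ᵥ* (Matrix.of p.1)ᵀ))

theorem measurable_Phi (d k : ℕ) : Measurable (Phi d k) := by
  unfold Phi
  exact (measurable_wm.comp measurable_fst).mul
      ((ENNReal.measurable_ofReal.comp ((measurable_dt.comp measurable_fst).abs.pow_const _)).mul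
        (measurable_wm.comp measurable_vecMulT))

theorem inner_eq' (d k : ℕ) (A : Fin k → Fin d → ℝ) :
    ∫⁻ H : Fin d → Fin d → ℝ, Phi d k (H, A) = C d k * D d k A := inner_eq d k A

/-- the law of the coefficients -/
theorem law_eq (d k : ℕ) (I : (Fin k → Fin d → ℝ) → ℝ≥0∞) (hI : Measurable I) :
    ∫⁻ H : Fin d → Fin d → ℝ, ∫⁻ A : Fin k → Fin d → ℝ, Phi d k (H, A) * I A =
      C d k * ∫⁻ A, D d k A * I A := by
  have h1 : Measurable fun p : (Fin d → Fin d → ℝ) × (Fin k → Fin d → ℝ) => Phi d k p * I p.2 :=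
    (measurable_Phi d k).mul (hI.comp measurable_snd)
  rw [lintegral_lintegral_swap h1.aemeasurable]
  have h2 : ∀ A : Fin k → Fin d → ℝ, ∫⁻ H : Fin d → Fin d → ℝ, Phi d k (H, A) * I A =
      C d k * (D d k A * I A) := by
    intro A
    have hm : Measurable fun H : Fin d → Fin d → ℝ => Phi d k (H, A) :=
      (measurable_Phi d k).comp measurable_prodMk_right
    rw [lintegral_mul_const (I A) hm, inner_eq', mul_assoc]
  have h3 : Measurable fun A => D d k A * I A := (measurable_D d k).mul hI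
  exact (lintegral_congr h2).trans (lintegral_const_mul (C d k) h3)

end Pool.Agent.V7H97.Cone
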