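import Pool.Agent.V7H97.ConeSym3

set_option autoImplicit false

open MeasureTheory ENNReal Matrix

namespace Pool.Agent.V7H97.Cone

theorem wm_tr {d k : ℕ} (H : Fin d → Fin k → ℝ) : wm (tr (Fin d) (Fin k) H) = wm H := by
  rw [wm_eq, wm_eq]
  congr 4
  unfold dotProduct tr
  exact Finset.sum_comm

theorem push (d k : ℕ) (K : (Fin d → Fin d → ℝ) × (Fin k → Fin d → ℝ) → ℝ≥0∞)
    (hK : Measurable K) (I : (Fin k → Fin d → ℝ) → ℝ≥0∞) (hI : Measurable I)
    (h : ∀ (H : Fin d → Fin d → ℝ) (A : Fin k → Fin d → ℝ), dt H ≠ 0 →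
      K (tr _ _ H, fun j => A j ᵥ* (Matrix.of H)ᵀ) = I A) :
    ∫⁻ G : Fin d → Fin d → ℝ, ∫⁻ V : Fin k → Fin d → ℝ, wm G * (wm V * K (G, V)) =
      C d k * ∫⁻ A, D d k A * I A := by
  rw [← law_eq d k I hI]
  have hm : Measurable fun G : Fin d → Fin d → ℝ =>
      ∫⁻ V : Fin k → Fin d → ℝ, wm G * (wm V * K (G, V)) := by
    refine Measurable.lintegral_prod_right' (f := fun p : (Fin d → Fin d → ℝ) ×
      (Fin k → Fin d → ℝ) => wm p.1 * (wm p.2 * K p)) ?_
    exact (measurable_wm.comp measurable_fst).mul ((measurable_wm.comp measurable_snd).mul hK)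
  rw [← (tr_preserving (Fin d) (Fin d)).lintegral_comp hm]
  refine lintegral_congr_ae ?_
  have hne : ∀ᵐ H : Fin d → Fin d → ℝ, dt H ≠ 0 := by
    rw [ae_iff]
    simpa using det_null d
  filter_upwards [hne] with H hH
  have hF : Measurable fun V : Fin k → Fin d → ℝ =>
      wm (tr (Fin d) (Fin d) H) * (wm V * K (tr (Fin d) (Fin d) H, V)) :=
    measurable_const.mul (measurable_wm.mul (hK.comp measurable_prodMk_left))
  have hdet : ((Matrix.of H)ᵀ).det ≠ 0 := by rwa [Matrix.det_transpose]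
  have h1 := lintegral_rowmul (ι := Fin k) (Matrix.of H)ᵀ hdet _ hF
  rw [← h1, Fintype.card_fin, Matrix.det_transpose]
  have hF2 : Measurable fun A : Fin k → Fin d → ℝ => wm (tr (Fin d) (Fin d) H) *
      (wm (fun j => A j ᵥ* (Matrix.of H)ᵀ) *
        K (tr (Fin d) (Fin d) H, fun j => A j ᵥ* (Matrix.of H)ᵀ)) := by
    refine hF.comp (g := fun V : Fin k → Fin d → ℝ =>
      wm (tr (Fin d) (Fin d) H) * (wm V * K (tr (Fin d) (Fin d) H, V))) ?_
    exact measurable_vecMulT.comp (measurable_prodMk_left (x := H))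
  rw [← lintegral_const_mul _ hF2]
  refine lintegral_congr fun A => ?_
  rw [h H A hH, wm_tr]
  unfold Phi dt
  ring

/-- the event that all the rows of `V` are in the positive hull of the rows of `G` -/
def Sset (d k : ℕ) : Set ((Fin d → Fin d → ℝ) × (Fin k → Fin d → ℝ)) :=
  {p | ∀ j, p.2 j ∈ pos p.1}

theorem measurableSet_Sset (d k : ℕ) : MeasurableSet (Sset d k) := by
  have : Sset d k = ⋂ j, (fun p : (Fin d → Fin d → ℝ) × (Fin k → Fin d → ℝ) => (p.1, p.2 j)) ⁻¹'
      {p : (Fin d → Fin d → ℝ) × (Fin d → ℝ) | p.2 ∈ pos p.1} := by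
    ext p
    simp [Sset]
  rw [this]
  refine MeasurableSet.iInter fun j => ?_
  exact (measurable_fst.prodMk ((measurable_pi_apply j).comp measurable_snd))
    measurableSet_pos

/-- the probability that `k` random vectors are in the positive hull of `d` random vectors
of `ℝ^d` -/
noncomputable def Q (d k : ℕ) : ℝ≥0∞ :=
  ∫⁻ G : Fin d → Fin d → ℝ, ∫⁻ V : Fin k → Fin d → ℝ, wm G * (wm V * (Sset d k).indicator 1 (G, V))

/-- nonnegative matrices -/
def Nset (d k : ℕ) : Set (Fin k → Fin d → ℝ) := {A | ∀ j i, 0 ≤ A j i}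

theorem measurableSet_Nset (d k : ℕ) : MeasurableSet (Nset d k) := by
  have : Nset d k = ⋂ j, ⋂ i, (fun A : Fin k → Fin d → ℝ => A j i) ⁻¹' Set.Ici 0 := by
    ext A
    simp [Nset]
  rw [this]
  refine MeasurableSet.iInter fun j => MeasurableSet.iInter fun i => ?_
  exact ((measurable_pi_apply i).comp (measurable_pi_apply j)) measurableSet_Ici

theorem mem_pos_vecMul {d : ℕ} (H : Fin d → Fin d → ℝ) (hH : dt H ≠ 0) (a : Fin d → ℝ) :
    (a ᵥ* (Matrix.of H)ᵀ) ∈ pos (tr (Fin d) (Fin d) H) ↔ ∀ i, 0 ≤ a i := by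
  have h1 : ∀ c : Fin d → ℝ, ∑ i, c i • tr (Fin d) (Fin d) H i = c ᵥ* (Matrix.of H)ᵀ := by
    intro c
    ext j
    simp [Matrix.vecMul, dotProduct, tr, Finset.sum_apply]
  constructor
  · rintro ⟨c, hc, h⟩
    rw [h1 c] at h
    have hinj : Function.Injective fun c : Fin d → ℝ => c ᵥ* (Matrix.of H)ᵀ := by
      rw [Matrix.vecMul_injective_iff_isUnit, Matrix.isUnit_iff_isUnit_det,
        Matrix.det_transpose]
      exact isUnit_iff_ne_zero.2 hH
    have := hinj h
    rw [this]; exact hc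
  · intro ha
    exact ⟨a, ha, (h1 a).symm⟩

theorem Q_eq (d k : ℕ) : Q d k = C d k * ∫⁻ A, D d k A * (Nset d k).indicator 1 A := by
  refine push d k _ (measurable_one.indicator (measurableSet_Sset d k)) _
    (measurable_one.indicator (measurableSet_Nset d k)) fun H A hH => ?_
  have : (tr (Fin d) (Fin d) H, fun j => A j ᵥ* (Matrix.of H)ᵀ) ∈ Sset d k ↔ A ∈ Nset d k := by
    unfold Sset Nset
    simp only [Set.mem_ofPred_eq]
    exact forall_congr' fun j => mem_pos_vecMul H hH (A j)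
  by_cases hA : A ∈ Nset d k
  · rw [Set.indicator_of_mem hA, Set.indicator_of_mem (this.2 hA)]
    rfl
  · rw [Set.indicator_of_notMem hA, Set.indicator_of_notMem (fun h => hA (this.1 h))]

theorem total_eq (d k : ℕ) : C d k * ∫⁻ A, D d k A = 1 := by
  have h := push d k (fun _ => 1) measurable_const (fun _ => 1) measurable_const
    (fun _ _ _ => rfl)
  simp only [mul_one] at h
  rw [← h]
  have h1 : ∀ G : Fin d → Fin d → ℝ, ∫⁻ V : Fin k → Fin d → ℝ, wm G * wm V = wm G := by
    intro G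
    rw [lintegral_const_mul _ measurable_wm, lintegral_wm, mul_one]
  simp only [h1, lintegral_wm]

theorem D_tr (d k : ℕ) (A : Fin k → Fin d → ℝ) : D k d (tr _ _ A) = D d k A := by
  unfold D
  have h1 : (Matrix.of (tr (Fin k) (Fin d) A)) = (Matrix.of A)ᵀ := rfl
  rw [h1, Matrix.transpose_transpose, Matrix.det_one_add_mul_comm, add_comm k d]

/-- symmetry -/
theorem Q_symm (d k : ℕ) : Q d k = Q k d := by
  have hD : ∫⁻ A, D k d A = ∫⁻ A, D d k A := by
    rw [← (tr_preserving (Fin k) (Fin d)).lintegral_comp (measurable_D k d)]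
    simp only [D_tr]
  have hN : ∫⁻ A, D k d A * (Nset k d).indicator 1 A =
      ∫⁻ A, D d k A * (Nset d k).indicator 1 A := by
    have hm : Measurable fun A => D k d A * (Nset k d).indicator (1 : (Fin d → Fin k → ℝ) → ℝ≥0∞) A :=
      (measurable_D k d).mul (measurable_one.indicator (measurableSet_Nset k d))
    rw [← (tr_preserving (Fin k) (Fin d)).lintegral_comp hm]
    refine lintegral_congr fun A => ?_
    rw [D_tr]
    congr 1
    have : tr (Fin k) (Fin d) A ∈ Nset k d ↔ A ∈ Nset d k := by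
      unfold Nset tr
      simp only [Set.mem_ofPred_eq]
      exact forall_comm
    by_cases hA : A ∈ Nset d k
    · rw [Set.indicator_of_mem hA, Set.indicator_of_mem (this.2 hA)]
      rfl
    · rw [Set.indicator_of_notMem hA, Set.indicator_of_notMem (fun h => hA (this.1 h))]
  have h1 := total_eq d k
  have h2 := total_eq k d
  rw [hD] at h2
  have hC : C d k = C k d := by
    have h3 : (∫⁻ A, D d k A) ≠ 0 := by
      intro h0
      rw [h0, mul_zero] at h1
      exact zero_ne_one h1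
    have h4 : (∫⁻ A, D d k A) ≠ ∞ := by
      intro h0
      have hC0 : C d k ≠ 0 := by
        intro h5
        rw [h5, zero_mul] at h1
        exact zero_ne_one h1
      rw [h0, ENNReal.mul_top hC0] at h1
      exact ENNReal.top_ne_one h1
    exact (ENNReal.mul_left_inj h3 h4).1 (h1.trans h2.symm)
  rw [Q_eq, Q_eq, hN, hC]

end Pool.Agent.V7H97.Cone
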