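import Mathlib

set_option autoImplicit false

namespace Pool.Agent.V7H97.HCR

variable {A : Type*} [AddCommGroup A]

/-- A Hammersley-Chapman-Robbins bound for discrete Gaussian sums: a lower bound for the second
moment of a linear functional in terms of finitely many lattice shifts. -/
theorem hcr (B : A → A → ℝ) (hs : ∀ a b, B a b = B b a) (ha : ∀ a b c, B (a + b) c = B a c + B b c)
    (u : A → ℝ) (hu : ∀ a b, u (a + b) = u a + u b)
    (hW : Summable fun a => Real.exp (-B a a))
    (hU : Summable fun a => u a ^ 2 * Real.exp (-B a a))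
    {ι : Type*} (s : Finset ι) (τ : ι → A) (R : ℝ) (hRpos : 0 < R)
    (hR : ∑ i ∈ s, ∑ j ∈ s, (Real.exp (2 * B (τ i) (τ j)) - 1) ≤ R) :
    (∑ i ∈ s, u (τ i)) ^ 2 / R * ∑' a, Real.exp (-B a a) ≤
      ∑' a, u a ^ 2 * Real.exp (-B a a) := by
  set W : A → ℝ := fun a => Real.exp (-B a a) with hWdef
  have hB0 : ∀ c, B 0 c = 0 := by
    intro c
    have := ha 0 0 c
    rw [add_zero] at this
    linarith
  have hneg : ∀ a c, B (-a) c = -B a c := by
    intro a c
    have := ha a (-a) c
    rw [add_neg_cancel, hB0] at this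
    linarith
  have hsub : ∀ a b c, B (a - b) c = B a c - B b c := by
    intro a b c
    rw [sub_eq_add_neg, ha, hneg]; ring
  have ha' : ∀ a b c, B c (a + b) = B c a + B c b := by
    intro a b c
    rw [hs, ha, hs a, hs b]
  have hsub' : ∀ a b c, B c (a - b) = B c a - B c b := by
    intro a b c
    rw [hs, hsub, hs a, hs b]
  have hu0 : u 0 = 0 := by
    have := hu 0 0
    rw [add_zero] at this
    linarith
  have husub : ∀ a b, u (a - b) = u a - u b := by
    intro a b
    have := hu (a - b) b
    rw [sub_add_cancel] at this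
    linarith
  -- the weights after a shift
  set e : ι → A → ℝ := fun i a => Real.exp (2 * B a (τ i) - B (τ i) (τ i)) with he
  have he1 : ∀ i a, e i a * W a = W (a - τ i) := by
    intro i a
    simp only [he, hWdef]
    rw [← Real.exp_add]
    congr 1
    rw [hsub, hsub', hsub', hs (τ i) a]
    ring
  have he2 : ∀ i j a, e i a * e j a * W a =
      Real.exp (2 * B (τ i) (τ j)) * W (a - (τ i + τ j)) := by
    intro i j a
    simp only [he, hWdef]
    rw [← Real.exp_add, ← Real.exp_add, ← Real.exp_add]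
    congr 1
    simp only [hsub, hsub', ha, ha']
    rw [hs (τ i) a, hs (τ j) a, hs (τ j) (τ i)]
    ring
  set Z : ℝ := ∑' a, W a with hZ
  have hZ0 : 0 ≤ Z := tsum_nonneg fun a => (Real.exp_pos _).le
  have hsumW : HasSum W Z := hW.hasSum
  have hshift : ∀ t : A, HasSum (fun a => W (a - t)) Z := by
    intro t
    exact (Equiv.subRight t).hasSum_iff.2 hsumW
  have huW : Summable fun a => u a * W a := by
    refine Summable.of_norm_bounded (g := fun a => W a + u a ^ 2 * W a) (hW.add hU) fun a => ?_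
    rw [Real.norm_eq_abs, abs_mul, abs_of_pos (Real.exp_pos _ : 0 < W a)]
    have h1 : |u a| ≤ 1 + u a ^ 2 := by
      rw [← sq_abs]; nlinarith [sq_nonneg (|u a| - 1), abs_nonneg (u a)]
    have h2 : 0 < W a := Real.exp_pos _
    nlinarith
  set Y : ℝ := ∑' a, u a * W a with hY
  have hsumuW : HasSum (fun a => u a * W a) Y := huW.hasSum
  have hushift : ∀ t : A, HasSum (fun a => u a * W (a - t)) (Y + u t * Z) := by
    intro t
    have h1 : HasSum (fun a => u (a - t) * W (a - t)) Y :=
      (Equiv.subRight t).hasSum_iff.2 hsumuW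
    have h2 := h1.add ((hshift t).mul_left (u t))
    refine h2.congr_fun fun a => ?_
    rw [husub]; ring
  set S : ℝ := ∑' a, u a ^ 2 * W a with hS
  have hsumU : HasSum (fun a => u a ^ 2 * W a) S := hU.hasSum
  set F : A → ℝ := fun a => ∑ i ∈ s, (e i a - 1) with hF
  set K : ℝ := ∑ i ∈ s, u (τ i) with hK
  have h1 : HasSum (fun a => u a * F a * W a) (K * Z) := by
    have : HasSum (fun a => ∑ i ∈ s, (u a * W (a - τ i) - u a * W a))
        (∑ i ∈ s, ((Y + u (τ i) * Z) - Y)) :=
      hasSum_sum fun i _ => (hushift (τ i)).sub hsumuW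
    convert this using 1
    · funext a
      simp only [hF]
      rw [Finset.mul_sum, Finset.sum_mul]
      refine Finset.sum_congr rfl fun i _ => ?_
      rw [← he1 i a]; ring
    · rw [hK, Finset.sum_mul]
      refine Finset.sum_congr rfl fun i _ => ?_
      ring
  set R' : ℝ := ∑ i ∈ s, ∑ j ∈ s, (Real.exp (2 * B (τ i) (τ j)) - 1) with hR'
  have h2 : HasSum (fun a => F a ^ 2 * W a) (R' * Z) := by
    have : HasSum (fun a => ∑ i ∈ s, ∑ j ∈ s, (Real.exp (2 * B (τ i) (τ j)) * W (a - (τ i + τ j))
        - W (a - τ i) - W (a - τ j) + W a))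
        (∑ i ∈ s, ∑ j ∈ s, (Real.exp (2 * B (τ i) (τ j)) * Z - Z - Z + Z)) :=
      hasSum_sum fun i _ => hasSum_sum fun j _ =>
        ((((hshift (τ i + τ j)).mul_left _).sub (hshift (τ i))).sub (hshift (τ j))).add hsumW
    convert this using 1
    · funext a
      simp only [hF]
      rw [sq, Finset.sum_mul_sum, Finset.sum_mul]
      refine Finset.sum_congr rfl fun i _ => ?_
      rw [Finset.sum_mul]
      refine Finset.sum_congr rfl fun j _ => ?_
      rw [← he2 i j a, ← he1 i a, ← he1 j a]; ring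
    · rw [hR', Finset.sum_mul]
      refine Finset.sum_congr rfl fun i _ => ?_
      rw [Finset.sum_mul]
      refine Finset.sum_congr rfl fun j _ => ?_
      ring
  have h3 : HasSum (fun a => (u a - K / R * F a) ^ 2 * W a)
      (S - 2 * (K / R) * (K * Z) + (K / R) ^ 2 * (R' * Z)) := by
    have := (hsumU.sub (h1.mul_left (2 * (K / R)))).add (h2.mul_left ((K / R) ^ 2))
    refine this.congr_fun fun a => ?_
    ring
  have h4 : 0 ≤ S - 2 * (K / R) * (K * Z) + (K / R) ^ 2 * (R' * Z) :=
    h3.nonneg fun a => mul_nonneg (sq_nonneg _) (Real.exp_pos _).le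
  have h5 : (K / R) ^ 2 * (R' * Z) ≤ (K / R) ^ 2 * (R * Z) := by gcongr
  have h6 : (K / R) ^ 2 * (R * Z) = K ^ 2 / R * Z := by
    field_simp
  have h7 : 2 * (K / R) * (K * Z) = 2 * (K ^ 2 / R * Z) := by
    field_simp
  linarith

end Pool.Agent.V7H97.HCR
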