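import Pool.Agent.V7H97.Chain

set_option autoImplicit false

namespace Pool.Agent.V7H97.Chain

open Finset

/-- the energy density of the tent function -/
noncomputable def h (α : ℝ) (M : ℕ) (d : ℤ) : ℝ := g α d * (min ((|d| : ℤ) : ℝ) M) ^ 2

theorem h_nonneg (α : ℝ) (M : ℕ) (d : ℤ) : 0 ≤ h α M d :=
  mul_nonneg (g_nonneg _ _) (sq_nonneg _)

theorem h_neg (α : ℝ) (M : ℕ) (d : ℤ) : h α M (-d) = h α M d := by
  unfold h; rw [g_neg, abs_neg]

theorem summable_h (α : ℝ) (hα : 1 < α) (M : ℕ) : Summable (h α M) := by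
  refine ((summable_g α hα).mul_right ((M : ℝ) ^ 2)).of_nonneg_of_le (h_nonneg α M) fun d => ?_
  unfold h
  refine mul_le_mul_of_nonneg_left ?_ (g_nonneg _ _)
  have h0 : (0 : ℝ) ≤ min ((|d| : ℤ) : ℝ) M := le_min (by positivity) (by positivity)
  have h1 : min ((|d| : ℤ) : ℝ) M ≤ M := min_le_right _ _
  gcongr

/-- the tent -/
theorem tent (N : ℕ) (x : ℤ) : ∑ m ∈ Finset.range (N + 1), tau m x = max (N + 1 - |x|) 0 := by
  induction N with
  | zero =>
    simp only [zero_add, Finset.sum_range_one, tau]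
    have := abs_nonneg x
    push_cast
    split_ifs <;> omega
  | succ n ih =>
    rw [Finset.sum_range_succ, ih]
    unfold tau
    have := abs_nonneg x
    push_cast
    split_ifs <;> omega

theorem tent_diff (N : ℕ) (x y : ℤ) :
    ((∑ m ∈ Finset.range (N + 1), (tau m x : ℝ)) - ∑ m ∈ Finset.range (N + 1), (tau m y : ℝ)) ^ 2 ≤
      (min ((|x - y| : ℤ) : ℝ) ((N + 1 : ℕ) : ℝ)) ^ 2 *
        ((if |x| ≤ N then 1 else 0) + (if |y| ≤ N then 1 else 0)) := by
  have h1 : (∑ m ∈ Finset.range (N + 1), (tau m x : ℝ)) = ((max (N + 1 - |x|) 0 : ℤ) : ℝ) := by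
    rw [← tent]; push_cast; rfl
  have h2 : (∑ m ∈ Finset.range (N + 1), (tau m y : ℝ)) = ((max (N + 1 - |y|) 0 : ℤ) : ℝ) := by
    rw [← tent]; push_cast; rfl
  rw [h1, h2, ← Int.cast_sub]
  have hx := abs_nonneg x
  have hy := abs_nonneg y
  have hxy := abs_abs_sub_abs_le_abs_sub x y
  have hxy1 := (abs_le.1 hxy).1
  have hxy2 := (abs_le.1 hxy).2
  by_cases hxN : |x| ≤ N
  · have h3 : |max ((N : ℤ) + 1 - |x|) 0 - max ((N : ℤ) + 1 - |y|) 0| ≤
        min |x - y| ((N : ℤ) + 1) := by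
      rw [abs_le, le_min_iff]
      constructor
      · rw [neg_le_iff_add_nonneg]; omega
      · constructor <;> omega
    have h4 : ((max ((N : ℤ) + 1 - |x|) 0 - max ((N : ℤ) + 1 - |y|) 0 : ℤ) : ℝ) ^ 2 ≤
        (min ((|x - y| : ℤ) : ℝ) ((N + 1 : ℕ) : ℝ)) ^ 2 := by
      rw [← sq_abs]
      have : ((|max ((N : ℤ) + 1 - |x|) 0 - max ((N : ℤ) + 1 - |y|) 0| : ℤ) : ℝ) ≤
        ((min |x - y| ((N : ℤ) + 1) : ℤ) : ℝ) := by exact_mod_cast h3
      rw [Int.cast_abs, Int.cast_min] at this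
      push_cast at this ⊢
      gcongr
    refine h4.trans ?_
    rw [if_pos hxN]
    refine le_mul_of_one_le_right (sq_nonneg _) ?_
    have := ite_nonneg' (|y| ≤ (N : ℤ))
    linarith
  · by_cases hyN : |y| ≤ N
    · have h3 : |max ((N : ℤ) + 1 - |x|) 0 - max ((N : ℤ) + 1 - |y|) 0| ≤
          min |x - y| ((N : ℤ) + 1) := by
        rw [abs_le, le_min_iff]
        constructor
        · rw [neg_le_iff_add_nonneg]; omega
        · constructor <;> omega
      have h4 : ((max ((N : ℤ) + 1 - |x|) 0 - max ((N : ℤ) + 1 - |y|) 0 : ℤ) : ℝ) ^ 2 ≤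
          (min ((|x - y| : ℤ) : ℝ) ((N + 1 : ℕ) : ℝ)) ^ 2 := by
        rw [← sq_abs]
        have : ((|max ((N : ℤ) + 1 - |x|) 0 - max ((N : ℤ) + 1 - |y|) 0| : ℤ) : ℝ) ≤
          ((min |x - y| ((N : ℤ) + 1) : ℤ) : ℝ) := by exact_mod_cast h3
        rw [Int.cast_abs, Int.cast_min] at this
        push_cast at this ⊢
        gcongr
      refine h4.trans ?_
      rw [if_pos hyN]
      refine le_mul_of_one_le_right (sq_nonneg _) ?_
      have := ite_nonneg' (|x| ≤ (N : ℤ))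
      linarith
    · have : max ((N : ℤ) + 1 - |x|) 0 - max ((N : ℤ) + 1 - |y|) 0 = 0 := by omega
      rw [this]
      simp [hxN, hyN]

/-- one half of the bound for the energy of the tent -/
noncomputable def F2 (α : ℝ) (N M : ℕ) (p : ℤ × ℤ) : ℝ :=
  h α M (p.1 - p.2) * (if |p.1| ≤ N then 1 else 0)

theorem F2_summable (α : ℝ) (hα : 1 < α) (N M : ℕ) : Summable (F2 α N M) := by
  rw [← shear.summable_iff]
  have hs : Summable fun x : ℤ => (if |x| ≤ N then (1 : ℝ) else 0) := by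
    refine summable_of_ne_finset_zero (s := Finset.Icc (-(N : ℤ)) N) fun x hx => ?_
    rw [if_neg]
    intro h
    exact hx (Finset.mem_Icc.2 (abs_le.1 h))
  refine (hs.mul_of_nonneg (summable_h α hα M) (fun x => ite_nonneg' _)
    (h_nonneg α M)).congr fun p => ?_
  simp only [Function.comp, shear, Equiv.coe_fn_mk, F2, sub_sub_cancel]
  exact mul_comm _ _

theorem F2_tsum (α : ℝ) (hα : 1 < α) (N M : ℕ) :
    ∑' p, F2 α N M p = (2 * N + 1) * ∑' d, h α M d := by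
  rw [tsum_shear (F2 α N M) (F2_summable α hα N M) (Finset.Icc (-(N : ℤ)) N)]
  · rw [← tsum_mul_left]
    refine tsum_congr fun d => ?_
    have : ∑ x ∈ Finset.Icc (-(N : ℤ)) N, F2 α N M (x, x - d) =
        ∑ x ∈ Finset.Icc (-(N : ℤ)) N, h α M d := by
      refine Finset.sum_congr rfl fun x hx => ?_
      have hx' : |x| ≤ N := by rw [abs_le]; exact Finset.mem_Icc.1 hx
      unfold F2
      simp only [hx', sub_sub_cancel, if_true, mul_one]
    rw [this, Finset.sum_const, Int.card_Icc, nsmul_eq_mul]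
    congr 1
    have : ((N : ℤ) + 1 - -(N : ℤ)).toNat = 2 * N + 1 := by omega
    rw [this]; push_cast; ring
  · intro x y hx
    unfold F2
    rw [if_neg, mul_zero]
    intro h
    exact hx (Finset.mem_Icc.2 (abs_le.1 h))

/-- the tent function -/
noncomputable def T (N : ℕ) (x : ℤ) : ℝ := ∑ m ∈ Finset.range (N + 1), (tau m x : ℝ)

theorem T_supp (N : ℕ) (x : ℤ) (hx : (N : ℤ) < |x|) : T N x = 0 := by
  unfold T
  refine Finset.sum_eq_zero fun m hm => ?_
  rw [tau_supp m N (Nat.lt_succ_iff.1 (Finset.mem_range.1 hm)) x hx]; simp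

theorem T_point (α : ℝ) (N : ℕ) (p : ℤ × ℤ) :
    g α (p.1 - p.2) * ((T N p.1 - T N p.2) * (T N p.1 - T N p.2)) ≤
      F2 α N (N + 1) p + F2 α N (N + 1) p.swap := by
  have h3 : h α (N + 1) (p.2 - p.1) = h α (N + 1) (p.1 - p.2) := by rw [← h_neg]; ring_nf
  unfold F2
  rw [Prod.fst_swap, Prod.snd_swap, h3, ← mul_add]
  unfold h
  rw [mul_assoc]
  refine mul_le_mul_of_nonneg_left ?_ (g_nonneg _ _)
  rw [← sq]
  exact tent_diff N p.1 p.2

/-- the energy of the tent -/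
theorem energy_tent (α : ℝ) (hα : 1 < α) (N : ℕ) :
    Bil α (T N) (T N) ≤ 2 * ((2 * N + 1) * ∑' d, h α (N + 1) d) := by
  have hFs := F2_summable α hα N (N + 1)
  have hsw : Summable fun p : ℤ × ℤ => F2 α N (N + 1) p.swap := hFs.prod_symm
  have h2 : ∑' p : ℤ × ℤ, F2 α N (N + 1) p = ∑' p : ℤ × ℤ, F2 α N (N + 1) p.swap :=
      ((Equiv.prodComm ℤ ℤ).tsum_eq (F2 α N (N + 1))).symm
  have h4 : Bil α (T N) (T N) ≤ ∑' p : ℤ × ℤ, (F2 α N (N + 1) p + F2 α N (N + 1) p.swap) := by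
    unfold Bil
    exact Summable.tsum_le_tsum (T_point α N)
      (summable_bil α hα N (T N) (T N) (T_supp N) (T_supp N)) (hFs.add hsw)
  rw [hFs.tsum_add hsw, ← h2, F2_tsum α hα N (N + 1)] at h4
  linarith

theorem step1 (s : ℝ) (hs0 : 0 < s) (hs1 : s ≤ 1) (K : ℕ) :
    ((K : ℝ) + 1) ^ (s - 1) ≤ (((K : ℝ) + 1) ^ s - (K : ℝ) ^ s) / s := by
  rw [le_div_iff₀ hs0]
  have hK : (0 : ℝ) < (K : ℝ) + 1 := by positivity
  have h1 : (1 + (-(1 / ((K : ℝ) + 1)))) ^ s ≤ 1 + s * (-(1 / ((K : ℝ) + 1))) := by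
    refine rpow_one_add_le_one_add_mul_self ?_ hs0.le hs1
    rw [neg_le_neg_iff, div_le_one hK]
    have : (0 : ℝ) ≤ K := by positivity
    linarith
  have h2 : (K : ℝ) ^ s = ((K : ℝ) + 1) ^ s * (1 + (-(1 / ((K : ℝ) + 1)))) ^ s := by
    rw [← Real.mul_rpow hK.le]
    · congr 1
      field_simp
      ring
    · have : 1 / ((K : ℝ) + 1) ≤ 1 := by
        rw [div_le_one hK]
        have : (0 : ℝ) ≤ K := by positivity
        linarith
      linarith
  have h3 : ((K : ℝ) + 1) ^ (s - 1) = ((K : ℝ) + 1) ^ s / ((K : ℝ) + 1) := by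
    rw [Real.rpow_sub hK, Real.rpow_one]
  have h4 : 0 < ((K : ℝ) + 1) ^ s := Real.rpow_pos_of_pos hK _
  rw [h2, h3]
  have h5 := mul_le_mul_of_nonneg_left h1 h4.le
  have h6 : ((K : ℝ) + 1) ^ s * (1 + s * (-(1 / ((K : ℝ) + 1)))) =
      ((K : ℝ) + 1) ^ s - ((K : ℝ) + 1) ^ s / ((K : ℝ) + 1) * s := by
    field_simp
    ring
  linarith

theorem step2 (r : ℝ) (hr : 1 ≤ r) (K : ℕ) (hK1 : 1 ≤ K) :
    ((K : ℝ) + 1) ^ (-(r + 1)) ≤ ((K : ℝ) ^ (-r) - ((K : ℝ) + 1) ^ (-r)) / r := by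
  have hr0 : 0 < r := by linarith
  rw [le_div_iff₀ hr0]
  have hK0 : (0 : ℝ) < (K : ℝ) := by positivity
  have hK : (0 : ℝ) < (K : ℝ) + 1 := by positivity
  have h1 : 1 + r * (1 / (K : ℝ)) ≤ (1 + 1 / (K : ℝ)) ^ r :=
    one_add_mul_self_le_rpow_one_add (by have : (0:ℝ) ≤ 1 / (K : ℝ) := by positivity
                                         linarith) hr
  have h2 : (K : ℝ) ^ (-r) = ((K : ℝ) + 1) ^ (-r) * (1 + 1 / (K : ℝ)) ^ r := by
    rw [Real.rpow_neg hK0.le, Real.rpow_neg hK.le]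
    have : (1 + 1 / (K : ℝ)) = ((K : ℝ) + 1) / K := by field_simp
    rw [this, Real.div_rpow hK.le hK0.le]
    have h3 : 0 < ((K : ℝ) + 1) ^ r := Real.rpow_pos_of_pos hK _
    have h4 : 0 < (K : ℝ) ^ r := Real.rpow_pos_of_pos hK0 _
    field_simp
  have h3 : ((K : ℝ) + 1) ^ (-(r + 1)) = ((K : ℝ) + 1) ^ (-r) / ((K : ℝ) + 1) := by
    rw [neg_add, ← sub_eq_add_neg, Real.rpow_sub hK, Real.rpow_one]
  have h4 : 0 < ((K : ℝ) + 1) ^ (-r) := Real.rpow_pos_of_pos hK _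
  rw [h2, h3]
  have h5 := mul_le_mul_of_nonneg_left h1 h4.le
  have h6 : ((K : ℝ) + 1) ^ (-r) / ((K : ℝ) + 1) * r ≤ ((K : ℝ) + 1) ^ (-r) * (r * (1 / (K : ℝ))) := by
    rw [div_mul_eq_mul_div, mul_div_assoc]
    refine mul_le_mul_of_nonneg_left ?_ h4.le
    rw [mul_one_div]
    gcongr
    linarith
  linarith

/-- the bound for the partial sums -/
theorem partialSum (α : ℝ) (h2 : 2 < α) (h3 : α < 3) (M : ℕ) (hM : 1 ≤ M) (K : ℕ) :
    ∑ n ∈ Finset.range K, h α M ((n : ℤ) + 1) ≤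
      if K ≤ M then (K : ℝ) ^ (3 - α) / (3 - α)
      else (M : ℝ) ^ (3 - α) / (3 - α) +
        (M : ℝ) ^ 2 * ((M : ℝ) ^ (-(α - 1)) - (K : ℝ) ^ (-(α - 1))) / (α - 1) := by
  have hs0 : 0 < 3 - α := by linarith
  have hr0 : 0 < α - 1 := by linarith
  have hM0 : (0 : ℝ) < M := by positivity
  induction K with
  | zero =>
    simp only [Finset.range_zero, Finset.sum_empty, Nat.zero_le, if_true]
    positivity
  | succ K ih =>
    rw [Finset.sum_range_succ]
    have hk : h α M ((K : ℤ) + 1) = ((K : ℝ) + 1) ^ (-α) * (min ((K : ℝ) + 1) M) ^ 2 := by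
      unfold h g
      have h0 : (K : ℤ) + 1 ≠ 0 := by positivity
      have h1 : |(K : ℤ) + 1| = (K : ℤ) + 1 := abs_of_nonneg (by positivity)
      rw [if_neg h0, h1]
      push_cast
      rfl
    have hK : (0 : ℝ) < (K : ℝ) + 1 := by positivity
    rcases Nat.lt_or_ge K M with hKM | hKM
    · rw [if_pos hKM.le] at ih
      rw [if_pos (by omega : K + 1 ≤ M)]
      have hmin : min ((K : ℝ) + 1) M = (K : ℝ) + 1 := by
        refine min_eq_left ?_
        exact_mod_cast hKM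
      have := step1 (3 - α) hs0 (by linarith) K
      have e : h α M ((K : ℤ) + 1) = ((K : ℝ) + 1) ^ ((3 - α) - 1) := by
        rw [hk, hmin, ← Real.rpow_natCast, ← Real.rpow_add hK]
        congr 1
        push_cast
        ring
      rw [e]
      push_cast
      calc _ ≤ (K : ℝ) ^ (3 - α) / (3 - α) +
            (((K : ℝ) + 1) ^ (3 - α) - (K : ℝ) ^ (3 - α)) / (3 - α) := add_le_add ih this
        _ = _ := by ring
    · have hK1 : 1 ≤ K := hM.trans hKM
      have hih : ∑ n ∈ Finset.range K, h α M ((n : ℤ) + 1) ≤ (M : ℝ) ^ (3 - α) / (3 - α) +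
          (M : ℝ) ^ 2 * ((M : ℝ) ^ (-(α - 1)) - (K : ℝ) ^ (-(α - 1))) / (α - 1) := by
        rcases Nat.eq_or_lt_of_le hKM with h | h
        · rw [if_pos h.ge, ← h] at ih
          rw [← h]
          simpa using ih
        · rwa [if_neg (by omega)] at ih
      rw [if_neg (by omega : ¬ K + 1 ≤ M)]
      have hmin : min ((K : ℝ) + 1) M = M := by
        refine min_eq_right ?_
        have : (M : ℝ) ≤ K := by exact_mod_cast hKM
        linarith
      have := step2 (α - 1) (by linarith) K hK1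
      rw [show -(α - 1 + 1) = -α by ring] at this
      rw [hk, hmin]
      push_cast
      have h4 := mul_le_mul_of_nonneg_right this (sq_nonneg (M : ℝ))
      calc _ ≤ ((M : ℝ) ^ (3 - α) / (3 - α) +
          (M : ℝ) ^ 2 * ((M : ℝ) ^ (-(α - 1)) - (K : ℝ) ^ (-(α - 1))) / (α - 1)) +
          ((K : ℝ) ^ (-(α - 1)) - ((K : ℝ) + 1) ^ (-(α - 1))) / (α - 1) * (M : ℝ) ^ 2 :=
            add_le_add hih h4
        _ = _ := by ring

theorem partialSum' (α : ℝ) (h2 : 2 < α) (h3 : α < 3) (M : ℕ) (hM : 1 ≤ M) (K : ℕ) :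
    ∑ n ∈ Finset.range K, h α M ((n : ℤ) + 1) ≤
      (1 / (3 - α) + 1 / (α - 1)) * (M : ℝ) ^ (3 - α) := by
  have hs0 : 0 < 3 - α := by linarith
  have hr0 : 0 < α - 1 := by linarith
  have hM0 : (0 : ℝ) < M := by positivity
  have hMp : 0 < (M : ℝ) ^ (3 - α) := Real.rpow_pos_of_pos hM0 _
  refine (partialSum α h2 h3 M hM K).trans ?_
  have hM2 : (M : ℝ) ^ 2 * (M : ℝ) ^ (-(α - 1)) = (M : ℝ) ^ (3 - α) := by
    rw [← Real.rpow_natCast, ← Real.rpow_add hM0]
    congr 1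
    push_cast; ring
  have e1 : 0 ≤ 1 / (α - 1) * (M : ℝ) ^ (3 - α) := by positivity
  split_ifs with h
  · have : (K : ℝ) ^ (3 - α) ≤ (M : ℝ) ^ (3 - α) := by
      refine Real.rpow_le_rpow (by positivity) (by exact_mod_cast h) hs0.le
    have h5 : (K : ℝ) ^ (3 - α) / (3 - α) ≤ (M : ℝ) ^ (3 - α) / (3 - α) := by gcongr
    rw [add_mul, one_div_mul_eq_div]
    linarith
  · have h6 : 0 ≤ (K : ℝ) ^ (-(α - 1)) := by positivity
    have h7 : (M : ℝ) ^ 2 * ((M : ℝ) ^ (-(α - 1)) - (K : ℝ) ^ (-(α - 1))) / (α - 1) ≤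
        (M : ℝ) ^ (3 - α) / (α - 1) := by
      rw [← hM2]
      gcongr
      linarith
    rw [add_mul, one_div_mul_eq_div, one_div_mul_eq_div]
    linarith

theorem tsum_h (α : ℝ) (h2 : 2 < α) (h3 : α < 3) (M : ℕ) (hM : 1 ≤ M) :
    ∑' d, h α M d ≤ 2 * (1 / (3 - α) + 1 / (α - 1)) * (M : ℝ) ^ (3 - α) := by
  have hs := summable_h α (by linarith) M
  have hs1 : Summable fun n : ℕ => h α M n := hs.comp_injective Nat.cast_injective
  have hs2 : Summable fun n : ℕ => h α M (-((n : ℤ) + 1)) := by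
    refine hs.comp_injective (i := fun n : ℕ => (-((n : ℤ) + 1))) fun a b hab => ?_
    simp only at hab
    omega
  rw [tsum_of_nat_of_neg_add_one hs1 hs2]
  have h0 : h α M ((0 : ℕ) : ℤ) = 0 := by unfold h g; simp
  have hb2 : ∑' n : ℕ, h α M (-((n : ℤ) + 1)) ≤ (1 / (3 - α) + 1 / (α - 1)) * (M : ℝ) ^ (3 - α) := by
    refine Real.tsum_le_of_sum_range_le (fun n => h_nonneg _ _ _) fun K => ?_
    simp only [h_neg]
    exact partialSum' α h2 h3 M hM K
  have hb1 : ∑' n : ℕ, h α M n ≤ (1 / (3 - α) + 1 / (α - 1)) * (M : ℝ) ^ (3 - α) := by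
    rw [hs1.tsum_eq_zero_add, h0, zero_add]
    refine Real.tsum_le_of_sum_range_le (fun n => h_nonneg _ _ _) fun K => ?_
    push_cast
    exact partialSum' α h2 h3 M hM K
  linarith

end Pool.Agent.V7H97.Chain
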